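import Mathlib

/-! The theorem of Springer for extensions of odd degree. -/

open Polynomial

namespace Tq

universe u

/-- A polynomial of odd degree has an irreducible factor of odd degree. -/
theorem odd_factor {F : Type*} [Field F] : ∀ (m : ℕ) (g : F[X]), g.natDegree = m → Odd m →
    ∃ p : F[X], Irreducible p ∧ Odd p.natDegree ∧ p ∣ g := by
  intro m
  induction m using Nat.strong_induction_on with
  | _ m ih =>
    intro g hg hm
    have hg0 : g ≠ 0 := by
      rintro rfl
      rw [natDegree_zero] at hg
      subst hg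
      exact absurd hm (by decide)
    have hu : ¬ IsUnit g := by
      intro h
      have := natDegree_eq_zero_of_isUnit h
      rw [hg] at this
      subst this
      exact absurd hm (by decide)
    obtain ⟨p, hp, q, rfl⟩ := WfDvdMonoid.exists_irreducible_factor hu hg0
    by_cases h : Odd p.natDegree
    · exact ⟨p, hp, h, dvd_mul_right _ _⟩
    · have hp0 : p ≠ 0 := hp.ne_zero
      have hq0 : q ≠ 0 := right_ne_zero_of_mul hg0
      rw [natDegree_mul hp0 hq0] at hg
      have hpd : 0 < p.natDegree := hp.natDegree_pos
      rw [Nat.not_odd_iff_even] at h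
      have hqo : Odd q.natDegree := by
        rw [← hg] at hm
        rw [Nat.odd_add] at hm
        by_contra hc
        rw [Nat.not_odd_iff_even] at hc
        exact (Nat.not_odd_iff_even.2 h) (hm.2 hc)
      obtain ⟨r, hr, hro, hrq⟩ := ih q.natDegree (by omega) q rfl hqo
      exact ⟨r, hr, hro, hrq.mul_left p⟩

/-- The quadratic form of a vector of polynomials. -/
noncomputable def qP {F : Type*} [Field F] {n : ℕ} (A : Matrix (Fin n) (Fin n) F)
    (y : Fin n → F[X]) : F[X] := ∑ i, ∑ j, C (A i j) * (y i * y j)

theorem qP_smul {F : Type*} [Field F] {n : ℕ} (A : Matrix (Fin n) (Fin n) F)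
    (d : F[X]) (y : Fin n → F[X]) : qP A (fun i => d * y i) = d * d * qP A y := by
  simp only [qP, Finset.mul_sum]
  apply Finset.sum_congr rfl; intro i _
  apply Finset.sum_congr rfl; intro j _
  ring

theorem qP_dvd {F : Type*} [Field F] {n : ℕ} (A : Matrix (Fin n) (Fin n) F)
    {f : F[X]} {y z : Fin n → F[X]} (h : ∀ i, f ∣ y i - z i) : f ∣ qP A y - qP A z := by
  simp only [qP, ← Finset.sum_sub_distrib]
  apply Finset.dvd_sum; intro i _
  apply Finset.dvd_sum; intro j _
  have : C (A i j) * (y i * y j) - C (A i j) * (z i * z j)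
      = (C (A i j) * y j) * (y i - z i) + (C (A i j) * z i) * (y j - z j) := by ring
  rw [this]
  exact dvd_add ((h i).mul_left _) ((h j).mul_left _)

theorem qP_coeff {F : Type*} [Field F] {n : ℕ} (A : Matrix (Fin n) (Fin n) F)
    {y : Fin n → F[X]} {D : ℕ} (h : ∀ i, (y i).natDegree ≤ D) :
    (qP A y).coeff (D + D) = dotProduct (fun i => (y i).coeff D)
      (A.mulVec (fun i => (y i).coeff D)) := by
  simp only [qP, finsetSum_coeff, dotProduct, Matrix.mulVec, Finset.mul_sum, coeff_C_mul]
  apply Finset.sum_congr rfl; intro i _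
  apply Finset.sum_congr rfl; intro j _
  rw [coeff_mul_add_eq_of_natDegree_le (h i) (h j)]
  ring

theorem qP_natDegree {F : Type*} [Field F] {n : ℕ} (A : Matrix (Fin n) (Fin n) F)
    {y : Fin n → F[X]} {D : ℕ} (h : ∀ i, (y i).natDegree ≤ D) :
    (qP A y).natDegree ≤ D + D := by
  unfold qP
  apply natDegree_sum_le_of_forall_le
  intro i _
  apply natDegree_sum_le_of_forall_le
  intro j _
  refine (natDegree_C_mul_le _ _).trans (natDegree_mul_le.trans ?_)
  exact add_le_add (h i) (h j)

theorem spr_aux {F : Type*} [Field F] {n : ℕ} (A : Matrix (Fin n) (Fin n) F)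
    (hA : ∀ z : Fin n → F, dotProduct z (A.mulVec z) = 0 → z = 0) :
    ∀ (m : ℕ) (f : F[X]), Irreducible f → f.natDegree = m → Odd m →
      ∀ y : Fin n → F[X], f ∣ qP A y → ∀ i, f ∣ y i := by
  intro m
  induction m using Nat.strong_induction_on with
  | _ m ih =>
    intro f hf hfm hm y hy
    by_contra hne
    have hf0 : f ≠ 0 := hf.ne_zero
    -- reduction modulo f
    set u : Fin n → F[X] := fun i => y i % f with hu
    have hyu : ∀ i, f ∣ y i - u i := fun i =>
      ⟨y i / f, by
        have := EuclideanDomain.div_add_mod (y i) f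
        simp only [hu]
        linear_combination -this⟩
    have hfu : f ∣ qP A u := (dvd_sub_right hy).1 (qP_dvd A hyu)
    have hne' : ¬ ∀ i, f ∣ u i := fun h => hne fun i => (dvd_sub_left (h i)).1 (hyu i)
    have hmp : 0 < m := hm.pos
    have hud : ∀ i, (u i).natDegree ≤ m - 1 := by
      intro i
      have := natDegree_mod_lt (y i) (q := f) (by omega)
      simp only [hu]
      omega
    -- the gcd
    obtain ⟨d, hd⟩ := (IsPrincipalIdealRing.principal (Ideal.span (Set.range u))).principal
    rw [← Ideal.submodule_span_eq] at hd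
    have hdu : ∀ i, ∃ v, u i = d * v := by
      intro i
      have : u i ∈ Submodule.span F[X] {d} := by
        rw [← hd]
        exact Submodule.subset_span ⟨i, rfl⟩
      rw [Submodule.mem_span_singleton] at this
      obtain ⟨a, ha⟩ := this
      exact ⟨a, by rw [← ha, smul_eq_mul, mul_comm]⟩
    choose v hv using hdu
    have hfd : ¬ f ∣ d := fun h => hne' fun i => by
      rw [hv i]
      exact h.mul_right _
    have hd0 : d ≠ 0 := fun h => hfd (h ▸ dvd_zero f)
    obtain ⟨c, hc⟩ : ∃ c : Fin n → F[X], ∑ i, c i * v i = 1 := by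
      have : d ∈ Submodule.span F[X] (Set.range u) := by
        rw [hd]
        exact Submodule.mem_span_singleton_self d
      rw [Submodule.mem_span_range_iff_exists_fun] at this
      obtain ⟨c, hc⟩ := this
      refine ⟨c, mul_left_cancel₀ hd0 ?_⟩
      rw [mul_one, Finset.mul_sum]
      conv_rhs => rw [← hc]
      apply Finset.sum_congr rfl; intro i _
      rw [smul_eq_mul, hv i]
      ring
    have hfv : f ∣ qP A v := by
      have h1 : qP A u = d * d * qP A v := by
        rw [← qP_smul]
        exact congrArg _ (funext hv)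
      rw [h1] at hfu
      rcases hf.prime.dvd_or_dvd hfu with h | h
      · rcases hf.prime.dvd_or_dvd h with h | h <;> exact absurd h hfd
      · exact h
    have hvd : ∀ i, (v i).natDegree ≤ m - 1 := by
      intro i
      by_cases h : v i = 0
      · rw [h, natDegree_zero]
        exact Nat.zero_le _
      · have := hud i
        rw [hv i, natDegree_mul hd0 h] at this
        omega
    -- the degree
    have hv0 : ∃ i, v i ≠ 0 := by
      by_contra h
      push Not at h
      simp only [h, mul_zero, Finset.sum_const_zero] at hc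
      exact zero_ne_one hc
    obtain ⟨i₀, hi₀⟩ := hv0
    obtain ⟨i₁, -, hi₁⟩ := Finset.exists_max_image Finset.univ (fun i => (v i).natDegree)
      ⟨i₀, Finset.mem_univ _⟩
    set D := (v i₁).natDegree with hD
    have hDi : ∀ i, (v i).natDegree ≤ D := fun i => hi₁ i (Finset.mem_univ _)
    have hcn : ∃ i, (v i).coeff D ≠ 0 := by
      by_cases h : v i₁ = 0
      · have hD0 : D = 0 := by rw [hD, h, natDegree_zero]
        refine ⟨i₀, ?_⟩
        have h2 := hDi i₀
        rw [hD0] at h2 ⊢
        rw [Nat.le_zero] at h2
        intro h3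
        apply hi₀
        rw [eq_C_of_natDegree_eq_zero h2, h3, C_0]
      · exact ⟨i₁, by rw [hD, coeff_natDegree]; exact leadingCoeff_ne_zero.2 h⟩
    have hco : (qP A v).coeff (D + D) ≠ 0 := by
      rw [qP_coeff A hDi]
      intro h
      obtain ⟨i, hi⟩ := hcn
      exact hi (congrFun (hA _ h) i)
    have hq0 : qP A v ≠ 0 := fun h => hco (by rw [h, coeff_zero])
    have hnd : (qP A v).natDegree = D + D :=
      le_antisymm (qP_natDegree A hDi) (le_natDegree_of_ne_zero hco)
    obtain ⟨g, hg⟩ := hfv
    have hg0 : g ≠ 0 := by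
      rintro rfl
      rw [mul_zero] at hg
      exact hq0 hg
    have hdg : m + g.natDegree = D + D := by
      rw [← hnd, hg, natDegree_mul hf0 hg0, hfm]
    have hDm : D ≤ m - 1 := hvd i₁
    have hgo : Odd g.natDegree := by
      by_contra h
      rw [Nat.not_odd_iff_even] at h
      have h1 : Odd (m + g.natDegree) := hm.add_even h
      rw [hdg] at h1
      exact (Nat.not_odd_iff_even.2 ⟨D, rfl⟩) h1
    obtain ⟨p, hp, hpo, hpg⟩ := odd_factor _ g rfl hgo
    have hpm : p.natDegree < m := by
      have := natDegree_le_of_dvd hpg hg0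
      omega
    have hall := ih p.natDegree hpm p hp rfl hpo v (hg ▸ hpg.mul_left f)
    have h1 : p ∣ 1 := by
      rw [← hc]
      exact Finset.dvd_sum fun i _ => (hall i).mul_left _
    exact hp.not_isUnit (isUnit_of_dvd_one h1)

/-- **Springer's theorem.** Proof by induction on the degree `m`: `L = F(θ)`, `f` = the minimal
polynomial, `x_i = y_i(θ)` with `deg y_i < m`, divide by the gcd of the `y_i`; `q(y) = f g`. If `q`
is anisotropic over `F` the degree of `q(y)` is `2 max deg y_i ≤ 2 m - 2`, so `deg g` is odd and
`≤ m - 2`; an irreducible factor `h` of `g` of odd degree: `q` has the nontrivial zero `y` in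
`F[X]/(h)`. -/
theorem springer {F L : Type u} [Field F] [CharZero F] [Field L] [Algebra F L]
    [FiniteDimensional F L] (h : Odd (Module.finrank F L)) {n : ℕ}
    (A : Matrix (Fin n) (Fin n) F) {x : Fin n → L} (hx : x ≠ 0)
    (h0 : dotProduct x ((A.map (algebraMap F L)).mulVec x) = 0) :
    ∃ y : Fin n → F, y ≠ 0 ∧ dotProduct y (A.mulVec y) = 0 := by
  by_contra hcon
  have hA : ∀ z : Fin n → F, dotProduct z (A.mulVec z) = 0 → z = 0 := by
    intro z hz
    by_contra h
    exact hcon ⟨z, h, hz⟩
  obtain ⟨θ, hθ⟩ := Field.exists_primitive_element F L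
  have hint : IsIntegral F θ := IsIntegral.of_finite F θ
  have hmem : ∀ l : L, ∃ p : F[X], aeval θ p = l := by
    intro l
    have h1 : l ∈ IntermediateField.adjoin F {θ} := by
      rw [hθ]
      exact IntermediateField.mem_top
    rw [← IntermediateField.mem_toSubalgebra,
      IntermediateField.adjoin_simple_toSubalgebra_of_isAlgebraic hint.isAlgebraic,
      Algebra.adjoin_singleton_eq_range_aeval] at h1
    exact h1
  choose y hy using fun i => hmem (x i)
  have hdeg : (minpoly F θ).natDegree = Module.finrank F L := by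
    rw [← IntermediateField.adjoin.finrank hint, hθ, IntermediateField.finrank_top']
  have hq : aeval θ (qP A y) = 0 := by
    rw [← h0]
    simp only [qP, map_sum, map_mul, aeval_C, hy, dotProduct, Matrix.mulVec, Finset.mul_sum,
      Matrix.map_apply]
    apply Finset.sum_congr rfl; intro i _
    apply Finset.sum_congr rfl; intro j _
    ring
  have hdvd : minpoly F θ ∣ qP A y := minpoly.dvd F θ hq
  have hall := spr_aux A hA _ (minpoly F θ) (minpoly.irreducible hint) rfl (hdeg ▸ h) y hdvd
  apply hx
  funext i
  rw [← hy i]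
  obtain ⟨r, hr⟩ := hall i
  rw [hr, map_mul, minpoly.aeval, zero_mul]
  rfl

end Tq
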