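import Pool.Agent.Lib.MP_f80667_ag.Tq.Defs

/-! Transfer of common zeros; the polar form and the derivatives. -/

open scoped LinearAlgebra.Projectivization

namespace Tq

open ZC

universe u

/-- Transfer of common zeros (Nullstellensatz). Proof: `Cu.zero_transfer` in `Cu/GlobB.lean` with `g`
in place of `X j`: `g` is in the radical of the ideal of the `p i`. -/
theorem transfer {F E R : Type*} [Field F] [Field E] [Algebra F E] [IsAlgClosed E]
    [CommRing R] [IsReduced R] [Algebra F R] {τ : Type*} [Finite τ] {ι : Type*}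
    (p : ι → MvPolynomial τ F) (g : MvPolynomial τ F)
    (hs : ∀ x : τ → E, (∀ i, MvPolynomial.aeval x (p i) = 0) → MvPolynomial.aeval x g = 0)
    (x : τ → R) (hx : ∀ i, MvPolynomial.aeval x (p i) = 0) : MvPolynomial.aeval x g = 0 := by
  have h1 : g ∈ MvPolynomial.vanishingIdeal F
      (MvPolynomial.zeroLocus E (Ideal.span (Set.range p))) := by
    rw [MvPolynomial.mem_vanishingIdeal_iff]
    intro y hy
    rw [MvPolynomial.zeroLocus_span] at hy
    exact hs y fun i => hy (p i) ⟨i, rfl⟩
  rw [MvPolynomial.vanishingIdeal_zeroLocus_eq_radical] at h1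
  obtain ⟨N, hN⟩ := h1
  have h3 : Ideal.span (Set.range p) ≤ RingHom.ker (MvPolynomial.aeval (R := F) x).toRingHom := by
    rw [Ideal.span_le]
    rintro _ ⟨i, rfl⟩
    exact hx i
  have h4 : MvPolynomial.aeval x (g ^ N) = 0 := h3 hN
  rw [map_pow] at h4
  exact eq_zero_of_pow_eq_zero h4

/-- The polar form and the derivatives. -/
theorem bv_eq_grad {k : Type*} [Field k] {n : ℕ} (H : Matrix (Fin n) (Fin n) k) {R : Type*}
    [CommRing R] [Algebra k R] (x y : Fin n → R) :
    bv H x y = ∑ j, y j * MvPolynomial.aeval x (MvPolynomial.pderiv j (ml H)) := by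
  have h0 : ∀ j a : Fin n, MvPolynomial.aeval x ((Pi.single j (1 : MvPolynomial (Fin n) k) :
      Fin n → MvPolynomial (Fin n) k) a) = if a = j then (1 : R) else 0 := by
    intro j a
    rw [Pi.single_apply]
    split_ifs <;> simp
  have h1 : ∀ j, MvPolynomial.aeval x (MvPolynomial.pderiv j (ml H)) =
      ∑ a, ∑ b, algebraMap k R (H a b) *
      ((if a = j then 1 else 0) * x b + x a * (if b = j then 1 else 0)) := by
    intro j
    rw [ml, map_sum, map_sum]
    refine Finset.sum_congr rfl fun a _ => ?_
    rw [map_sum, map_sum]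
    refine Finset.sum_congr rfl fun b _ => ?_
    rw [MvPolynomial.pderiv_C_mul, MvPolynomial.pderiv_mul, MvPolynomial.pderiv_X,
      MvPolynomial.pderiv_X, map_mul, MvPolynomial.aeval_C, map_add, map_mul, map_mul,
      MvPolynomial.aeval_X, MvPolynomial.aeval_X, h0, h0]
  simp only [h1, Finset.mul_sum]
  rw [Finset.sum_comm, bv]
  refine Finset.sum_congr rfl fun a _ => ?_
  rw [Finset.sum_comm]
  refine Finset.sum_congr rfl fun b _ => ?_
  simp only [mul_add, Finset.sum_add_distrib, mul_ite, ite_mul, mul_one, mul_zero, one_mul,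
    zero_mul, Finset.sum_ite_eq, Finset.mem_univ, if_true]
  ring

end Tq
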