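import Pool.Agent.Lib.MP_f80667_ag.Tq.FinA

/-! Smoothness over extensions of the base field. -/

open scoped LinearAlgebra.Projectivization

namespace Tq

open ZC

universe u

/-- The polar form over an extension. -/
theorem finb_bv {F k Ω : Type*} [Field F] [Field k] [Field Ω] [Algebra F k] [Algebra k Ω]
    [Algebra F Ω] [IsScalarTower F k Ω] {n : ℕ} (H : Matrix (Fin n) (Fin n) F)
    (x y : Fin n → Ω) : bv (H.map (algebraMap F k)) x y = bv H x y := by
  simp only [bv, Matrix.map_apply, ← IsScalarTower.algebraMap_apply F k Ω]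

/-- The quadratic form over an extension. -/
theorem finb_qv {F k Ω : Type*} [Field F] [Field k] [Field Ω] [Algebra F k] [Algebra k Ω]
    [Algebra F Ω] [IsScalarTower F k Ω] {n : ℕ} (H : Matrix (Fin n) (Fin n) F)
    (x : Fin n → Ω) : qv (H.map (algebraMap F k)) x = qv H x := by
  simp only [qv, Matrix.map_apply, ← IsScalarTower.algebraMap_apply F k Ω]

/-- The equations in the variables `x`, `(a, b)`. -/
noncomputable def finbP {F : Type*} [Field F] {n : ℕ} (A B : Matrix (Fin n) (Fin n) F) :
    Fin 2 ⊕ Fin n → MvPolynomial (Fin n ⊕ Fin 2) F :=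
  Sum.elim (fun i => MvPolynomial.rename Sum.inl (Pl A B i)) fun j =>
    MvPolynomial.X (Sum.inr 0) * MvPolynomial.rename Sum.inl (MvPolynomial.pderiv j (ml A)) +
      MvPolynomial.X (Sum.inr 1) * MvPolynomial.rename Sum.inl (MvPolynomial.pderiv j (ml B))

/-- Smoothness over the algebraic closure of `F` gives smoothness over every algebraically closed
extension of `F`. Proof: variables `Fin n ⊕ Fin 2` (`x`, `(a, b)`), the polynomials `A(x)`, `B(x)`,
`a ∂_j A(x) + b ∂_j B(x)`; over `E` every common zero has `x = 0` or `(a, b) = 0`, so `x_j a` and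
`x_j b` vanish; `transfer` for these. -/
theorem sm_transfer {F E Ω k : Type*} [Field F] [Field E] [Algebra F E] [IsAlgClosed E]
    [Field k] [Field Ω] [Algebra F k] [Algebra k Ω] [Algebra F Ω] [IsScalarTower F k Ω] {n : ℕ}
    (A B : Matrix (Fin n) (Fin n) F)
    (hs : ∀ x : Fin n → E, x ≠ 0 → Zer (Pl A B) E x → LinearIndependent E
      fun (i : Fin 2) (j : Fin n) => MvPolynomial.aeval x (MvPolynomial.pderiv j (Pl A B i)))
    (x : Fin n → Ω) (hx : x ≠ 0) (hA : qv (A.map (algebraMap F k)) x = 0)
    (hB : qv (B.map (algebraMap F k)) x = 0) (a b : Ω)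
    (h : ∀ y : Fin n → Ω, a * bv (A.map (algebraMap F k)) x y +
      b * bv (B.map (algebraMap F k)) x y = 0) : a = 0 ∧ b = 0 := by
  classical
  rw [finb_qv] at hA hB
  simp only [finb_bv] at h
  have key : ∀ (j : Fin n) (i : Fin 2), x j * (![a, b] : Fin 2 → Ω) i = 0 := by
    intro j i
    have h1 := transfer (E := E) (finbP A B)
      (MvPolynomial.X (Sum.inl j) * MvPolynomial.X (Sum.inr i)) (fun z hz => ?_)
      (Sum.elim x ![a, b]) (fun c => ?_)
    · rwa [map_mul, MvPolynomial.aeval_X, MvPolynomial.aeval_X, Sum.elim_inl, Sum.elim_inr] at h1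
    · rw [map_mul, MvPolynomial.aeval_X, MvPolynomial.aeval_X]
      by_cases h0 : (z ∘ Sum.inl : Fin n → E) = 0
      · have h2 : z (Sum.inl j) = 0 := congrFun h0 j
        rw [h2, zero_mul]
      · have h2 : Zer (Pl A B) E (z ∘ Sum.inl) := by
          intro i
          have h3 := hz (Sum.inl i)
          rwa [finbP, Sum.elim_inl, MvPolynomial.aeval_rename] at h3
        have h3 := hs _ h0 h2
        rw [Fintype.linearIndependent_iff] at h3
        have h4 := h3 (fun i => z (Sum.inr i)) (by
          funext j
          have h5 := hz (Sum.inr j)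
          rw [finbP, Sum.elim_inr, map_add, map_mul, map_mul, MvPolynomial.aeval_X,
            MvPolynomial.aeval_X, MvPolynomial.aeval_rename, MvPolynomial.aeval_rename] at h5
          rw [Finset.sum_apply, Fin.sum_univ_two, Pi.zero_apply, Pi.smul_apply, Pi.smul_apply,
            smul_eq_mul, smul_eq_mul]
          exact h5) i
        rw [h4, mul_zero]
    · have e : (Sum.elim x ![a, b] ∘ Sum.inl : Fin n → Ω) = x := Sum.elim_comp_inl _ _
      rcases c with c | c
      · rw [finbP, Sum.elim_inl, MvPolynomial.aeval_rename, e]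
        exact (zer_iff A B).2 ⟨hA, hB⟩ c
      · rw [finbP, Sum.elim_inr, map_add, map_mul, map_mul, MvPolynomial.aeval_X,
          MvPolynomial.aeval_X, MvPolynomial.aeval_rename, MvPolynomial.aeval_rename, e,
          Sum.elim_inr, Sum.elim_inr]
        have h2 := h (Pi.single c 1)
        rw [bv_eq_grad, bv_eq_grad,
          Finset.sum_eq_single c (fun j _ hj => by rw [Pi.single_eq_of_ne hj, zero_mul])
            (fun h => absurd (Finset.mem_univ c) h),
          Finset.sum_eq_single c (fun j _ hj => by rw [Pi.single_eq_of_ne hj, zero_mul])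
            (fun h => absurd (Finset.mem_univ c) h), Pi.single_eq_same, one_mul, one_mul] at h2
        exact h2
  obtain ⟨j, hj⟩ := Function.ne_iff.1 hx
  exact ⟨(mul_eq_zero.1 (key j 0)).resolve_left hj, (mul_eq_zero.1 (key j 1)).resolve_left hj⟩

end Tq
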