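import Pool.Agent.Lib.MP_f80667_ag.Tq.Defs

/-! The members of a smooth pencil of quadrics have rank at least `n - 1`. -/

open scoped LinearAlgebra.Projectivization

namespace Tq

open ZC

universe u

variable {k : Type u} [Field k] [CharZero k] {Ω : Type u} [Field Ω] [Algebra k Ω]
  {n : ℕ} {A B : Matrix (Fin n) (Fin n) k}

/-- `X` is smooth of codimension `2`. -/
def Sm (Ω : Type u) [Field Ω] [Algebra k Ω] (A B : Matrix (Fin n) (Fin n) k) : Prop :=
  ∀ x : Fin n → Ω, x ≠ 0 → qv A x = 0 → qv B x = 0 → ∀ a b : Ω,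
    (∀ y : Fin n → Ω, a * bv A x y + b * bv B x y = 0) → a = 0 ∧ b = 0

variable {M : Type u} [Field M] [Algebra k M]

/-- The polar form with one vector fixed, as a linear map. -/
def bvl {R : Type*} [CommRing R] [Algebra k R] (A : Matrix (Fin n) (Fin n) k) (v : Fin n → R) :
    (Fin n → R) →ₗ[R] R where
  toFun y := bv A v y
  map_add' y z := bv_add_right A v y z
  map_smul' c y := bv_smul_right A c v y

omit [CharZero k] in
/-- A vector of the radical stays in the radical after an extension of fields. -/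
theorem rad_ext (σ : M →ₐ[k] Ω) {a b : M} {u : Fin n → M}
    (h : ∀ y : Fin n → M, a * bv A u y + b * bv B u y = 0) (y : Fin n → Ω) :
    σ a * bv A (fun i => σ (u i)) y + σ b * bv B (fun i => σ (u i)) y = 0 := by
  have key : σ a • bvl A (fun i => σ (u i)) + σ b • bvl B (fun i => σ (u i)) =
      (0 : (Fin n → Ω) →ₗ[Ω] Ω) := by
    refine (Pi.basisFun Ω (Fin n)).ext fun i => ?_
    have h1 : (Pi.single i (1 : Ω) : Fin n → Ω) = fun j => σ ((Pi.single i (1 : M) : Fin n → M) j) := by
      funext j
      by_cases hj : j = i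
      · subst hj
        simp
      · simp [Pi.single_eq_of_ne hj]
    rw [Pi.basisFun_apply, h1]
    change σ a * bv A (fun i => σ (u i)) _ + σ b * bv B (fun i => σ (u i)) _ = 0
    rw [bv_hom, bv_hom, ← map_mul, ← map_mul, ← map_add, h, map_zero]
  have := LinearMap.congr_fun key y
  exact this

/-- A binary quadratic form over an algebraically closed field has a zero. -/
theorem exists_zero_two [IsAlgClosed Ω] [CharZero Ω] (a b c : Ω) :
    ∃ s t : Ω, (s ≠ 0 ∨ t ≠ 0) ∧ s ^ 2 * a + s * t * b + t ^ 2 * c = 0 := by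
  by_cases ha : a = 0
  · exact ⟨1, 0, Or.inl one_ne_zero, by rw [ha]; ring⟩
  · obtain ⟨x, hx⟩ := exists_quadratic_eq_zero (a := a) (b := b) (c := c) ha
      (IsAlgClosed.exists_eq_mul_self _)
    exact ⟨x, 1, Or.inr one_ne_zero, by linear_combination hx⟩

/-- The radical of a member of the pencil has dimension at most `1`. Proof: let `u`, `u'` be
independent in the radical of `f = a A + b B`, `(a, b) ≠ 0`; let `h` be another member
(`(c, d)` with `a d - b c ≠ 0`). There is `(s, s') ≠ 0` over `Ω` with `h(s u + s' u') = 0`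
(`IsAlgClosed`); `x = s u + s' u' ≠ 0` is on `X` and the gradient of `f` at `x` is `0`: this
contradicts `Sm`. -/
theorem rad_le [IsAlgClosed Ω] (hs : Sm Ω A B) (σ : M →ₐ[k] Ω) {a b : M} (hab : a ≠ 0 ∨ b ≠ 0)
    {u u' : Fin n → M} (hu : LinearIndependent M ![u, u'])
    (h : ∀ y : Fin n → M, a * bv A u y + b * bv B u y = 0)
    (h' : ∀ y : Fin n → M, a * bv A u' y + b * bv B u' y = 0) : False := by
  have : CharZero Ω := charZero_of_injective_algebraMap (algebraMap k Ω).injective
  have h1 := rad_ext σ h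
  have h1' := rad_ext σ h'
  have hab' : σ a ≠ 0 ∨ σ b ≠ 0 := by
    rcases hab with h2 | h2
    · exact Or.inl ((map_ne_zero σ).2 h2)
    · exact Or.inr ((map_ne_zero σ).2 h2)
  obtain ⟨i, j, hij⟩ := exists_minor hu
  have hij' : σ (u i) * σ (u' j) - σ (u j) * σ (u' i) ≠ 0 := by
    rw [← map_mul, ← map_mul, sub_ne_zero]
    exact fun h2 => hij (σ.injective h2)
  obtain ⟨v, hv⟩ : ∃ v : Fin n → Ω, v = fun i => σ (u i) := ⟨_, rfl⟩
  obtain ⟨v', hv'⟩ : ∃ v' : Fin n → Ω, v' = fun i => σ (u' i) := ⟨_, rfl⟩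
  rw [← hv] at h1
  rw [← hv'] at h1'
  have hm : v i * v' j - v j * v' i ≠ 0 := by
    rw [hv, hv']
    exact hij'
  obtain ⟨c, d, hcd⟩ : ∃ c d : Ω, σ a * d - σ b * c ≠ 0 := by
    rcases hab' with h2 | h2
    · exact ⟨0, 1, by simpa using h2⟩
    · exact ⟨-1, 0, by simpa using h2⟩
  obtain ⟨s, t, hst, h0⟩ := exists_zero_two (c * qv A v + d * qv B v)
    (c * bv A v v' + d * bv B v v') (c * qv A v' + d * qv B v')
  have hx0 : s • v + t • v' ≠ 0 := by
    intro h2
    have e1 : s * v i + t * v' i = 0 := congrFun h2 i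
    have e2 : s * v j + t * v' j = 0 := congrFun h2 j
    have e3 : s * (v i * v' j - v j * v' i) = 0 := by linear_combination v' j * e1 - v' i * e2
    have e4 : t * (v i * v' j - v j * v' i) = 0 := by linear_combination -v j * e1 + v i * e2
    rcases hst with h3 | h3
    · exact h3 ((mul_eq_zero.1 e3).resolve_right hm)
    · exact h3 ((mul_eq_zero.1 e4).resolve_right hm)
  have hr : ∀ y : Fin n → Ω, σ a * bv A (s • v + t • v') y + σ b * bv B (s • v + t • v') y = 0 := by
    intro y
    rw [bv_add, bv_add, bv_smul, bv_smul, bv_smul, bv_smul]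
    linear_combination s * h1 y + t * h1' y
  have hf : σ a * qv A (s • v + t • v') + σ b * qv B (s • v + t • v') = 0 := by
    have e1 := hr (s • v + t • v')
    rw [bv_self, bv_self] at e1
    have e2 : 2 * (σ a * qv A (s • v + t • v') + σ b * qv B (s • v + t • v')) = 0 := by
      linear_combination e1
    exact (mul_eq_zero.1 e2).resolve_left two_ne_zero
  have hh : c * qv A (s • v + t • v') + d * qv B (s • v + t • v') = 0 := by
    rw [qv_lin, qv_lin]
    linear_combination h0
  have qA : qv A (s • v + t • v') = 0 := by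
    have e : (σ a * d - σ b * c) * qv A (s • v + t • v') = 0 := by
      linear_combination d * hf - σ b * hh
    exact (mul_eq_zero.1 e).resolve_left hcd
  have qB : qv B (s • v + t • v') = 0 := by
    have e : (σ a * d - σ b * c) * qv B (s • v + t • v') = 0 := by
      linear_combination σ a * hh - c * hf
    exact (mul_eq_zero.1 e).resolve_left hcd
  obtain ⟨z1, z2⟩ := hs _ hx0 qA qB (σ a) (σ b) hr
  rcases hab' with h2 | h2
  · exact h2 z1
  · exact h2 z2

/-- The polar form of a member of the pencil. -/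
noncomputable def bvB (A B : Matrix (Fin n) (Fin n) k) (a b : M) :
    LinearMap.BilinForm M (Fin n → M) :=
  LinearMap.mk₂ M (fun x y => a * bv A x y + b * bv B x y)
    (fun x y z => by rw [bv_add, bv_add]; ring)
    (fun c x y => by rw [bv_smul, bv_smul, smul_eq_mul]; ring)
    (fun x y z => by rw [bv_add_right, bv_add_right]; ring)
    (fun c x y => by rw [bv_smul_right, bv_smul_right, smul_eq_mul]; ring)

omit [CharZero k] in
theorem bvB_apply (a b : M) (x y : Fin n → M) :
    bvB A B a b x y = a * bv A x y + b * bv B x y := rfl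

/-- No member of the pencil vanishes on a subspace of codimension `2`. Proof: let `β` be the
bilinear form `a bv A + b bv B` on `M^n`; it vanishes on `U` (polarisation), so `U ≤ U^⊥` and
`2 dim U ≤ dim U + dim U^⊥ = n + dim (U ∩ rad) ≤ n + 1`
(`LinearMap.BilinForm.finrank_add_finrank_orthogonal`, `rad_le`), but `dim U ≥ n - 2`, `n ≥ 6`. -/
theorem no_sub [IsAlgClosed Ω] (hs : Sm Ω A B) (σ : M →ₐ[k] Ω) (hn : 6 ≤ n)
    (U : Submodule M (Fin n → M)) (hU : n ≤ Module.finrank M U + 2) {a b : M}
    (hab : a ≠ 0 ∨ b ≠ 0) : ∃ y ∈ U, a * qv A y + b * qv B y ≠ 0 := by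
  by_contra hcon
  push Not at hcon
  have hrefl : (bvB A B a b).IsRefl := by
    intro x y h
    rw [bvB_apply] at h ⊢
    rw [bv_comm A y x, bv_comm B y x]
    exact h
  have hU1 : U ≤ (bvB A B a b).orthogonal U := by
    intro y hy
    rw [LinearMap.BilinForm.mem_orthogonal_iff]
    intro x hx
    change bvB A B a b x y = 0
    rw [bvB_apply]
    have h1 := hcon x hx
    have h2 := hcon y hy
    have h3 := hcon (x + y) (U.add_mem hx hy)
    rw [qv_add, qv_add] at h3
    linear_combination h3 - h1 - h2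
  have h1 := LinearMap.BilinForm.finrank_add_finrank_orthogonal hrefl U
  have h2 := Submodule.finrank_mono hU1
  have h3 : Module.finrank M (U ⊓ (bvB A B a b).orthogonal ⊤ : Submodule M (Fin n → M)) ≤ 1 := by
    by_contra h4
    rw [not_le] at h4
    have : Nontrivial (U ⊓ (bvB A B a b).orthogonal ⊤ : Submodule M (Fin n → M)) :=
      Module.nontrivial_of_finrank_pos (R := M) (lt_trans Nat.zero_lt_one h4)
    obtain ⟨x, hx⟩ := exists_ne (0 : (U ⊓ (bvB A B a b).orthogonal ⊤ : Submodule M (Fin n → M)))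
    obtain ⟨y, hy⟩ := exists_linearIndependent_pair_of_one_lt_finrank h4 hx
    have hxy := hy.map' (Submodule.subtype _) (Submodule.ker_subtype _)
    have e : (Submodule.subtype (U ⊓ (bvB A B a b).orthogonal ⊤ : Submodule M (Fin n → M))) ∘
        ![x, y] = ![(x : Fin n → M), (y : Fin n → M)] := by
      funext i
      fin_cases i <;> rfl
    rw [e] at hxy
    have hr : ∀ z : (U ⊓ (bvB A B a b).orthogonal ⊤ : Submodule M (Fin n → M)),
        ∀ w : Fin n → M, a * bv A (z : Fin n → M) w + b * bv B (z : Fin n → M) w = 0 := by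
      intro z w
      have h5 := (LinearMap.BilinForm.mem_orthogonal_iff.1 z.2.2) w trivial
      change bvB A B a b w z = 0 at h5
      rw [bvB_apply, bv_comm A, bv_comm B] at h5
      exact h5
    exact rad_le hs σ hab hxy (hr x) (hr y)
  rw [Module.finrank_fin_fun] at h1
  omega

end Tq
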