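import Pool.Agent.Lib.MP_f80667_ag.Tq.LinA
import Pool.Agent.Lib.MP_f80667_ag.ZC.Orb

/-! Lines in the members of a pencil of quadrics: descent. -/

open scoped LinearAlgebra.Projectivization

namespace Tq

open ZC

universe u

section descent

variable {k : Type u} [Field k] [CharZero k] {n : ℕ} {A B : Matrix (Fin n) (Fin n) k}
  {M Ω : Type u} [Field M] [Algebra k M] [Field Ω] [Algebra k Ω]

omit [CharZero k] in
/-- `Ln` can be checked after an extension of the field. -/
theorem Ln.of_hom (f : M →ₐ[k] Ω) {p x : Fin n → M}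
    (h : Ln A B (fun i => f (p i)) (fun i => f (x i))) : Ln A B p x := by
  refine ⟨?_, ?_, ?_⟩
  · have h1 := h.ind
    rw [LinearIndependent.pair_iff] at h1 ⊢
    intro a b hab
    have h2 := h1 (f a) (f b) (by
      funext i
      have h3 := congrFun hab i
      simp only [Pi.add_apply, Pi.smul_apply, smul_eq_mul, Pi.zero_apply] at h3 ⊢
      rw [← map_mul, ← map_mul, ← map_add, h3, map_zero])
    exact ⟨(map_eq_zero f).1 h2.1, (map_eq_zero f).1 h2.2⟩
  · have h1 := h.q
    rw [Qp_hom] at h1
    exact (map_eq_zero f).1 h1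
  · have h1 := h.b
    rw [Bp_hom] at h1
    exact (map_eq_zero f).1 h1

omit [CharZero k] in
/-- The columns of the tensor. -/
theorem tn_col {H : Matrix (Fin n) (Fin n) k} (p x : Fin n → Ω) (j : Fin n) :
    (fun i => tn H p x (finProdFinEquiv (i, j))) =
      (2 * qv H x * p j - bv H p x * x j) • p + (2 * qv H p * x j - bv H p x * p j) • x := by
  funext i
  simp only [tn, sq_apply, Pi.add_apply, Pi.sub_apply, Pi.smul_apply, smul_eq_mul]
  ring

/-- **Descent.** Proof. Let `p = P.rep`, `s = t.rep`, `f` applied: `IsT` over `Ω` gives `x` over `Ω`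
with `f s = c • tn H (d f p) x`. The columns `s(·, j)` of the symmetric matrix `s` lie in the line
`⟨p, x⟩` after `f` (each column of `tn H p x` is a combination of `p` and `x`); one of them, `x'`, is
not a multiple of `p`: otherwise `s` is a multiple of `p p^T`, so (columns of `tn H p x` modulo `p`)
`qv H p • x x^T` has all columns multiples of `p`, false. `Ln A B p x'` over `M` can be checked over
`Ω` (`Qp_hom`, `Bp_hom`, injectivity of `f`; `f x' = a p + b x`, `b ≠ 0`, `Ln.lin`), and
`f (tn H p x')` is a multiple of `f s` (`tn_lin`), so `tn H p x'` is a multiple of `s` (a nonzero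
vector over `M` which becomes proportional to `f s` is proportional to `s`). -/
theorem IsT.descend [CharZero Ω] (f : M →ₐ[k] Ω) {P : ℙ M (Fin n → M)}
    {t : ℙ M (Fin (n * n) → M)}
    (h : IsT A B (mapPt (f : M →+* Ω) P).rep (mapPt (f : M →+* Ω) t)) : IsT A B P.rep t := by
  have : CharZero M := charZero_of_injective_algebraMap (algebraMap k M).injective
  obtain ⟨c, hc, hcP⟩ := mapPt_rep (f : M →+* Ω) P
  rw [hcP] at h
  have h' := h.smul (inv_ne_zero hc)
  rw [smul_smul, inv_mul_cancel₀ hc, one_smul] at h'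
  clear h hcP hc c
  set p := P.rep with hp
  set s := t.rep with hs
  have hs0 : s ≠ 0 := t.rep_nonzero
  set q : Fin n → Ω := fun i => (f : M →+* Ω) (p i) with hq
  obtain ⟨x, hL, H, hH, hHp, htn, ht⟩ := h'
  -- the tensor over `Ω`
  have h1 : ∃ μ : Ω, μ ≠ 0 ∧ (fun e => f (s e)) = μ • tn H q x := by
    rw [mapPt] at ht
    rw [Projectivization.mk_eq_mk_iff'] at ht
    obtain ⟨μ, hμ⟩ := ht
    refine ⟨μ, ?_, hμ.symm⟩
    rintro rfl
    rw [zero_smul] at hμ
    exact comp_ne (f : M →+* Ω) hs0 hμ.symm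
  obtain ⟨μ, hμ0, hμ⟩ := h1
  -- a column which is not a multiple of `p`
  have h2 : ∃ j, 2 * qv H q * x j - bv H q x * q j ≠ 0 := by
    by_contra hcon
    push Not at hcon
    have h3 := hL.ind
    rw [LinearIndependent.pair_iff] at h3
    have h4 := h3 (-bv H q x) (2 * qv H q) (by
      funext j
      simp only [Pi.add_apply, Pi.smul_apply, smul_eq_mul, Pi.zero_apply]
      linear_combination hcon j)
    exact mul_ne_zero two_ne_zero hHp h4.2
  obtain ⟨j, hj⟩ := h2
  set x' : Fin n → M := fun i => s (finProdFinEquiv (i, j)) with hx'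
  have h3 : (fun i => f (x' i)) = (μ * (2 * qv H x * q j - bv H q x * x j)) • q +
      (μ * (2 * qv H q * x j - bv H q x * q j)) • x := by
    have h4 := tn_col (H := H) q x j
    funext i
    have h5 := congrFun h4 i
    have h6 := congrFun hμ (finProdFinEquiv (i, j))
    simp only [Pi.add_apply, Pi.smul_apply, smul_eq_mul] at h5 h6 ⊢
    rw [h5] at h6
    rw [hx', h6]
    ring
  have hL' : Ln A B q (fun i => f (x' i)) := by
    have h4 := hL.lin (a := 1) (c := μ * (2 * qv H x * q j - bv H q x * x j))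
      (d := μ * (2 * qv H q * x j - bv H q x * q j)) one_ne_zero (mul_ne_zero hμ0 hj)
    rwa [one_smul, ← h3] at h4
  have hLM : Ln A B p x' := Ln.of_hom f hL'
  have hqv : qv H p ≠ 0 := by
    intro h4
    apply hHp
    have h5 : qv H q = f (qv H p) := qv_hom f p
    rw [h5, h4, map_zero]
  have htn' : tn H p x' ≠ 0 := tn_ne_zero hLM.ind hqv
  refine ⟨x', hLM, H, hH, hqv, htn', ?_⟩
  -- proportional
  have h4 : (fun e => f (tn H p x' e)) =
      ((μ * (2 * qv H q * x j - bv H q x * q j)) ^ 2 * μ⁻¹) • fun e => f (s e) := by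
    have h5 : tn H q (fun i => f (x' i)) = fun e => f (tn H p x' e) := tn_hom f p x'
    rw [← h5, h3]
    have h6 := tn_lin (H := H) 1 (μ * (2 * qv H x * q j - bv H q x * x j))
      (μ * (2 * qv H q * x j - bv H q x * q j)) q x
    rw [one_smul] at h6
    rw [h6, hμ, smul_smul]
    congr 1
    field_simp
  set ν := (μ * (2 * qv H q * x j - bv H q x * q j)) ^ 2 * μ⁻¹ with hν
  obtain ⟨e0, he0⟩ := Function.ne_iff.1 hs0
  have he0' : s e0 ≠ 0 := he0
  have hfe : f (s e0) ≠ 0 := fun h0 => he0' ((map_eq_zero f).1 h0)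
  have h5 : ν = f (tn H p x' e0 / s e0) := by
    have h6 := congrFun h4 e0
    simp only [Pi.smul_apply, smul_eq_mul] at h6
    rw [map_div₀, h6]
    field_simp
  have h6 : (tn H p x' e0 / s e0) • s = tn H p x' := by
    funext e
    refine (f : M →+* Ω).injective ?_
    have h7 := congrFun h4 e
    simp only [Pi.smul_apply, smul_eq_mul] at h7 ⊢
    change f (tn H p x' e0 / s e0 * s e) = f (tn H p x' e)
    rw [map_mul, ← h5, h7]
  have h7 : t = Projectivization.mk M s hs0 := t.mk_rep.symm
  rw [h7]
  symm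
  rw [Projectivization.mk_eq_mk_iff']
  exact ⟨_, h6⟩

end descent

end Tq
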