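import Pool.Agent.Lib.MP_f80667_ag.Tq.EndC
import Pool.Agent.Lib.MP_f80667_ag.ZC.Main

/-! Zero-cycles of degree `0`. -/

open scoped LinearAlgebra.Projectivization

namespace Tq

open ZC

universe u

variable {k : Type u} [Field k] [CharZero k] {Ω : Type u} [Field Ω] [Algebra k Ω]
  [IsAlgClosure k Ω] {n : ℕ} {A B : Matrix (Fin n) (Fin n) k}

variable {ζ : ℙ Ω (Fin n → Ω) →₀ ℤ} (hζ : ∀ (M : Type u) [Field M] [Algebra k M]
  [FiniteDimensional k M] (p : Fin n → M) (t : ℙ M (Fin (n * n) → M)), IsT A B p t →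
    PhL (trPt k Ω t) - (Module.finrank k M : ℤ) • ζ ∈ ratEq Ω (Pl A B))

include hζ

/-- Proof: by `ZC.mem_closure_tr` the cycle is a combination of traces of points of `X`. Claim: for
every `z ∈ cyc`, either there is no point of odd degree and `z - (deg z / 2) ζ ∈ ratEq` (`deg z`
even), or, for a fixed point `R` over `K` of odd degree, `z - c trPt R - d ζ ∈ ratEq` for some
integers `c`, `d` (with `deg z = c [K : k] + 2 d`). For `deg z = 0`: `c` is even,
`c trPt R = (c / 2) [K : k] ζ`, and the total is `0`. -/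
theorem mem_of_cls (hζ2 : deg Ω ζ = 2) (hs : Sm Ω A B) (hn : 6 ≤ n)
    (z : ℙ Ω (Fin n → Ω) →₀ ℤ) (hz : z ∈ cyc0 Ω (Pl A B)) : z ∈ ratEq Ω (Pl A B) := by
  have hcl : IsAlgClosed Ω := IsAlgClosure.isAlgClosed k
  obtain ⟨hzc, hz0⟩ := AddSubgroup.mem_inf.1 hz
  rw [AddMonoidHom.mem_ker] at hz0
  have hhom : ∀ i, (Pl A B i).IsHomogeneous 2 := by
    have hm : ∀ H : Matrix (Fin n) (Fin n) k, (ml H).IsHomogeneous 2 := by
      intro H
      refine MvPolynomial.IsHomogeneous.sum _ _ _ fun i _ =>
        MvPolynomial.IsHomogeneous.sum _ _ _ fun j _ => ?_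
      have h1 := ((MvPolynomial.isHomogeneous_C (Fin n) (H i j)).mul
        ((MvPolynomial.isHomogeneous_X k i).mul (MvPolynomial.isHomogeneous_X k j)))
      simpa using h1
    intro i
    fin_cases i
    · exact hm A
    · exact hm B
  by_cases hodd : ∃ (K : IntermediateField k Ω) (_ : FiniteDimensional k K) (R : ℙ K (Fin n → K)),
      Odd (Module.finrank k K) ∧ Zer (Pl A B) K R.rep
  · obtain ⟨K, hK, R, hKodd, hR⟩ := hodd
    have key : ∀ w ∈ cyc Ω (Pl A B), ∃ c d : ℤ, deg Ω w = c * Module.finrank k K + 2 * d ∧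
        w - c • trPt k Ω R - d • ζ ∈ ratEq Ω (Pl A B) := by
      intro w hw
      refine AddSubgroup.closure_induction (p := fun w _ => ∃ c d : ℤ, deg Ω w =
        c * Module.finrank k K + 2 * d ∧ w - c • trPt k Ω R - d • ζ ∈ ratEq Ω (Pl A B))
        ?_ ?_ ?_ ?_ (mem_closure_tr hhom w hw)
      · rintro t ⟨M, hM, y, hy, rfl⟩
        rcases Nat.even_or_odd (Module.finrank k M) with he | ho
        · obtain ⟨d, hd⟩ := he
          have h1 := cls_even hζ hs hn (d := d) (by rw [hd]; ring) y.rep_nonzero hy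
          rw [Projectivization.mk_rep] at h1
          refine ⟨0, d, ?_, ?_⟩
          · rw [deg_trPt, hd]
            push_cast
            ring
          · rw [zero_smul, sub_zero]
            exact h1
        · have h2 : ∃ d : ℤ, (Module.finrank k M : ℤ) = Module.finrank k K + 2 * d := by
            obtain ⟨a, ha⟩ := ho
            obtain ⟨b, hb⟩ := hKodd
            exact ⟨a - b, by rw [ha, hb]; push_cast; ring⟩
          obtain ⟨d, hd⟩ := h2
          have h1 := cls_odd hζ hs hn ho hKodd hd y.rep_nonzero hy R.rep_nonzero hR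
          rw [Projectivization.mk_rep, Projectivization.mk_rep] at h1
          refine ⟨1, d, ?_, ?_⟩
          · rw [deg_trPt, one_mul]
            exact hd
          · rw [one_smul]
            exact h1
      · exact ⟨0, 0, by simp, by simp⟩
      · rintro a b _ _ ⟨c, d, h1, h2⟩ ⟨c', d', h1', h2'⟩
        refine ⟨c + c', d + d', by rw [map_add, h1, h1']; ring, ?_⟩
        have h3 := add_mem h2 h2'
        rw [add_smul, add_smul]
        convert h3 using 1
        abel
      · rintro a _ ⟨c, d, h1, h2⟩
        refine ⟨-c, -d, by rw [map_neg, h1]; ring, ?_⟩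
        have h3 := neg_mem h2
        rw [neg_smul, neg_smul]
        convert h3 using 1
        abel
    obtain ⟨c, d, h1, h2⟩ := key z hzc
    rw [hz0] at h1
    have hceven : Even c := by
      by_contra hc
      rw [Int.not_even_iff_odd] at hc
      have h3 : Odd (c * (Module.finrank k K : ℤ)) := hc.mul (by exact_mod_cast hKodd)
      obtain ⟨e, he⟩ := h3
      omega
    obtain ⟨e, he⟩ := hceven
    have h3 := cls_two hζ hs hn R.rep_nonzero hR
    rw [Projectivization.mk_rep] at h3
    have h4 := add_mem h2 (zsmul_mem h3 e)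
    have h5 : z - c • trPt k Ω R - d • ζ + e • ((2 : ℤ) • trPt k Ω R -
        (Module.finrank k K : ℤ) • ζ) = z := by
      have h6 : d = - (e * Module.finrank k K) := by
        rw [he] at h1
        linarith
      rw [he, h6]
      module
    rwa [h5] at h4
  · push Not at hodd
    have key : ∀ w ∈ cyc Ω (Pl A B), ∃ d : ℤ, deg Ω w = 2 * d ∧
        w - d • ζ ∈ ratEq Ω (Pl A B) := by
      intro w hw
      refine AddSubgroup.closure_induction (p := fun w _ => ∃ d : ℤ, deg Ω w = 2 * d ∧
        w - d • ζ ∈ ratEq Ω (Pl A B)) ?_ ?_ ?_ ?_ (mem_closure_tr hhom w hw)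
      · rintro t ⟨M, hM, y, hy, rfl⟩
        rcases Nat.even_or_odd (Module.finrank k M) with he | ho
        · obtain ⟨d, hd⟩ := he
          have h1 := cls_even hζ hs hn (d := d) (by rw [hd]; ring) y.rep_nonzero hy
          rw [Projectivization.mk_rep] at h1
          refine ⟨d, ?_, h1⟩
          rw [deg_trPt, hd]
          push_cast
          ring
        · exact absurd hy (hodd M hM y ho)
      · exact ⟨0, by simp, by simp⟩
      · rintro a b _ _ ⟨d, h1, h2⟩ ⟨d', h1', h2'⟩
        refine ⟨d + d', by rw [map_add, h1, h1']; ring, ?_⟩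
        have h3 := add_mem h2 h2'
        rw [add_smul]
        convert h3 using 1
        abel
      · rintro a _ ⟨d, h1, h2⟩
        refine ⟨-d, by rw [map_neg, h1]; ring, ?_⟩
        have h3 := neg_mem h2
        rw [neg_smul]
        convert h3 using 1
        abel
    obtain ⟨d, h1, h2⟩ := key z hzc
    rw [hz0] at h1
    have hd : d = 0 := by omega
    rwa [hd, zero_smul, sub_zero] at h2

end Tq
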