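import Pool.Agent.Lib.MP_f80667_ag.Tq.OneB

/-! The cycles of two lines through the same point are rationally equivalent. -/

open scoped LinearAlgebra.Projectivization

namespace Tq

open ZC

universe u

variable {k : Type u} [Field k] [CharZero k] {Ω : Type u} [Field Ω] [Algebra k Ω] [IsAlgClosed Ω]
  {n : ℕ} {A B : Matrix (Fin n) (Fin n) k} {M : Type u} [Field M] [Algebra k M]
  [FiniteDimensional k M]

omit [CharZero k] [FiniteDimensional k M] in
/-- The forms on a line of `Ln` are proportional. -/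
theorem Ln.tn_comm {p x : Fin n → M} (h : Ln A B p x) {H H' : Matrix (Fin n) (Fin n) k}
    (hH : H = A ∨ H = B) (hH' : H' = A ∨ H' = B) :
    qv H' p • Tq.tn H p x = qv H p • Tq.tn H' p x := by
  rcases hH with rfl | rfl <;> rcases hH' with rfl | rfl
  · rfl
  · exact h.tn
  · exact h.tn.symm
  · rfl

omit [CharZero k] [FiniteDimensional k M] in
/-- Five variables: a vector off the line of `p` with three linear conditions. -/
theorem exists_perp (hn : 5 ≤ n) {p x x' : Fin n → M} (hp : p ≠ 0) :
    ∃ y : Fin n → M, LinearIndependent M ![p, y] ∧ Bp A B p p y = 0 ∧ Bp A B p x y = 0 ∧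
      Bp A B p x' y = 0 := by
  let L : (Fin n → M) →ₗ[M] (Fin 3 → M) :=
    { toFun := fun y => ![Bp A B p p y, Bp A B p x y, Bp A B p x' y]
      map_add' := fun y z => by
        funext i
        fin_cases i
        · exact Bp_add p p y z
        · exact Bp_add p x y z
        · exact Bp_add p x' y z
      map_smul' := fun c y => by
        funext i
        fin_cases i
        · exact Bp_smul p p y c
        · exact Bp_smul p x y c
        · exact Bp_smul p x' y c }
  have h1 : Module.finrank M (LinearMap.range L) + Module.finrank M (LinearMap.ker L) = n := by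
    rw [LinearMap.finrank_range_add_finrank_ker, Module.finrank_fin_fun]
  have h2 : Module.finrank M (LinearMap.range L) ≤ 3 := by
    have := Submodule.finrank_le (LinearMap.range L)
    rwa [Module.finrank_fin_fun] at this
  have h3 : ¬ LinearMap.ker L ≤ Submodule.span M {p} := by
    intro hle
    have h4 := Submodule.finrank_mono hle
    have h5 : Module.finrank M (Submodule.span M {p}) = 1 := finrank_span_singleton hp
    omega
  obtain ⟨y, hy, hyp⟩ := Set.not_subset.1 h3
  have hy' : L y = 0 := hy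
  refine ⟨y, ?_, congrFun hy' 0, congrFun hy' 1, congrFun hy' 2⟩
  rw [LinearIndependent.pair_iff]
  intro s t hst
  have ht : t = 0 := by
    by_contra ht
    apply hyp
    have h6 : y = (-(t⁻¹ * s)) • p := by
      have h7 : t • y = -(s • p) := by
        rw [eq_neg_iff_add_eq_zero, add_comm]
        exact hst
      calc y = t⁻¹ • t • y := by rw [smul_smul, inv_mul_cancel₀ ht, one_smul]
        _ = _ := by rw [h7, smul_neg, smul_smul, neg_smul]
    rw [h6]
    exact Submodule.smul_mem _ _ (Submodule.mem_span_singleton_self p)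
  refine ⟨?_, ht⟩
  rw [ht, zero_smul, add_zero] at hst
  exact (smul_eq_zero.1 hst).resolve_right hp

/-- Two lines in a common plane of the cone. -/
theorem one_line {p x x' : Fin n → M} (h : Ln A B p x) (h' : Ln A B p x')
    (hb : Bp A B p x x' = 0) {H : Matrix (Fin n) (Fin n) k} (hH : H = A ∨ H = B)
    (hp : qv H p ≠ 0) (ht : Tq.tn H p x ≠ 0) (ht' : Tq.tn H p x' ≠ 0) :
    PhL (trPt k Ω (Projectivization.mk M (Tq.tn H p x) ht)) -
      PhL (trPt k Ω (Projectivization.mk M (Tq.tn H p x') ht')) ∈ ratEq Ω (Pl A B) := by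
  have hz : ∀ z : Fin n → M, Bp A B p z 0 = 0 := fun z => by
    have := Bp_smul (A := A) (B := B) p z 0 (0 : M)
    rwa [zero_smul, zero_mul] at this
  have hz' : Qp A B p (0 : Fin n → M) = 0 := by
    rw [Qp]
    simp [qv]
  refine rel_conic (x₁ := 0) h.ind h'.ind h.b (hz p) h'.b h.q (hz x) ?_ ?_ h'.q hH hp ht ht'
  · rw [hz', hb, add_zero]
  · rw [Bp_comm, hz]

/-- **Two lines through the same point.** -/
theorem one (hn : 5 ≤ n) {p : Fin n → M} {t t' : ℙ M (Fin (n * n) → M)} (h : IsT A B p t)
    (h' : IsT A B p t') : PhL (trPt k Ω t) - PhL (trPt k Ω t') ∈ ratEq Ω (Pl A B) := by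
  haveI : CharZero M := charZero_of_injective_algebraMap (algebraMap k M).injective
  obtain ⟨x, hx, H, hH, hp, ht, rfl⟩ := h
  obtain ⟨x', hx', H', hH', hp', ht', rfl⟩ := h'
  have ht'' : Tq.tn H p x' ≠ 0 := tn_ne_zero hx'.ind hp
  have e : Projectivization.mk M (Tq.tn H' p x') ht' =
      Projectivization.mk M (Tq.tn H p x') ht'' := by
    rw [Projectivization.mk_eq_mk_iff']
    refine ⟨(qv H p)⁻¹ * qv H' p, ?_⟩
    rw [mul_smul, hx'.tn_comm hH hH', smul_smul, inv_mul_cancel₀ hp, one_smul]
  rw [e]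
  by_cases hD : Bp A B p x x' = 0
  · exact one_line hx hx' hD hH hp ht ht''
  obtain ⟨y, hy, hy0, hy1, hy2⟩ := exists_perp (A := A) (B := B) hn (x := x) (x' := x') hx.ne_zero
  by_cases hQ : Qp A B p y = 0
  · have hyL : Ln A B p y := ⟨hy, hQ, hy0⟩
    have hty : Tq.tn H p y ≠ 0 := tn_ne_zero hy hp
    have h1 := one_line (Ω := Ω) hx hyL hy1 hH hp ht hty
    have h2 := one_line (Ω := Ω) hyL hx' (by rw [Bp_comm, hy2]) hH hp hty ht''
    have h3 := (ratEq Ω (Pl A B)).add_mem h1 h2
    rwa [sub_add_sub_cancel] at h3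
  · set c : M := -(Qp A B p y / Bp A B p x x') with hc
    have hc0 : c ≠ 0 := by
      rw [hc]
      exact neg_ne_zero.2 (div_ne_zero hQ hD)
    have hcx : Ln A B p (c • x') := by
      have h1 := hx'.lin (a := 1) (c := 0) (d := c) one_ne_zero hc0
      rwa [one_smul, zero_smul, zero_add] at h1
    have htc : Tq.tn H p (c • x') = c ^ 2 • Tq.tn H p x' := by
      have h1 := tn_lin (H := H) 1 0 c p x'
      rwa [one_smul, zero_smul, zero_add, one_pow, one_mul] at h1
    have htc0 : Tq.tn H p (c • x') ≠ 0 := tn_ne_zero hcx.ind hp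
    have e2 : Projectivization.mk M (Tq.tn H p x') ht'' =
        Projectivization.mk M (Tq.tn H p (c • x')) htc0 := by
      rw [Projectivization.mk_eq_mk_iff']
      refine ⟨(c ^ 2)⁻¹, ?_⟩
      rw [htc, smul_smul, inv_mul_cancel₀ (pow_ne_zero 2 hc0), one_smul]
    rw [e2]
    refine rel_conic (x₁ := y) hx.ind hcx.ind hx.b hy0 hcx.b hx.q hy1 ?_ ?_ hcx.q hH hp ht htc0
    · rw [Bp_smul, hc]
      field_simp
      ring
    · rw [Bp_smul, Bp_comm, hy2, mul_zero]

end Tq
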