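import Pool.Agent.Lib.MP_f80667_ag.Tq.PtsA
import Pool.Agent.Lib.MP_f80667_ag.ZC.Orb

/-! Points over quadratic extensions. -/

open scoped LinearAlgebra.Projectivization

namespace Tq

open ZC

universe u

variable {k : Type u} [Field k] [CharZero k] {Ω : Type u} [Field Ω] [Algebra k Ω] [IsAlgClosed Ω]
  {n : ℕ} {A B : Matrix (Fin n) (Fin n) k} {M : Type u} [Field M] [Algebra k M]
  [FiniteDimensional k M]

omit [IsAlgClosed Ω] in
/-- The trace of the tensor of two points. -/
theorem phl_sq {P R : Fin n → M} (hP : P ≠ 0) (hR : R ≠ 0) (hs : sq P R ≠ 0) :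
    PhL (trPt k Ω (Projectivization.mk M (sq P R) hs)) =
      trPt k Ω (Projectivization.mk M P hP) + trPt k Ω (Projectivization.mk M R hR) := by
  have : CharZero Ω := charZero_of_injective_algebraMap (algebraMap k Ω).injective
  rw [trPt, trPt, trPt, map_sum, ← Finset.sum_add_distrib]
  apply Finset.sum_congr rfl
  intro ι _
  rw [PhL_single, one_smul, ZC.mapPt_mk, ZC.mapPt_mk, ZC.mapPt_mk]
  have h1 : (fun c => (ι : M →+* Ω) (sq P R c)) =
      sq (fun i => (ι : M →+* Ω) (P i)) (fun i => (ι : M →+* Ω) (R i)) := sq_map _ _ _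
  have hs' : sq (fun i => (ι : M →+* Ω) (P i)) (fun i => (ι : M →+* Ω) (R i)) ≠ 0 :=
    h1 ▸ comp_ne (ι : M →+* Ω) hs
  have h2 : Projectivization.mk Ω (fun c => (ι : M →+* Ω) (sq P R c)) (comp_ne _ hs) =
      Projectivization.mk Ω (sq (fun i => (ι : M →+* Ω) (P i)) (fun i => (ι : M →+* Ω) (R i)))
        hs' := by
    congr 1
  rw [h2, Ph_mk (comp_ne _ hP) (comp_ne _ hR) hs']

omit [CharZero k] [IsAlgClosed Ω] in
/-- The trace of a conjugate point. -/
theorem tr_conj (σ : M ≃ₐ[k] M) {P : Fin n → M} (hP : P ≠ 0) (hP' : (fun i => σ (P i)) ≠ 0) :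
    trPt k Ω (Projectivization.mk M (fun i => σ (P i)) hP') =
      trPt k Ω (Projectivization.mk M P hP) := by
  rw [trPt, trPt]
  apply Fintype.sum_equiv (AlgEquiv.arrowCongr σ.symm (AlgEquiv.refl : Ω ≃ₐ[k] Ω))
  intro ι
  rw [ZC.mapPt_mk, ZC.mapPt_mk]
  congr 2

/-- A point over a quadratic extension. Proof: `M'/M` is Galois (characteristic `0`), `σ` the
nontrivial automorphism, `δ ≠ 0` with `σ δ = - δ`, `P' = σ P`. `bv H P P' ∈ M`.
(i) `bv H P P' ≠ 0` for `H = A` or `B`: `p = P + σ P`, `x = δ P + σ (δ P)` are over `M`,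
`qv H p = bv H P P'`, over `M'` the tensor `tn H p x` is a nonzero multiple of `sq P P'`
(`tn_lin`, `pair_pt`), `Ph` of its image under `ι : M → Ω` is the sum of the two points of `X(Ω)`
given by the two extensions of `ι` to `M'`, so `PhL (trPt t) = trPt P`.
(ii) `bv A P P' = bv B P P' = 0`: one of `P + σ P`, `δ P + σ (δ P)` is not `0`; it is a point `P₀`
of `X` over `M`; `line_pt` over `M'` for `P`, `P₀` and `trPt_tower`. -/
theorem conj_pt {M' : Type u} [Field M'] [Algebra k M'] [Algebra M M'] [IsScalarTower k M M']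
    [FiniteDimensional k M'] (h2 : Module.finrank M M' = 2) {P : Fin n → M'} (hP : P ≠ 0)
    (hX : Zer (Pl A B) M' P) :
    (∃ (p : Fin n → M) (t : ℙ M (Fin (n * n) → M)), IsT A B p t ∧
      PhL (trPt k Ω t) = trPt k Ω (Projectivization.mk M' P hP)) ∨
    ∃ (P₀ : Fin n → M) (h0 : P₀ ≠ 0), Zer (Pl A B) M P₀ ∧
      trPt k Ω (Projectivization.mk M' P hP) - (2 : ℤ) • trPt k Ω (Projectivization.mk M P₀ h0) ∈
        ratEq Ω (Pl A B) := by
  classical
  have : CharZero Ω := charZero_of_injective_algebraMap (algebraMap k Ω).injective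
  have : CharZero M := charZero_of_injective_algebraMap (algebraMap k M).injective
  have : CharZero M' := charZero_of_injective_algebraMap (algebraMap k M').injective
  have : FiniteDimensional M M' := FiniteDimensional.right k M M'
  have : Algebra.IsQuadraticExtension M M' := ⟨h2⟩
  have hgal : IsGalois M M' := inferInstance
  -- the nontrivial automorphism
  have hcard : Nat.card (M' ≃ₐ[M] M') = 2 := by rw [IsGalois.card_aut_eq_finrank, h2]
  obtain ⟨σ, hσ1⟩ : ∃ σ : M' ≃ₐ[M] M', σ ≠ 1 := by
    have : Nontrivial (M' ≃ₐ[M] M') := by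
      rw [← Finite.one_lt_card_iff_nontrivial, hcard]
      norm_num
    exact exists_ne 1
  have hσσ : ∀ x, σ (σ x) = x := by
    have h3 : σ ^ 2 = 1 := by
      rw [← hcard]
      exact pow_card_eq_one'
    intro x
    have h4 := DFunLike.congr_fun h3 x
    rwa [pow_two] at h4
  have hall : ∀ τ : M' ≃ₐ[M] M', τ = 1 ∨ τ = σ := by
    intro τ
    by_contra hcon
    push Not at hcon
    have h3 : ({1, σ, τ} : Finset (M' ≃ₐ[M] M')).card = 3 := by
      rw [Finset.card_eq_three]
      exact ⟨1, σ, τ, hσ1.symm, hcon.1.symm, hcon.2.symm, rfl⟩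
    have h4 := Finset.card_le_univ ({1, σ, τ} : Finset (M' ≃ₐ[M] M'))
    rw [h3, ← Nat.card_eq_fintype_card, hcard] at h4
    omega
  have hfix : ∀ x : M', σ x = x → ∃ a : M, algebraMap M M' a = x := by
    intro x hx
    have h3 : x ∈ (⊥ : IntermediateField M M') := by
      rw [IsGalois.mem_bot_iff_fixed]
      intro τ
      rcases hall τ with rfl | rfl
      · rfl
      · exact hx
    exact IntermediateField.mem_bot.1 h3
  have hfix' : ∀ x : Fin n → M', (fun i => σ (x i)) = x →
      ∃ a : Fin n → M, (fun i => algebraMap M M' (a i)) = x := by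
    intro x hx
    choose a ha using fun i => hfix (x i) (congrFun hx i)
    exact ⟨a, funext ha⟩
  obtain ⟨δ, hδ0, hδ⟩ : ∃ δ : M', δ ≠ 0 ∧ σ δ = -δ := by
    obtain ⟨z, hz⟩ : ∃ z, σ z ≠ z := by
      by_contra hcon
      push Not at hcon
      exact hσ1 (AlgEquiv.ext hcon)
    refine ⟨z - σ z, sub_ne_zero.2 hz.symm, ?_⟩
    rw [map_sub, hσσ]
    ring
  let σk : M' ≃ₐ[k] M' := σ.restrictScalars k
  set Q : Fin n → M' := fun i => σk (P i) with hQ
  have hQP : (fun i => σk (Q i)) = P := funext fun i => hσσ (P i)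
  have hQ0 : Q ≠ 0 := by
    intro h
    apply hP
    rw [← hQP, h]
    funext i
    exact map_zero σ
  obtain ⟨hXA, hXB⟩ := (zer_iff A B).1 hX
  have hqQ : ∀ H : Matrix (Fin n) (Fin n) k, qv H P = 0 → qv H Q = 0 := by
    intro H h
    have h3 := qv_hom (H := H) (σk : M' →ₐ[k] M') P
    rw [h, map_zero] at h3
    exact h3
  -- the two vectors over `M`
  obtain ⟨p, hp⟩ := hfix' (P + Q) (by
    funext i
    rw [Pi.add_apply, map_add]
    change Q i + σk (Q i) = _
    rw [congrFun hQP i, add_comm])
  obtain ⟨x, hx⟩ := hfix' (δ • P - δ • Q) (by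
    funext i
    simp only [Pi.sub_apply, Pi.smul_apply, smul_eq_mul, map_sub, map_mul, hδ]
    change -δ * Q i - -δ * σk (Q i) = _
    rw [congrFun hQP i]
    ring)
  have hb : ∀ H : Matrix (Fin n) (Fin n) k, qv H P = 0 → bv H P P = 0 ∧ bv H Q Q = 0 := by
    intro H h
    rw [bv_self, bv_self, h, hqQ H h]
    simp
  have hqp : ∀ H : Matrix (Fin n) (Fin n) k, qv H P = 0 → qv H (P + Q) = bv H P Q := by
    intro H h
    rw [qv_add, h, hqQ H h]
    ring
  have hqx : ∀ H : Matrix (Fin n) (Fin n) k, qv H P = 0 →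
      qv H (δ • P - δ • Q) = -δ ^ 2 * bv H P Q := by
    intro H h
    rw [sub_eq_add_neg, ← neg_smul, qv_lin, h, hqQ H h]
    ring
  have hbx : ∀ H : Matrix (Fin n) (Fin n) k, qv H P = 0 →
      bv H (P + Q) (δ • P - δ • Q) = 0 := by
    intro H h
    rw [sub_eq_add_neg, ← neg_smul, bv_add, bv_add_right, bv_add_right, bv_smul_right,
      bv_smul_right, bv_smul_right, bv_smul_right, (hb H h).1, (hb H h).2, bv_comm H Q P]
    ring
  have hmap : ∀ (H : Matrix (Fin n) (Fin n) k) (y : Fin n → M),
      qv H (fun i => algebraMap M M' (y i)) = algebraMap M M' (qv H y) := fun H y => qv_map H y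
  have hmapb : ∀ (H : Matrix (Fin n) (Fin n) k) (y z : Fin n → M),
      bv H (fun i => algebraMap M M' (y i)) (fun i => algebraMap M M' (z i)) =
        algebraMap M M' (bv H y z) := fun H y z => bv_map H y z
  by_cases hcase : bv A P Q = 0 ∧ bv B P Q = 0
  · right
    obtain ⟨y, hy0, hyZ, hyl⟩ : ∃ y : Fin n → M, y ≠ 0 ∧ Zer (Pl A B) M y ∧
        ∀ H : Matrix (Fin n) (Fin n) k, qv H P = 0 → bv H P Q = 0 →
          bv H P (fun i => algebraMap M M' (y i)) = 0 := by
      by_cases hPQ : P + Q = 0
      · refine ⟨x, ?_, ?_, ?_⟩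
        · intro h
          have h3 : δ • P - δ • Q = 0 := by
            rw [← hx, h]
            funext i
            exact map_zero _
          have h4 : (2 * δ) • P = δ • (P + Q) + (δ • P - δ • Q) := by module
          rw [h3, hPQ, smul_zero, add_zero] at h4
          exact hP ((smul_eq_zero.1 h4).resolve_left (mul_ne_zero two_ne_zero hδ0))
        · rw [zer_iff]
          constructor
          · apply (map_eq_zero (algebraMap M M')).1
            rw [← hmap, hx, hqx A hXA, hcase.1, mul_zero]
          · apply (map_eq_zero (algebraMap M M')).1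
            rw [← hmap, hx, hqx B hXB, hcase.2, mul_zero]
        · intro H h h'
          rw [hx, sub_eq_add_neg, ← neg_smul, bv_add_right, bv_smul_right, bv_smul_right, h',
            (hb H h).1]
          ring
      · refine ⟨p, ?_, ?_, ?_⟩
        · intro h
          apply hPQ
          rw [← hp, h]
          funext i
          exact map_zero _
        · rw [zer_iff]
          constructor
          · apply (map_eq_zero (algebraMap M M')).1
            rw [← hmap, hp, hqp A hXA, hcase.1]
          · apply (map_eq_zero (algebraMap M M')).1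
            rw [← hmap, hp, hqp B hXB, hcase.2]
        · intro H h h'
          rw [hp, bv_add_right, h', (hb H h).1]
          ring
    refine ⟨y, hy0, hyZ, ?_⟩
    have hy' : (fun i => algebraMap M M' (y i)) ≠ 0 := comp_ne (algebraMap M M') hy0
    have hyZ' : Zer (Pl A B) M' (fun i => algebraMap M M' (y i)) := by
      rw [zer_iff] at hyZ ⊢
      rw [hmap, hmap, hyZ.1, hyZ.2, map_zero]
      exact ⟨rfl, rfl⟩
    have h3 := line_pt (Ω := Ω) hP hy' hX hyZ' (hyl A hXA hcase.1) (hyl B hXB hcase.2)
    have h4 := trPt_tower (k := k) (Ω := Ω) (M := M') (Projectivization.mk M y hy0)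
    rw [ZC.mapPt_mk, h2] at h4
    rw [h4] at h3
    convert h3 using 2
    rw [← natCast_zsmul]
    rfl
  · left
    obtain ⟨H, hH, hHP, hHne⟩ : ∃ H, (H = A ∨ H = B) ∧ qv H P = 0 ∧ bv H P Q ≠ 0 := by
      by_cases h3 : bv A P Q = 0
      · exact ⟨B, Or.inr rfl, hXB, fun h4 => hcase ⟨h3, h4⟩⟩
      · exact ⟨A, Or.inl rfl, hXA, h3⟩
    have hqH : qv H p ≠ 0 := by
      intro h
      apply hHne
      rw [← hqp H hHP, ← hp, hmap, h, map_zero]
    have hind' : LinearIndependent M' ![P, Q] := by
      rw [LinearIndependent.pair_iff]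
      intro s t hst
      have h3 : bv H P (s • P + t • Q) = 0 := by
        rw [hst]
        have h5 := bv_smul_right H (0 : M') P P
        rwa [zero_smul, zero_mul] at h5
      have h4 : bv H Q (s • P + t • Q) = 0 := by
        rw [hst]
        have h5 := bv_smul_right H (0 : M') Q P
        rwa [zero_smul, zero_mul] at h5
      rw [bv_add_right, bv_smul_right, bv_smul_right, (hb H hHP).1, mul_zero, zero_add] at h3
      rw [bv_add_right, bv_smul_right, bv_smul_right, (hb H hHP).2, mul_zero, add_zero,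
        bv_comm H Q P] at h4
      exact ⟨(mul_eq_zero.1 h4).resolve_right hHne, (mul_eq_zero.1 h3).resolve_right hHne⟩
    have hind : LinearIndependent M ![p, x] := by
      rw [LinearIndependent.pair_iff] at hind' ⊢
      intro s t hst
      have h3 : algebraMap M M' s • (P + Q) + algebraMap M M' t • (δ • P - δ • Q) = 0 := by
        rw [← hp, ← hx]
        funext i
        have h4 := congrArg (algebraMap M M') (congrFun hst i)
        simp only [Pi.add_apply, Pi.smul_apply, smul_eq_mul, map_add, map_mul, Pi.zero_apply,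
          map_zero] at h4 ⊢
        exact h4
      have h5 := hind' (algebraMap M M' s + algebraMap M M' t * δ)
        (algebraMap M M' s - algebraMap M M' t * δ) (by rw [← h3]; module)
      have h6 : 2 * algebraMap M M' s = 0 := by linear_combination h5.1 + h5.2
      have h7 : algebraMap M M' s = 0 := (mul_eq_zero.1 h6).resolve_left two_ne_zero
      have h8 : 2 * δ * algebraMap M M' t = 0 := by linear_combination h5.1 - h5.2
      have h9 : algebraMap M M' t = 0 :=
        (mul_eq_zero.1 h8).resolve_left (mul_ne_zero two_ne_zero hδ0)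
      exact ⟨(map_eq_zero _).1 h7, (map_eq_zero _).1 h9⟩
    have htn : tn H p x ≠ 0 := tn_ne_zero hind hqH
    have hLn : Ln A B p x := by
      refine ⟨hind, ?_, ?_⟩
      · apply (algebraMap M M').injective
        rw [Qp, map_sub, map_mul, map_mul, ← hmap, ← hmap, ← hmap, ← hmap, hp, hx, hqp A hXA,
          hqp B hXB, hqx A hXA, hqx B hXB, map_zero]
        ring
      · apply (algebraMap M M').injective
        rw [Bp, map_sub, map_mul, map_mul, ← hmap, ← hmap, ← hmapb, ← hmapb, hp, hx, hqp A hXA,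
          hqp B hXB, hbx A hXA, hbx B hXB, map_zero]
        ring
    refine ⟨p, Projectivization.mk M (tn H p x) htn, ⟨x, hLn, H, hH, hqH, htn, rfl⟩, ?_⟩
    have hsq : sq P Q ≠ 0 := sq_ne_zero hP hQ0
    have h3 : (fun c => algebraMap M M' (tn H p x c)) = (-4 * bv H P Q * δ ^ 2) • sq P Q := by
      have h4 : (fun c => algebraMap M M' (tn H p x c)) =
          tn H (fun i => algebraMap M M' (p i)) (fun i => algebraMap M M' (x i)) :=
        (tn_hom (IsScalarTower.toAlgHom k M M') p x).symm
      rw [h4, hp, hx]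
      refine sq_ext fun i j => ?_
      simp only [tn, hqx H hHP, hbx H hHP, hqp H hHP, sq_apply, Pi.add_apply, Pi.sub_apply,
        Pi.smul_apply, smul_eq_mul]
      ring
    have h4 : mapPt (algebraMap M M') (Projectivization.mk M (tn H p x) htn) =
        Projectivization.mk M' (sq P Q) hsq := by
      rw [ZC.mapPt_mk, Projectivization.mk_eq_mk_iff']
      exact ⟨_, h3.symm⟩
    have h5 := trPt_tower (k := k) (Ω := Ω) (M := M') (Projectivization.mk M (tn H p x) htn)
    rw [h4, h2] at h5
    have h6 := phl_sq (k := k) (Ω := Ω) hP hQ0 hsq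
    rw [h5, tr_conj σk hP hQ0, map_nsmul, ← two_nsmul] at h6
    exact smul_right_injective _ two_ne_zero h6

end Tq
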