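import Pool.Agent.Lib.MP_f80667_ag.Tq.LinB
import Pool.Agent.Lib.MP_f80667_ag.Qb.Nrm
import Pool.Agent.Lib.MP_f80667_ag.Cu.CycB

/-! The correspondence given by a point over a quadratic extension. -/

open scoped LinearAlgebra.Projectivization

namespace Tq

open ZC Qb Fa

universe u

/-- The value of the conjugate of a point. -/
theorem isVal_cmp {k M' Ω : Type u} [Field k] [Field M'] [Field Ω] [Algebra k M'] [Algebra k Ω]
    (σ : M' ≃ₐ[k] M') {w : Place k M' Ω} {n : ℕ} {p : Fin n → M'} {x : ℙ Ω (Fin n → Ω)}
    (h : (cmp σ w).IsVal p x) : w.IsVal (fun i => σ (p i)) x := by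
  obtain ⟨c, hc, h0, rfl⟩ := h
  have h1 : ∀ i, σ c * σ (p i) ∈ w.V := by
    intro i
    rw [← map_mul]
    exact hc i
  have h2 : ∀ i, w.res ⟨σ c * σ (p i), h1 i⟩ = (cmp σ w).res ⟨c * p i, hc i⟩ := by
    intro i
    change w.res _ = w.res _
    congr 1
    ext
    exact (map_mul _ _ _).symm
  refine ⟨σ c, h1, ?_, ?_⟩
  · intro h3
    apply h0
    funext i
    rw [← h2]
    exact congrFun h3 i
  · congr 1
    funext i
    exact (h2 i).symm

variable {k : Type u} [Field k] [CharZero k] {Ω : Type u} [Field Ω] [Algebra k Ω] [IsAlgClosed Ω]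
  {n : ℕ} {A B : Matrix (Fin n) (Fin n) k} {E : Type u} [Field E] [Algebra k E]

/-- A point over a quadratic extension. Proof: `PhL y` is the push-forward of `div e` (on `E'`)
along `a`. For a place `w` of `E` let `T_w` be the set of the places of `E'` over `w`; the sum of
the ramification indices is `2` (`Qb.sum_over` in `Qb/Over.lean`), and `T_w` is stable under
`w' ↦ w' ∘ σ` (`Qb.cmp`, `Qb.restr_cmp` in `Qb/Nrm.lean`). The value of `t` at `w` is the tensor of
the values of `a` at `w'` and at `w' ∘ σ`; the sum over all `w'` is twice the push-forward. -/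
theorem cor_quad (hE : IsFunField k E) {E' : Type u} [Field E'] [Algebra k E'] [Algebra E E']
    [IsScalarTower k E E'] [FiniteDimensional E E'] (h2 : Module.finrank E E' = 2)
    (σ : E' ≃ₐ[E] E') {e : E} (he : e ≠ 0) {t : Fin (n * n) → E} (ht : t ≠ 0) {a : Fin n → E'}
    (ha : a ≠ 0) (hX : Zer (Pl A B) E' a) {c : E'} (hc : c ≠ 0)
    (hct : (c • fun i => algebraMap E E' (t i)) = sq a fun i => σ (a i))
    {y : ℙ Ω (Fin (n * n) → Ω) →₀ ℤ} (hy : IsPush k Ω e t y) : PhL y ∈ ratEq Ω (Pl A B) := by
  classical
  have hΩ : CharZero Ω := charZero_of_injective_algebraMap (algebraMap k Ω).injective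
  have alg : Algebra.IsAlgebraic E E' := inferInstance
  have hE' : IsFunField k E' := Cu.isFunField_ext hE
  have heE : algebraMap E E' e ≠ 0 := (map_ne_zero _).2 he
  obtain ⟨S, m, x, h3, h4, rfl⟩ := hy
  choose pi hpi using fun v : Place k E Ω => exists_unif hE v
  choose T hT hTsum using fun v : Place k E Ω => sum_over (M' := E') hE hE' alg (hpi v)
  choose pi' hpi' using fun v : Place k E' Ω => exists_unif hE' v
  choose al hal using fun v : Place k E' Ω => v.exists_isVal ha
  choose ee hee using fun v : Place k E' Ω =>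
    (hpi' v).isOrd hE' ((map_ne_zero (algebraMap E E')).2 (hpi (restr alg v)).1)
  obtain ⟨τ, hτ⟩ : ∃ τ : Place k E' Ω → Place k E' Ω, τ = cmp (σ.restrictScalars k) := ⟨_, rfl⟩
  have hrτ : ∀ v', restr alg (τ v') = restr alg v' := by
    intro v'
    rw [hτ, restr_cmp]
  have hee' : ∀ v', ee (τ v') = ee v' := by
    intro v'
    have h5 := hee (τ v')
    rw [hrτ] at h5
    have h6 : v'.IsOrd (σ (algebraMap E E' (pi (restr alg v')))) (ee (τ v')) := by
      rw [hτ] at h5 ⊢
      exact cmp_ord (σ.restrictScalars k) h5
    rw [σ.commutes] at h6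
    exact h6.unique rfl (hee v')
  let S' : Finset (Place k E' Ω) := S.biUnion T
  have hS' : ∀ v', v' ∈ S' ↔ restr alg v' ∈ S := by
    intro v'
    rw [Finset.mem_biUnion]
    constructor
    · rintro ⟨v, hv, hv'⟩
      rw [hT] at hv'
      rwa [hv']
    · intro h
      exact ⟨_, h, (hT _ _).2 rfl⟩
  have hord : ∀ v', restr alg v' ∈ S →
      v'.IsOrd (algebraMap E E' e) (m (restr alg v') * ee v') := by
    intro v' hv'
    obtain ⟨l, u, hu, hu', hu0, hl⟩ := (hpi (restr alg v')).exists_ord hE he
    have h6 : (restr alg v').IsOrd e l := ⟨_, u, (hpi _).1, (hpi _).2, hu, hu', hu0, hl⟩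
    have h7 : m (restr alg v') = l := (h4 _ hv').1.unique rfl h6
    have h8 : v'.IsOrd (algebraMap E E' u) 0 := by
      refine ord_unit (hpi' v') hu ?_ ((map_ne_zero _).2 hu0)
      rw [← map_inv₀]
      exact hu'
    have h9 : v'.IsOrd (algebraMap E E' e) (0 + l * ee v') := by
      rw [hl, map_mul, map_zpow₀]
      exact ord_mul h8 (ord_zpow (hee v') l)
    rw [zero_add] at h9
    rw [h7]
    exact h9
  have hPh : ∀ v', restr alg v' ∈ S → Ph (x (restr alg v')) =
      Finsupp.single (al v') 1 + Finsupp.single (al (τ v')) 1 := by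
    intro v' hv'
    have h5 : v'.IsVal (fun i => algebraMap E E' (t i)) (x (restr alg v')) :=
      val_restr alg (h4 _ hv').2
    have h6 : v'.IsVal (sq a fun i => σ (a i)) (x (restr alg v')) := by
      rw [← hct]
      exact (isVal_smul hc).2 h5
    have h7 : v'.IsVal (fun i => σ (a i)) (al (τ v')) := by
      refine isVal_cmp (σ.restrictScalars k) ?_
      rw [← hτ]
      exact hal _
    obtain ⟨hs, h8⟩ := isVal_sq (hal v') h7
    rw [Place.IsVal.unique h6 h8, Ph_mk (al v').rep_nonzero (al (τ v')).rep_nonzero hs,
      Projectivization.mk_rep, Projectivization.mk_rep]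
  have hz : PhL (∑ w ∈ S, Finsupp.single (x w) (m w)) =
      ∑ v' ∈ S', Finsupp.single (al v') (m (restr alg v') * ee v') := by
    have hconj : ∑ v' ∈ S', Finsupp.single (al (τ v')) (m (restr alg v') * ee v') =
        ∑ v' ∈ S', Finsupp.single (al v') (m (restr alg v') * ee v') := by
      refine Finset.sum_bij' (fun v' _ => τ v')
        (fun v' _ => cmp (σ.symm.restrictScalars k) v') ?_ ?_ ?_ ?_ ?_
      · intro v' hv'
        rw [hS', hrτ]
        exact (hS' v').1 hv'
      · intro v' hv'
        rw [hS', restr_cmp]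
        exact (hS' v').1 hv'
      · intro v' _
        rw [hτ]
        refine Place.ext' (SetLike.ext fun a => ?_) fun a h h' => ?_
        · rw [mem_cmp, mem_cmp]
          change σ (σ.symm a) ∈ _ ↔ _
          rw [σ.apply_symm_apply]
        · change v'.res _ = v'.res _
          congr 1
          ext
          exact σ.apply_symm_apply a
      · intro v' _
        rw [hτ]
        refine Place.ext' (SetLike.ext fun a => ?_) fun a h h' => ?_
        · rw [mem_cmp, mem_cmp]
          change σ.symm (σ a) ∈ _ ↔ _
          rw [σ.symm_apply_apply]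
        · change v'.res _ = v'.res _
          congr 1
          ext
          exact σ.symm_apply_apply a
      · intro v' _
        rw [hrτ, hee']
    have h2z : (2 : ℤ) • PhL (∑ w ∈ S, Finsupp.single (x w) (m w)) =
        (2 : ℤ) • ∑ v' ∈ S', Finsupp.single (al v') (m (restr alg v') * ee v') := by
      calc (2 : ℤ) • PhL (∑ w ∈ S, Finsupp.single (x w) (m w))
          = ∑ w ∈ S, ∑ v' ∈ T w, (m (restr alg v') * ee v') • Ph (x (restr alg v')) := by
            rw [map_sum, Finset.smul_sum]
            refine Finset.sum_congr rfl fun w _ => ?_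
            have h5 : ∑ v' ∈ T w, ee v' = 2 := by
              have h6 := hTsum w ee fun v' hv' => ?_
              · rw [h6, h2]
                rfl
              · rw [hT] at hv'
                have h7 := hee v'
                rwa [hv'] at h7
            rw [PhL_single, ← h5, smul_smul, Finset.sum_mul, Finset.sum_smul]
            refine Finset.sum_congr rfl fun v' hv' => ?_
            rw [hT] at hv'
            rw [hv', mul_comm]
        _ = ∑ v' ∈ S', (m (restr alg v') * ee v') • Ph (x (restr alg v')) := by
            symm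
            refine Finset.sum_biUnion ?_
            intro v _ v2 _ hne
            rw [Function.onFun, Finset.disjoint_left]
            intro v' h5 h6
            rw [hT] at h5 h6
            exact hne (h5.symm.trans h6)
        _ = ∑ v' ∈ S', Finsupp.single (al v') (m (restr alg v') * ee v') +
            ∑ v' ∈ S', Finsupp.single (al (τ v')) (m (restr alg v') * ee v') := by
            rw [← Finset.sum_add_distrib]
            refine Finset.sum_congr rfl fun v' hv' => ?_
            rw [hPh v' ((hS' v').1 hv'), smul_add, Finsupp.smul_single, Finsupp.smul_single,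
              smul_eq_mul, mul_one]
        _ = (2 : ℤ) • ∑ v' ∈ S', Finsupp.single (al v') (m (restr alg v') * ee v') := by
            rw [hconj, two_zsmul]
    exact smul_right_injective _ (two_ne_zero) h2z
  rw [hz]
  refine AddSubgroup.subset_closure ⟨E', inferInstance, inferInstance, hE', algebraMap E E' e, a,
    heE, ha, hX, S', fun v' => m (restr alg v') * ee v', al, ?_, ?_, rfl⟩
  · intro v' hv'
    rw [hS'] at hv'
    have h5 := h3 _ hv'
    rw [mem_restr, mem_restr, map_inv₀] at h5
    exact h5
  · intro v' hv'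
    exact ⟨hord v' ((hS' v').1 hv'), hal v'⟩

end Tq
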