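import Pool.Agent.Lib.MP_f80667_ag.Tq.CorA
import Pool.Agent.Lib.MP_f80667_ag.Tq.CorB

/-! The correspondence given by a family of cycles of degree `2`. -/

open scoped LinearAlgebra.Projectivization

namespace Tq

open ZC

universe u

variable {k : Type u} [Field k] [CharZero k] {Ω : Type u} [Field Ω] [Algebra k Ω] [IsAlgClosed Ω]
  {n : ℕ} {A B : Matrix (Fin n) (Fin n) k} {E : Type u} [Field E] [Algebra k E]

theorem cor (hE : IsFunField k E) {e : E} (he : e ≠ 0) {p : Fin n → E} {t : Fin (n * n) → E}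
    (ht : t ≠ 0) (h : IsT A B p (Projectivization.mk E t ht))
    {y : ℙ Ω (Fin (n * n) → Ω) →₀ ℤ} (hy : IsPush k Ω e t y) : PhL y ∈ ratEq Ω (Pl A B) := by
  rcases h.split ht with ⟨a, b, ha, hb, hXa, hXb, c, hc, hct⟩ |
    ⟨E', i1, i2, i3, i4, i5, σ, a, c, h2, ha, hX, hc, hct⟩
  · refine cor_split hE he ha hb hXa hXb ?_
    rw [← hct]
    obtain ⟨S, m, x, h1, h3, h4⟩ := hy
    exact ⟨S, m, x, h1, fun w hw => ⟨(h3 w hw).1, (isVal_smul hc).2 (h3 w hw).2⟩, h4⟩
  · exact cor_quad hE h2 σ he ht ha hX hc hct hy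

end Tq
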