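import Pool.Agent.Lib.MP_f80667_ag.Tq.LinB

/-! The correspondence given by two points. -/

open scoped LinearAlgebra.Projectivization

namespace Tq

open ZC

universe u

variable {k : Type u} [Field k] [CharZero k] {Ω : Type u} [Field Ω] [Algebra k Ω] [IsAlgClosed Ω]
  {n : ℕ} {A B : Matrix (Fin n) (Fin n) k} {E : Type u} [Field E] [Algebra k E]

omit [IsAlgClosed Ω] in
/-- Two points over `E`. Proof: `y = ∑ m_w [τ_w]`; `a`, `b` have values `α_w`, `β_w`
(`Place.exists_isVal`), `τ_w = [sq α_w β_w]` by `isVal_sq` and uniqueness, `Ph τ_w = [α_w] + [β_w]`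
(`Ph_mk`, with `mk_rep`), so `PhL y` is the sum of the push-forwards of `div e` along `a` and `b`. -/
theorem cor_split (hE : IsFunField k E) {e : E} (he : e ≠ 0) {a b : Fin n → E} (ha : a ≠ 0)
    (hb : b ≠ 0) (hXa : Zer (Pl A B) E a) (hXb : Zer (Pl A B) E b)
    {y : ℙ Ω (Fin (n * n) → Ω) →₀ ℤ} (hy : IsPush k Ω e (sq a b) y) :
    PhL y ∈ ratEq Ω (Pl A B) := by
  have : CharZero Ω := charZero_of_injective_algebraMap (algebraMap k Ω).injective
  obtain ⟨S, m, x, hS, hx, rfl⟩ := hy
  choose α hα using fun w : Place k E Ω => w.exists_isVal ha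
  choose β hβ using fun w : Place k E Ω => w.exists_isVal hb
  have key : ∀ w ∈ S, Ph (x w) = Finsupp.single (α w) 1 + Finsupp.single (β w) 1 := by
    intro w hw
    obtain ⟨hs, h1⟩ := isVal_sq (hα w) (hβ w)
    rw [Place.IsVal.unique (hx w hw).2 h1,
      Ph_mk (α w).rep_nonzero (β w).rep_nonzero hs, Projectivization.mk_rep,
      Projectivization.mk_rep]
  have hsum : PhL (∑ w ∈ S, Finsupp.single (x w) (m w)) =
      (∑ w ∈ S, Finsupp.single (α w) (m w)) + ∑ w ∈ S, Finsupp.single (β w) (m w) := by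
    rw [map_sum, ← Finset.sum_add_distrib]
    apply Finset.sum_congr rfl
    intro w hw
    rw [PhL_single, key w hw, smul_add, Finsupp.smul_single, Finsupp.smul_single, smul_eq_mul,
      mul_one]
  rw [hsum]
  refine add_mem (AddSubgroup.subset_closure ?_) (AddSubgroup.subset_closure ?_)
  · exact ⟨E, inferInstance, inferInstance, hE, e, a, he, ha, hXa, S, m, α, hS,
      fun w hw => ⟨(hx w hw).1, hα w⟩, rfl⟩
  · exact ⟨E, inferInstance, inferInstance, hE, e, b, he, hb, hXb, S, m, β, hS,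
      fun w hw => ⟨(hx w hw).1, hβ w⟩, rfl⟩

end Tq
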