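import Pool.Agent.Lib.MP_f80667_ag.ZC.Conic

/-!
Intersections of two quadrics `X : A = B = 0` in `P^(n-1)`. For a point `p` not on `X` the member of
the pencil through `p` is `Qp A B p`; `Ln A B p x` says that the line through `p` and `x` lies on it.
Such a line meets `X` in a cycle of degree `2`, which is recorded by a symmetric tensor
(`tn H p x`, `H = A` or `H = B`; `sq a b` is the tensor of the pair of points `a, b`).
-/

open scoped LinearAlgebra.Projectivization

namespace Tq

open ZC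

universe u

section alg

variable {k : Type*} [Field k] {n : ℕ} (A B H : Matrix (Fin n) (Fin n) k) {R : Type*} [CommRing R]
  [Algebra k R]

/-- The member of the pencil which vanishes at `p`. -/
def Qp (p x : Fin n → R) : R := qv B p * qv A x - qv A p * qv B x

/-- Its polar form. -/
def Bp (p x y : Fin n → R) : R := qv B p * bv A x y - qv A p * bv B x y

/-- The tensor of a pair of points. -/
def sq (a b : Fin n → R) : Fin (n * n) → R := fun c =>
  a (finProdFinEquiv.symm c).1 * b (finProdFinEquiv.symm c).2 +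
    b (finProdFinEquiv.symm c).1 * a (finProdFinEquiv.symm c).2

/-- The tensor of the zeros of the quadratic form `H` on the line through `p` and `x`. -/
def tn (p x : Fin n → R) : Fin (n * n) → R :=
  qv H x • sq p p - bv H p x • sq p x + qv H p • sq x x

/-- The polynomial of a matrix. -/
noncomputable def ml : MvPolynomial (Fin n) k :=
  ∑ i, ∑ j, MvPolynomial.C (H i j) * (MvPolynomial.X i * MvPolynomial.X j)

/-- The equations of `X`. -/
noncomputable def Pl : Fin 2 → MvPolynomial (Fin n) k := ![ml A, ml B]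

theorem zer_iff {x : Fin n → R} : Zer (Pl A B) R x ↔ qv A x = 0 ∧ qv B x = 0 := by
  have hA : MvPolynomial.aeval x (ml A) = qv A x := aeval_eq_qv rfl x
  have hB : MvPolynomial.aeval x (ml B) = qv B x := aeval_eq_qv rfl x
  constructor
  · intro h
    exact ⟨hA ▸ h 0, hB ▸ h 1⟩
  · rintro ⟨h1, h2⟩ i
    fin_cases i
    · exact hA.trans h1
    · exact hB.trans h2

variable {A B H}

theorem bv_self (x : Fin n → R) : bv H x x = 2 * qv H x := by
  simp only [bv, qv, Finset.mul_sum]
  apply Finset.sum_congr rfl; intro i _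
  apply Finset.sum_congr rfl; intro j _
  ring

theorem qv_lin (a b : R) (p x : Fin n → R) :
    qv H (a • p + b • x) = a ^ 2 * qv H p + a * b * bv H p x + b ^ 2 * qv H x := by
  rw [qv_add, qv_smul, qv_smul, bv_smul, bv_smul_right]
  ring

theorem Qp_self (p : Fin n → R) : Qp A B p p = 0 := by
  rw [Qp]
  ring

theorem Bp_self (p x : Fin n → R) : Bp A B p x x = 2 * Qp A B p x := by
  rw [Bp, Qp, bv_self, bv_self]
  ring

theorem Bp_comm (p x y : Fin n → R) : Bp A B p x y = Bp A B p y x := by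
  rw [Bp, Bp, bv_comm A x y, bv_comm B x y]

theorem Bp_add (p x y z : Fin n → R) : Bp A B p x (y + z) = Bp A B p x y + Bp A B p x z := by
  rw [Bp, Bp, Bp, bv_add_right, bv_add_right]
  ring

theorem Bp_smul (p x y : Fin n → R) (c : R) : Bp A B p x (c • y) = c * Bp A B p x y := by
  rw [Bp, Bp, bv_smul_right, bv_smul_right]
  ring

theorem Qp_lin (p x y : Fin n → R) (a b : R) : Qp A B p (a • x + b • y) =
    a ^ 2 * Qp A B p x + a * b * Bp A B p x y + b ^ 2 * Qp A B p y := by
  rw [Qp, Qp, Qp, Bp, qv_lin, qv_lin]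
  ring

theorem Qp_smul (p x : Fin n → R) (c : R) : Qp A B (c • p) x = c ^ 2 * Qp A B p x := by
  rw [Qp, Qp, qv_smul, qv_smul]
  ring

theorem Bp_smul_left (p x y : Fin n → R) (c : R) : Bp A B (c • p) x y = c ^ 2 * Bp A B p x y := by
  rw [Bp, Bp, qv_smul, qv_smul]
  ring

theorem sq_apply (a b : Fin n → R) (i j : Fin n) :
    sq a b (finProdFinEquiv (i, j)) = a i * b j + b i * a j := by
  rw [sq, Equiv.symm_apply_apply]

theorem sq_ext {s t : Fin (n * n) → R}
    (h : ∀ i j, s (finProdFinEquiv (i, j)) = t (finProdFinEquiv (i, j))) : s = t := by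
  funext c
  obtain ⟨⟨i, j⟩, rfl⟩ := finProdFinEquiv.surjective c
  exact h i j

theorem sq_comm (a b : Fin n → R) : sq a b = sq b a := by
  refine sq_ext fun i j => ?_
  rw [sq_apply, sq_apply]
  ring

theorem sq_smul (c : R) (a b : Fin n → R) : sq (c • a) b = c • sq a b := by
  refine sq_ext fun i j => ?_
  simp only [sq_apply, Pi.smul_apply, smul_eq_mul]
  ring

/-- The tensor of two points of the line. -/
theorem sq_lin (a b c d : R) (p x : Fin n → R) : sq (a • p + b • x) (c • p + d • x) =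
    (a * c) • sq p p + (a * d + b * c) • sq p x + (b * d) • sq x x := by
  refine sq_ext fun i j => ?_
  simp only [sq_apply, Pi.add_apply, Pi.smul_apply, smul_eq_mul]
  ring

/-- The tensor depends on the line only, up to a factor. -/
theorem tn_lin (a c d : R) (p x : Fin n → R) :
    tn H (a • p) (c • p + d • x) = (a ^ 2 * d ^ 2) • tn H p x := by
  refine sq_ext fun i j => ?_
  have h1 : bv H (a • p) (c • p + d • x) = a * (c * (2 * qv H p)) + a * (d * bv H p x) := by
    rw [bv_smul, bv_add_right, bv_smul_right, bv_smul_right, bv_self]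
    ring
  simp only [tn, qv_lin, qv_smul, h1, sq_apply, Pi.add_apply, Pi.sub_apply, Pi.smul_apply,
    smul_eq_mul]
  ring

theorem sq_map {S : Type*} [CommRing S] (f : R →+* S) (a b : Fin n → R) :
    (fun c => f (sq a b c)) = sq (fun i => f (a i)) (fun i => f (b i)) := by
  refine sq_ext fun i j => ?_
  rw [sq_apply, sq_apply, map_add, map_mul, map_mul]

theorem qv_hom {S : Type*} [CommRing S] [Algebra k S] (f : R →ₐ[k] S) (x : Fin n → R) :
    qv H (fun i => f (x i)) = f (qv H x) := by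
  simp only [qv, map_sum, map_mul, f.commutes]

theorem bv_hom {S : Type*} [CommRing S] [Algebra k S] (f : R →ₐ[k] S) (x y : Fin n → R) :
    bv H (fun i => f (x i)) (fun i => f (y i)) = f (bv H x y) := by
  simp only [bv, map_sum, map_mul, map_add, f.commutes]

theorem Qp_hom {S : Type*} [CommRing S] [Algebra k S] (f : R →ₐ[k] S) (p x : Fin n → R) :
    Qp A B (fun i => f (p i)) (fun i => f (x i)) = f (Qp A B p x) := by
  simp only [Qp, qv_hom, map_sub, map_mul]

theorem Bp_hom {S : Type*} [CommRing S] [Algebra k S] (f : R →ₐ[k] S) (p x y : Fin n → R) :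
    Bp A B (fun i => f (p i)) (fun i => f (x i)) (fun i => f (y i)) = f (Bp A B p x y) := by
  simp only [Bp, qv_hom, bv_hom, map_sub, map_mul]

theorem tn_hom {S : Type*} [CommRing S] [Algebra k S] (f : R →ₐ[k] S) (p x : Fin n → R) :
    tn H (fun i => f (p i)) (fun i => f (x i)) = fun c => f (tn H p x c) := by
  refine sq_ext fun i j => ?_
  simp only [tn, qv_hom, bv_hom, sq_apply, Pi.add_apply, Pi.sub_apply, Pi.smul_apply, smul_eq_mul,
    map_add, map_sub, map_mul]

end alg

section field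

variable {k : Type*} [Field k] {n : ℕ} (A B : Matrix (Fin n) (Fin n) k) {E : Type*} [Field E]
  [Algebra k E]

/-- The line through `p` and `x` lies on the member of the pencil which vanishes at `p`. -/
structure Ln (p x : Fin n → E) : Prop where
  ind : LinearIndependent E ![p, x]
  q : Qp A B p x = 0
  b : Bp A B p p x = 0

/-- `t` is the tensor of the intersection of `X` and a line of `Ln` through `p`, `p` not on `X`. -/
def IsT (p : Fin n → E) (t : ℙ E (Fin (n * n) → E)) : Prop :=
  ∃ x, Ln A B p x ∧ ∃ H, (H = A ∨ H = B) ∧ qv H p ≠ 0 ∧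
    ∃ h : tn H p x ≠ 0, t = Projectivization.mk E (tn H p x) h

variable {A B}

theorem IsT.ne {p : Fin n → E} {t : ℙ E (Fin (n * n) → E)} (h : IsT A B p t) :
    ¬ Zer (Pl A B) E p := by
  obtain ⟨x, -, H, hH, hp, -⟩ := h
  rw [zer_iff]
  rintro ⟨h1, h2⟩
  rcases hH with rfl | rfl
  · exact hp h1
  · exact hp h2

theorem Ln.ne_zero {p x : Fin n → E} (h : Ln A B p x) : p ≠ 0 := h.ind.ne_zero 0

theorem Ln.ne_zero' {p x : Fin n → E} (h : Ln A B p x) : x ≠ 0 := h.ind.ne_zero 1

/-- A change of the second point, and of the vector `p`. -/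
theorem Ln.lin {p x : Fin n → E} (h : Ln A B p x) {a c d : E} (ha : a ≠ 0) (hd : d ≠ 0) :
    Ln A B (a • p) (c • p + d • x) := by
  refine ⟨?_, ?_, ?_⟩
  · have h1 := h.ind
    rw [LinearIndependent.pair_iff] at h1 ⊢
    intro s t hst
    have h2 := h1 (s * a + t * c) (t * d) (by rw [← hst]; module)
    have ht : t = 0 := (mul_eq_zero.1 h2.2).resolve_right hd
    refine ⟨?_, ht⟩
    have h3 := h2.1
    rw [ht, zero_mul, add_zero] at h3
    exact (mul_eq_zero.1 h3).resolve_right ha
  · rw [Qp_smul, Qp_lin, Qp_self, h.b, h.q]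
    ring
  · rw [Bp_smul_left, Bp_add, Bp_smul, Bp_smul, Bp_comm, Bp_smul, Bp_self, Qp_self, Bp_comm,
      Bp_smul, Bp_comm, h.b]
    ring

/-- The two forms on the line are proportional. -/
theorem Ln.tn {p x : Fin n → E} (h : Ln A B p x) : qv B p • tn A p x = qv A p • tn B p x := by
  have h1 : qv B p * qv A x = qv A p * qv B x := sub_eq_zero.1 h.q
  have h2 : qv B p * bv A p x = qv A p * bv B p x := sub_eq_zero.1 h.b
  refine sq_ext fun i j => ?_
  simp only [Tq.tn, Pi.add_apply, Pi.sub_apply, Pi.smul_apply, smul_eq_mul]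
  linear_combination (sq p p (finProdFinEquiv (i, j))) * h1 -
    (sq p x (finProdFinEquiv (i, j))) * h2

theorem exists_minor {p x : Fin n → E} (h : LinearIndependent E ![p, x]) :
    ∃ i j, p i * x j ≠ p j * x i := by
  by_contra hcon
  push Not at hcon
  have hp : p ≠ 0 := h.ne_zero 0
  obtain ⟨i, hi⟩ := Function.ne_iff.1 hp
  have hi' : p i ≠ 0 := hi
  rw [LinearIndependent.pair_iff] at h
  have h1 := h (x i) (- p i) (by
    funext j
    simp only [Pi.add_apply, Pi.smul_apply, smul_eq_mul, Pi.zero_apply]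
    linear_combination -hcon i j)
  exact hi' (neg_eq_zero.1 h1.2)

/-- The tensor does not vanish. -/
theorem tn_ne_zero [CharZero E] {H : Matrix (Fin n) (Fin n) k} {p x : Fin n → E}
    (h : LinearIndependent E ![p, x]) (hp : qv H p ≠ 0) : Tq.tn H p x ≠ 0 := by
  intro h0
  obtain ⟨i, j, hij⟩ := exists_minor h
  have key : ∀ a b : Fin n, Tq.tn H p x (finProdFinEquiv (a, b)) = 0 := fun a b => by rw [h0]; rfl
  have h1 := key i i
  have h2 := key i j
  have h3 := key j j
  simp only [Tq.tn, sq_apply, Pi.add_apply, Pi.sub_apply, Pi.smul_apply, smul_eq_mul] at h1 h2 h3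
  have h4 : 2 * qv H p * (p i * x j - p j * x i) ^ 2 = 0 := by
    linear_combination (p j) ^ 2 * h1 - 2 * p i * p j * h2 + (p i) ^ 2 * h3
  have h5 : (2 : E) ≠ 0 := two_ne_zero
  exact (mul_ne_zero (mul_ne_zero h5 hp) (pow_ne_zero 2 (sub_ne_zero.2 hij))) h4

end field

section ph

variable {Ω : Type u} [Field Ω] {n : ℕ}

open Classical in
/-- The cycle of degree `2` of a tensor. -/
noncomputable def Ph (t : ℙ Ω (Fin (n * n) → Ω)) : ℙ Ω (Fin n → Ω) →₀ ℤ :=
  if h : ∃ c : ℙ Ω (Fin n → Ω) × ℙ Ω (Fin n → Ω), ∃ hs : sq c.1.rep c.2.rep ≠ 0,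
      t = Projectivization.mk Ω (sq c.1.rep c.2.rep) hs then
    Finsupp.single h.choose.1 1 + Finsupp.single h.choose.2 1 else 0

/-- The linear extension of `Ph`. -/
noncomputable def PhL : (ℙ Ω (Fin (n * n) → Ω) →₀ ℤ) →+ (ℙ Ω (Fin n → Ω) →₀ ℤ) :=
  Finsupp.liftAddHom fun t => (zmultiplesHom _) (Ph t)

theorem PhL_single (t : ℙ Ω (Fin (n * n) → Ω)) (m : ℤ) :
    PhL (Finsupp.single t m) = m • Ph t := by
  rw [PhL, Finsupp.liftAddHom_apply_single]
  rfl

theorem sq_ne_zero [CharZero Ω] {a b : Fin n → Ω} (ha : a ≠ 0) (hb : b ≠ 0) : sq a b ≠ 0 := by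
  intro h0
  have key : ∀ i j : Fin n, a i * b j + b i * a j = 0 := fun i j => by
    rw [← sq_apply, h0]
    rfl
  obtain ⟨i, hi⟩ := Function.ne_iff.1 ha
  have hi' : a i ≠ 0 := hi
  have h1 : b i = 0 := by
    have h2 := key i i
    have h3 : (2 * a i) * b i = 0 := by linear_combination h2
    exact (mul_eq_zero.1 h3).resolve_left (mul_ne_zero two_ne_zero hi')
  apply hb
  funext j
  have h2 := key i j
  rw [h1, zero_mul, add_zero] at h2
  exact (mul_eq_zero.1 h2).resolve_left hi'

/-- Points with the same tensor. -/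
theorem sq_inj_aux [CharZero Ω] {a b c d : Fin n → Ω} (ha : a ≠ 0) (hc : c ≠ 0)
    (hd : d ≠ 0) (h : sq a b = sq c d) :
    (∃ t : Ω, t ≠ 0 ∧ a = t • c) ∨ (∃ t : Ω, t ≠ 0 ∧ a = t • d) := by
  have key : ∀ i j : Fin n, a i * b j + b i * a j = c i * d j + d i * c j := fun i j => by
    rw [← sq_apply, ← sq_apply, h]
  -- proportional if all minors vanish
  have prop : ∀ e : Fin n → Ω, e ≠ 0 → (∀ i j, a i * e j = a j * e i) →
      ∃ t : Ω, t ≠ 0 ∧ a = t • e := by
    intro e he hm
    obtain ⟨i, hi⟩ := Function.ne_iff.1 he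
    have hi' : e i ≠ 0 := hi
    have h1 : a = (a i / e i) • e := by
      funext j
      rw [Pi.smul_apply, smul_eq_mul]
      field_simp
      linear_combination -hm i j
    refine ⟨a i / e i, ?_, h1⟩
    intro h0
    rw [h0, zero_smul] at h1
    exact ha h1
  by_contra hcon
  push Not at hcon
  have h1 : ∃ i j, a i * c j ≠ a j * c i := by
    by_contra h2
    push Not at h2
    obtain ⟨t, ht, hat⟩ := prop c hc h2
    exact hcon.1 t ht hat
  have h2 : ∃ i j, a i * d j ≠ a j * d i := by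
    by_contra h2
    push Not at h2
    obtain ⟨t, ht, hat⟩ := prop d hd h2
    exact hcon.2 t ht hat
  obtain ⟨i, j, hij⟩ := h1
  obtain ⟨i', j', hij'⟩ := h2
  -- the functional `y_t = (a i e_j - a j e_i) + t (a i' e_j' - a j' e_i')` kills `a`
  let F : (Fin n → Ω) → Ω := fun e => a i * e j - a j * e i
  let G : (Fin n → Ω) → Ω := fun e => a i' * e j' - a j' * e i'
  have hF : F c ≠ 0 := sub_ne_zero.2 hij
  have hG : G d ≠ 0 := sub_ne_zero.2 hij'
  have e1 : F c * F d = 0 := by
    have e := fun u v => key u v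
    have : 2 * (F c * F d) = 0 := by
      simp only [F]
      linear_combination (-(a j) ^ 2) * e i i + 2 * (a i * a j) * e i j - (a i) ^ 2 * e j j
    exact (mul_eq_zero.1 this).resolve_left two_ne_zero
  have e2 : G c * G d = 0 := by
    have e := fun u v => key u v
    have : 2 * (G c * G d) = 0 := by
      simp only [G]
      linear_combination (-(a j') ^ 2) * e i' i' + 2 * (a i' * a j') * e i' j' -
        (a i') ^ 2 * e j' j'
    exact (mul_eq_zero.1 this).resolve_left two_ne_zero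
  have e3 : F c * G d + F d * G c = 0 := by
    have e := fun u v => key u v
    simp only [F, G]
    linear_combination (-(a i * a i')) * e j j' + (a i * a j') * e j i' + (a j * a i') * e i j' -
      (a j * a j') * e i i'
  have hFd : F d = 0 := (mul_eq_zero.1 e1).resolve_left hF
  rw [hFd, zero_mul, add_zero] at e3
  exact (mul_ne_zero hF hG) e3

theorem sq_inj [CharZero Ω] {a b c d : Fin n → Ω} (ha : a ≠ 0) (hc : c ≠ 0)
    (hd : d ≠ 0) {s : Ω} (hs : s ≠ 0) (h : sq a b = s • sq c d) :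
    ((∃ t : Ω, t ≠ 0 ∧ a = t • c) ∧ (∃ t : Ω, t ≠ 0 ∧ b = t • d)) ∨
      ((∃ t : Ω, t ≠ 0 ∧ a = t • d) ∧ (∃ t : Ω, t ≠ 0 ∧ b = t • c)) := by
  have hsc : s • c ≠ 0 := smul_ne_zero hs hc
  rw [← sq_smul] at h
  have cancel : ∀ {e x y : Fin n → Ω}, e ≠ 0 → sq e x = sq e y → x = y := by
    intro e x y he hxy
    by_contra hne
    apply sq_ne_zero he (sub_ne_zero.2 hne)
    refine sq_ext fun i j => ?_
    have h1 := congrFun hxy (finProdFinEquiv (i, j))
    rw [sq_apply, sq_apply] at h1
    rw [sq_apply, Pi.sub_apply, Pi.sub_apply, Pi.zero_apply]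
    linear_combination h1
  rcases sq_inj_aux ha hsc hd h with ⟨t, ht, hat⟩ | ⟨t, ht, hat⟩
  · left
    refine ⟨⟨t * s, mul_ne_zero ht hs, by rw [hat, smul_smul]⟩, ?_⟩
    rw [hat, sq_smul, sq_comm, ← sq_smul, sq_comm] at h
    have h1 := cancel hsc h
    refine ⟨t⁻¹, inv_ne_zero ht, ?_⟩
    rw [← h1, smul_smul, inv_mul_cancel₀ ht, one_smul]
  · right
    refine ⟨⟨t, ht, hat⟩, ?_⟩
    rw [hat, sq_smul, sq_comm, ← sq_smul, sq_comm, sq_comm (s • c)] at h
    have h1 := cancel hd h
    refine ⟨t⁻¹ * s, mul_ne_zero (inv_ne_zero ht) hs, ?_⟩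
    rw [mul_smul, ← h1, smul_smul, inv_mul_cancel₀ ht, one_smul]

theorem Ph_mk [CharZero Ω] {a b : Fin n → Ω} (ha : a ≠ 0) (hb : b ≠ 0) (hs : sq a b ≠ 0) :
    Ph (Projectivization.mk Ω (sq a b) hs) = Finsupp.single (Projectivization.mk Ω a ha) 1 +
      Finsupp.single (Projectivization.mk Ω b hb) 1 := by
  have hex : ∃ c : ℙ Ω (Fin n → Ω) × ℙ Ω (Fin n → Ω), ∃ hs' : sq c.1.rep c.2.rep ≠ 0,
      Projectivization.mk Ω (sq a b) hs = Projectivization.mk Ω (sq c.1.rep c.2.rep) hs' := by
    obtain ⟨α, hα⟩ := Projectivization.exists_smul_eq_mk_rep Ω a ha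
    obtain ⟨β, hβ⟩ := Projectivization.exists_smul_eq_mk_rep Ω b hb
    refine ⟨(Projectivization.mk Ω a ha, Projectivization.mk Ω b hb),
      sq_ne_zero (Projectivization.rep_nonzero _) (Projectivization.rep_nonzero _), ?_⟩
    symm
    rw [Projectivization.mk_eq_mk_iff']
    refine ⟨(α : Ω) * (β : Ω), ?_⟩
    dsimp only
    rw [← hα, ← hβ, Units.smul_def, Units.smul_def, sq_smul, sq_comm a ((β : Ω) • b), sq_smul,
      smul_smul, sq_comm b a]
  rw [Ph, dif_pos hex]
  obtain ⟨hs', hc⟩ := hex.choose_spec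
  set c := hex.choose with hcdef
  rw [Projectivization.mk_eq_mk_iff'] at hc
  obtain ⟨s, hsc⟩ := hc
  have hs0 : s ≠ 0 := by
    rintro rfl
    rw [zero_smul] at hsc
    exact hs hsc.symm
  have mk_of : ∀ {e : Fin n → Ω} (he : e ≠ 0) {x : ℙ Ω (Fin n → Ω)} (_ : ∃ t : Ω, t ≠ 0 ∧
      e = t • x.rep), Projectivization.mk Ω e he = x := by
    rintro e he x ⟨t, _, hte⟩
    conv_rhs => rw [← x.mk_rep]
    rw [Projectivization.mk_eq_mk_iff']
    exact ⟨t, hte.symm⟩
  rcases sq_inj ha c.1.rep_nonzero c.2.rep_nonzero hs0 hsc.symm with ⟨h1, h2⟩ | ⟨h1, h2⟩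
  · rw [mk_of ha h1, mk_of hb h2]
  · rw [mk_of ha h1, mk_of hb h2, add_comm]

end ph

end Tq
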