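import Pool.Agent.Lib.MP_f80667_ag.Tq.EndA
import Pool.Agent.Lib.MP_f80667_ag.Tq.EndD

/-! Zero-cycles of degree `0` on a smooth intersection of two quadrics in at least seven variables. -/

open scoped LinearAlgebra.Projectivization

namespace Tq

open ZC

universe u

variable {k : Type u} [Field k] [CharZero k] {Ω : Type u} [Field Ω] [Algebra k Ω]
  [IsAlgClosure k Ω] {n : ℕ} {A B : Matrix (Fin n) (Fin n) k}

theorem F1_two (hG : ∀ s, Good k Ω s) (hs : Sm Ω A B) (hn : 7 ≤ n) :
    Subsingleton (F1 Ω (Pl A B)) := by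
  obtain ⟨ζ, h2, hζ⟩ := exists_zeta hG hs hn
  rw [QuotientAddGroup.subsingleton_iff, AddSubgroup.addSubgroupOf_eq_top]
  intro z hz
  exact mem_of_cls hζ h2 hs (by omega) z hz

end Tq
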