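import Pool.Agent.Lib.MP_f80667_ag.Tq.TwoB

/-! Lines through different points. -/

open scoped LinearAlgebra.Projectivization

namespace Tq

open ZC

universe u

variable {k : Type u} [Field k] [CharZero k] {Ω : Type u} [Field Ω] [Algebra k Ω]
  [IsAlgClosure k Ω] {n : ℕ} {A B : Matrix (Fin n) (Fin n) k}

variable {M : Type u} [Field M] [Algebra k M] [FiniteDimensional k M]

theorem two (hG : ∀ s, Good k Ω s) (hI : Is1 k) (hn : 7 ≤ n) {p p' : Fin n → M}
    (hav : Av Ω A B p p') {t t' : ℙ M (Fin (n * n) → M)} (h : IsT A B p t) (h' : IsT A B p' t') :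
    PhL (trPt k Ω t) - PhL (trPt k Ω t') ∈ ratEq Ω (Pl A B) := by
  obtain ⟨d, -, h1⟩ := two_aux hG hI hn hav h h' 1 one_ne_zero
  by_cases hd : d = 0
  · obtain ⟨d', hc, h2⟩ := two_aux hG hI hn hav h h' 2 two_ne_zero
    obtain ⟨d'', hc', h3⟩ := two_aux hG hI hn hav h h' d' (by
      rintro rfl
      rw [Nat.coprime_zero_left] at hc
      omega)
    have hc1 : IsCoprime (d'' : ℤ) (d' : ℤ) := Nat.isCoprime_iff_coprime.2 hc'
    obtain ⟨a, b, hab⟩ := hc1
    have h4 := add_mem (zsmul_mem h3 a) (zsmul_mem h2 b)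
    rw [← natCast_zsmul, ← natCast_zsmul, smul_smul, smul_smul, ← add_smul, hab, one_smul] at h4
    exact h4
  · obtain ⟨d', hc', h2⟩ := two_aux hG hI hn hav h h' d hd
    have hc1 : IsCoprime (d' : ℤ) (d : ℤ) := Nat.isCoprime_iff_coprime.2 hc'
    obtain ⟨a, b, hab⟩ := hc1
    have h4 := add_mem (zsmul_mem h2 a) (zsmul_mem h1 b)
    rw [← natCast_zsmul, ← natCast_zsmul, smul_smul, smul_smul, ← add_smul, hab, one_smul] at h4
    exact h4

end Tq
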