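import Pool.Agent.Lib.MP_f80667_ag.Tq.GenB
import Pool.Agent.Lib.MP_f80667_ag.Tq.Two

/-! All lines give the same class. -/

open scoped LinearAlgebra.Projectivization

namespace Tq

open ZC

universe u

variable {k : Type u} [Field k] [CharZero k] {Ω : Type u} [Field Ω] [Algebra k Ω]
  {n : ℕ} {A B : Matrix (Fin n) (Fin n) k}

variable {M : Type u} [Field M] [Algebra k M]

/-- **All lines give the same class.** -/
theorem all_T [IsAlgClosure k Ω] [FiniteDimensional k M] (hG : ∀ s, Good k Ω s) (hI : Is1 k)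
    (hs : Sm Ω A B) (hn : 7 ≤ n) {p p' : Fin n → M} {t t' : ℙ M (Fin (n * n) → M)}
    (h : IsT A B p t) (h' : IsT A B p' t') :
    PhL (trPt k Ω t) - PhL (trPt k Ω t') ∈ ratEq Ω (Pl A B) := by
  have hcl : IsAlgClosed Ω := IsAlgClosure.isAlgClosed k
  have halg : Algebra.IsAlgebraic k M := inferInstance
  obtain ⟨y, h1, h2, h3⟩ := exists_avoid hs (IsAlgClosed.lift : M →ₐ[k] Ω) (by omega) h.ne h'.ne
  obtain ⟨t₁, ht₁⟩ := exists_T hn (hI M inferInstance) h3
  have h4 := add_mem (two hG hI hn h1 h ht₁) (two hG hI hn h2.symm ht₁ h')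
  rwa [sub_add_sub_cancel] at h4

end Tq
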