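import Pool.Agent.Lib.MP_f80667_ag.Qb.Lift

/-! The norm trick: points over an extension of the function field of the base. -/

open scoped LinearAlgebra.Projectivization

namespace Tq

open ZC

universe u

/-- **The norm trick.** Proof: `Qb.fam_lift1` (`Qb/Lift.lean`), case `mem`, verbatim with `φ` in
place of `(A 0).map (aeval w)` and a general `t`: `lift_push` resp. `lift_two` hold for every point
`t` over the extension field. -/
theorem norm_lift {k : Type u} [Field k] [CharZero k] {Ω : Type u} [Field Ω] [Algebra k Ω]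
    [IsAlgClosure k Ω] (hG : ∀ s, Good k Ω s) {E : Type u} [Field E] [Algebra k E]
    (hE : IsFunField k E) {g : E} (hg : g ≠ 0) {m : ℕ} (hm : 5 ≤ m)
    (φ : Matrix (Fin m) (Fin m) E) {N : ℕ} {w : Fin N → E} (hw : w ≠ 0)
    {z : ℙ Ω (Fin N → Ω) →₀ ℤ} (hz : IsPush k Ω g w z) (D : ℕ) (hD : D ≠ 0) :
    ∃ d : ℕ, d.Coprime D ∧ ∃ (E' : Type u) (_ : Field E') (_ : Algebra k E') (_ : Algebra E E')
      (_ : IsScalarTower k E E'), IsFunField k E' ∧ ∃ (θ : E') (v : Fin m → E'), θ ≠ 0 ∧ v ≠ 0 ∧
      Qb.qf (φ.map (algebraMap E E')) v = 0 ∧ ∀ (q : ℕ) (t : Fin q → E'), t ≠ 0 →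
        ∃ y : Pt2 Ω N q →₀ ℤ, pushW Ω y = d • z ∧
          IsPush2 k Ω θ (fun i => algebraMap E E' (w i)) t y := by
  have hcl : IsAlgClosed Ω := IsAlgClosure.isAlgClosed k
  obtain ⟨t, ht, hfin⟩ := id hE
  have hd0 : Module.finrank (IntermediateField.adjoin k {t}) E ≠ 0 := Module.finrank_pos.ne'
  obtain ⟨s, hs⟩ := Fa.claimH.{u, u, u, u} hE (r := 1) (n := m + m) (by omega)
    fun _ => Qb.dm φ g
  obtain ⟨L, hL, hc, hI⟩ := hG s (D * Module.finrank (IntermediateField.adjoin k {t}) E)
    (mul_ne_zero hD hd0)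
  obtain ⟨M, _, _, _, _, _, _, θ, f, hf1, hf2, hf3, hf4, hf5, hf6, hf7, hf8⟩ :=
    Fa.exists_comp ht L (Nat.Coprime.coprime_mul_left_right hc)
  have H : Fa.Cst k E f θ :=
    { monic := hf1
      sep := hf2
      root := by rw [hf3]; exact minpoly.aeval E θ
      min := by
        intro p hp hp0
        by_contra hne
        have h1 := minpoly.degree_le_of_ne_zero E θ hne hp0
        rw [← hf3, Polynomial.degree_map] at h1
        exact absurd hp (not_lt.2 h1)
      gen := by
        intro y
        have h1 : y ∈ Algebra.adjoin E {θ} := by rw [hf5]; trivial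
        rw [Algebra.adjoin_singleton_eq_range_aeval] at h1
        exact h1 }
  have hcop : f.natDegree.Coprime D := by
    rw [hf6]
    exact Nat.Coprime.coprime_mul_right_right hc
  have hgM : algebraMap E M g ≠ 0 := (map_ne_zero _).2 hg
  have hwM : (fun i => algebraMap E M (w i)) ≠ 0 := comp_ne (algebraMap E M) hw
  have hchar : CharZero M := charZero_of_injective_algebraMap (algebraMap k M).injective
  obtain ⟨x, hx, hxz⟩ := hs L M hf7 (hI L hL le_rfl s le_rfl)
  have h0 := hxz 0
  rw [Qb.dm_apply, sub_eq_zero] at h0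
  have hab : (fun i => x (Fin.castAdd m i)) ≠ 0 ∨ (fun i => x (Fin.natAdd m i)) ≠ 0 := by
    by_contra hcon
    push Not at hcon
    apply hx
    funext i
    refine Fin.addCases (fun i => ?_) (fun i => ?_) i
    · exact congrFun hcon.1 i
    · exact congrFun hcon.2 i
  rcases Qb.exists_norm (by omega) _ hab hgM h0 with ⟨p, hp, hpz⟩ |
    ⟨M', i1, i2, i3, σ, τ, p, h1, h2, h3, h4⟩
  · refine ⟨f.natDegree, hcop, M, inferInstance, inferInstance, inferInstance, inferInstance, hf8,
      algebraMap E M g, p, hgM, hp, hpz, fun q t ht => ?_⟩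
    exact lift_push H hE hz ht
  · let i4 : Algebra k M' := ((algebraMap M M').comp (algebraMap k M)).toAlgebra
    have i5 : IsScalarTower k M M' := IsScalarTower.of_algebraMap_eq fun a => rfl
    let i6 : Algebra E M' := ((algebraMap M M').comp (algebraMap E M)).toAlgebra
    have i7 : IsScalarTower E M M' := IsScalarTower.of_algebraMap_eq fun a => rfl
    have i8 : IsScalarTower k E M' := IsScalarTower.of_algebraMap_eq fun a => by
      change algebraMap M M' (algebraMap k M a) = algebraMap M M' (algebraMap E M (algebraMap k E a))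
      rw [← IsScalarTower.algebraMap_apply k E M]
    have hM' : IsFunField k M' := Cu.isFunField_ext hf8
    have hPM := Fa.isPush_ext (M := M) H hE hz
    have hτ : τ ≠ 0 := by
      rintro rfl
      rw [zero_mul] at h4
      exact hgM ((map_eq_zero _).1 h4.symm)
    refine ⟨f.natDegree, hcop, M', i1, i4, i6, i8, hM', τ, p, hτ, h2, ?_, fun q t ht => ?_⟩
    · have h5 : φ.map (algebraMap E M') = (φ.map (algebraMap E M)).map (algebraMap M M') := by
        ext a b
        rfl
      rw [h5]
      exact h3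
    · exact Qb.lift_two (N := N) (n := q) hf8 hM' h1 σ hgM h4 hwM hPM ht

end Tq
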