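import Pool.Agent.Lib.MP_f80667_ag.Tq.LinA
import Pool.Agent.Lib.MP_f80667_ag.Tq.NormA

/-! The quadratic form on the lines through a point; lines exist. -/

open scoped LinearAlgebra.Projectivization

namespace Tq

open ZC

universe u

/-- A nonzero vector of a hyperplane (or a bigger space) is the first of `n - 1` independent
vectors of it; with a left inverse matrix. -/
theorem frame_mat {E : Type*} [Field E] {n : ℕ} (hn : 2 ≤ n) {p : Fin n → E} (hp : p ≠ 0)
    (ℓ : (Fin n → E) →ₗ[E] E) (hℓ : ℓ p = 0) :
    ∃ (C : Matrix (Fin n) (Fin (n - 2)) E) (g : Fin n → E) (G : Matrix (Fin (n - 2)) (Fin n) E),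
      (∀ j, ℓ (fun i => C i j) = 0) ∧ (∑ i, g i * p i = 1) ∧ (∀ j, ∑ i, g i * C i j = 0) ∧
      (∀ a, ∑ i, G a i * p i = 0) ∧ ∀ a j, ∑ i, G a i * C i j = if a = j then 1 else 0 := by
  classical
  let W := LinearMap.ker ℓ
  have hW : n - 1 ≤ Module.finrank E W := by
    have h1 := LinearMap.finrank_range_add_finrank_ker ℓ
    have h2 : Module.finrank E (LinearMap.range ℓ) ≤ 1 := by
      have := Submodule.finrank_le (LinearMap.range ℓ)
      simpa using this
    have h3 : Module.finrank E (Fin n → E) = n := by simp
    have h4 : Module.finrank E W = Module.finrank E (LinearMap.ker ℓ) := rfl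
    omega
  let w : W := ⟨p, hℓ⟩
  have hw : w ≠ 0 := by
    intro h
    exact hp (congrArg Subtype.val h)
  have hspan : Module.finrank E (Submodule.span E {w}) = 1 := finrank_span_singleton hw
  have hq : n - 2 ≤ Module.finrank E (W ⧸ Submodule.span E {w}) := by
    have h1 := Submodule.finrank_quotient_add_finrank (Submodule.span E {w})
    omega
  let b := Module.finBasis E (W ⧸ Submodule.span E {w})
  let c : Fin (n - 2) → W := fun j => (b (Fin.castLE hq j)).out
  have hc : LinearIndependent E
      ((Submodule.Quotient.mk (p := Submodule.span E {w})) ∘ c) := by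
    have h1 : (Submodule.Quotient.mk (p := Submodule.span E {w})) ∘ c =
        fun j => b (Fin.castLE hq j) := by
      funext j
      exact Quotient.out_eq _
    rw [h1]
    exact b.linearIndependent.comp _ (Fin.castLE_injective hq)
  let ww : Unit → Submodule.span E {w} := fun _ => ⟨w, Submodule.mem_span_singleton_self w⟩
  have hww : LinearIndependent E ww := by
    refine (Fintype.linearIndependent_iff (R := E) (v := ww)).2 ?_
    intro g hg i
    have h1 : g i • w = 0 := by
      have h2 := congrArg Subtype.val hg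
      simpa [ww] using h2
    exact (smul_eq_zero.1 h1).resolve_right hw
  have hLI := LinearIndependent.sumElim_of_quotient hww c hc
  let v : Unit ⊕ Fin (n - 2) → (Fin n → E) := fun s => (Sum.elim (fun u => ((ww u : Submodule.span E {w}) : W)) c s : W)
  have hv : LinearIndependent E v := hLI.map' W.subtype (Submodule.ker_subtype _)
  have hv1 : v (Sum.inl ()) = p := rfl
  let F : (Unit ⊕ Fin (n - 2) → E) →ₗ[E] (Fin n → E) := Fintype.linearCombination E v
  have hF : LinearMap.ker F = ⊥ := by
    rw [LinearMap.ker_eq_bot']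
    intro m hm
    rw [Fintype.linearCombination_apply] at hm
    funext j
    exact Fintype.linearIndependent_iff.1 hv m hm j
  obtain ⟨H, hH⟩ := LinearMap.exists_leftInverse_of_injective F hF
  have key : ∀ s t, H (v s) t = if t = s then 1 else 0 := by
    intro s t
    have h1 : F (Pi.single s 1) = v s := by
      rw [Fintype.linearCombination_apply_single, one_smul]
    rw [← h1]
    have h2 := LinearMap.congr_fun hH (Pi.single s 1)
    rw [LinearMap.comp_apply, LinearMap.id_apply] at h2
    rw [h2, Pi.single_apply]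
  have hsum : ∀ (x : Fin n → E) t, ∑ i, H (Pi.single i 1) t * x i = H x t := by
    intro x t
    conv_rhs => rw [← Finset.univ_sum_single x]
    rw [map_sum, Finset.sum_apply]
    apply Finset.sum_congr rfl
    intro i _
    have : (Pi.single i (x i) : Fin n → E) = x i • Pi.single i 1 := by
      rw [← Pi.single_smul, smul_eq_mul, mul_one]
    rw [this, map_smul, Pi.smul_apply, smul_eq_mul, mul_comm]
  refine ⟨Matrix.of fun i j => v (Sum.inr j) i, fun i => H (Pi.single i 1) (Sum.inl ()),
    Matrix.of fun a i => H (Pi.single i 1) (Sum.inr a), ?_, ?_, ?_, ?_, ?_⟩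
  · intro j
    exact (c j).2
  · rw [hsum, ← hv1, key, if_pos rfl]
  · intro j
    simp only [Matrix.of_apply]
    rw [hsum (v (Sum.inr j)), key, if_neg (by simp)]
  · intro a
    simp only [Matrix.of_apply]
    rw [hsum, ← hv1, key, if_neg (by simp)]
  · intro a j
    simp only [Matrix.of_apply]
    rw [hsum (v (Sum.inr j)), key]
    simp

/-- The quadratic form on `p^⊥ / p`. Proof. `p` is in its orthogonal space
`W = {x | Bp A B p p x = 0}` (dimension `≥ n - 1`; if it is larger take a subspace of dimension
`n - 1` which contains `p`): choose a basis of it `p, c_1, ..., c_(n-2)`, `C` = the matrix of the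
`c_j`, `φ = ` the matrix of `v ↦ Qp A B p (C v)`. Over `E'`: a combination of `p` and `C v`
is a combination of independent vectors (minors, or `LinearIndependent` after base change), `Bp` is
linear. -/
theorem exists_form {k : Type u} [Field k] [CharZero k] {n : ℕ} (hn : 2 ≤ n)
    {A B : Matrix (Fin n) (Fin n) k} {E : Type u} [Field E] [Algebra k E] {p : Fin n → E}
    (hp : p ≠ 0) :
    ∃ (C : Matrix (Fin n) (Fin (n - 2)) E) (φ : Matrix (Fin (n - 2)) (Fin (n - 2)) E),
      ∀ (E' : Type u) [Field E'] [Algebra k E'] [Algebra E E'] [IsScalarTower k E E']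
        (v : Fin (n - 2) → E'), v ≠ 0 → Qb.qf (φ.map (algebraMap E E')) v = 0 →
        Ln A B (fun i => algebraMap E E' (p i)) (fun i => ∑ j, algebraMap E E' (C i j) * v j) := by
  classical
  let ℓ : (Fin n → E) →ₗ[E] E :=
    { toFun := fun x => Bp A B p p x
      map_add' := fun x y => Bp_add p p x y
      map_smul' := fun c x => Bp_smul p p x c }
  have hℓ : ℓ p = 0 := by
    change Bp A B p p p = 0
    rw [Bp_self, Qp_self, mul_zero]
  obtain ⟨C, g, G, hC, hgp, hgC, hGp, hGC⟩ := frame_mat hn hp ℓ hℓ
  let AE : Matrix (Fin n) (Fin n) E := A.map (algebraMap k E)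
  let BE : Matrix (Fin n) (Fin n) E := B.map (algebraMap k E)
  refine ⟨C, qv B p • (C.transpose * AE * C) - qv A p • (C.transpose * BE * C), ?_⟩
  intro E' _ _ _ _ v hv hq
  set f := algebraMap E E' with hf
  have hx : (fun i => ∑ j, f (C i j) * v j) = (C.map f).mulVec v := rfl
  have hfk : ∀ a : k, f (algebraMap k E a) = algebraMap k E' a := fun a =>
    (IsScalarTower.algebraMap_apply k E E' a).symm
  have hqp : ∀ H : Matrix (Fin n) (Fin n) k,
      qv H (fun i => f (p i)) = f (qv H p) := fun H => qv_map (A := H) p
  refine ⟨?_, ?_, ?_⟩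
  · rw [LinearIndependent.pair_iff]
    intro s t hst
    have h1 : ∀ i, s * f (p i) + t * ∑ j, f (C i j) * v j = 0 := fun i => congrFun hst i
    have h2 : ∀ γ : Fin n → E, s * f (∑ i, γ i * p i) +
        t * ∑ j, f (∑ i, γ i * C i j) * v j = 0 := by
      intro γ
      have h3 : ∑ i, f (γ i) * (s * f (p i) + t * ∑ j, f (C i j) * v j) = 0 := by
        apply Finset.sum_eq_zero
        intro i _
        rw [h1, mul_zero]
      rw [← h3]
      simp only [map_sum, map_mul, mul_add, Finset.sum_add_distrib, Finset.mul_sum,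
        Finset.sum_mul]
      congr 1
      · apply Finset.sum_congr rfl; intro i _
        ring
      · rw [Finset.sum_comm]
        apply Finset.sum_congr rfl; intro i _
        apply Finset.sum_congr rfl; intro j _
        ring
    have hs : s = 0 := by
      have h3 := h2 g
      simpa [hgp, hgC] using h3
    refine ⟨hs, ?_⟩
    by_contra ht
    apply hv
    funext a
    have h3 := h2 (fun i => G a i)
    rw [hs, zero_mul, zero_add] at h3
    have h4 := (mul_eq_zero.1 h3).resolve_left ht
    simpa [hGC] using h4
  · rw [hx, Qp, hqp, hqp, qv_eq_dot A (Matrix.mulVec _ v), qv_eq_dot B (Matrix.mulVec _ v),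
      dot_conj, dot_conj]
    rw [Qb.qf] at hq
    rw [← hq]
    have hA : A.map (algebraMap k E') = AE.map f := by
      ext i j
      exact (hfk _).symm
    have hB : B.map (algebraMap k E') = BE.map f := by
      ext i j
      exact (hfk _).symm
    have hm : (qv B p • (C.transpose * AE * C) - qv A p • (C.transpose * BE * C)).map f =
        f (qv B p) • ((C.map f).transpose * AE.map f * C.map f) -
          f (qv A p) • ((C.map f).transpose * BE.map f * C.map f) := by
      rw [Matrix.map_sub _ (map_sub f), ← Matrix.transpose_map, ← Matrix.map_mul,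
        ← Matrix.map_mul, ← Matrix.map_mul, ← Matrix.map_mul]
      congr 1 <;>
      · ext i j
        simp only [Matrix.map_apply, Matrix.smul_apply, smul_eq_mul, map_mul]
    rw [hA, hB, hm, Matrix.sub_mulVec, Matrix.smul_mulVec, Matrix.smul_mulVec, dotProduct_sub,
      dotProduct_smul, dotProduct_smul, smul_eq_mul, smul_eq_mul]
  · have h1 : ∀ x : Fin (n - 2) → E', (∀ H : Matrix (Fin n) (Fin n) k,
        bv H (fun i => f (p i)) (fun i => ∑ j, f (C i j) * x j) =
          ∑ j, f (bv H p (fun i => C i j)) * x j) := by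
      intro x H
      simp only [bv, map_sum, map_mul, map_add, hfk, Finset.sum_mul]
      symm
      rw [Finset.sum_comm]
      apply Finset.sum_congr rfl; intro i _
      rw [Finset.sum_comm]
      apply Finset.sum_congr rfl; intro l _
      rw [Finset.mul_sum, ← Finset.sum_add_distrib, Finset.mul_sum]
      apply Finset.sum_congr rfl; intro j _
      ring
    rw [Bp, hqp, hqp, h1 v, h1 v, Finset.mul_sum, Finset.mul_sum, ← Finset.sum_sub_distrib]
    apply Finset.sum_eq_zero
    intro j _
    have h2 : Bp A B p p (fun i => C i j) = 0 := hC j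
    rw [Bp] at h2
    have h3 := congrArg f h2
    rw [map_sub, map_mul, map_mul, map_zero] at h3
    linear_combination (v j) * h3

/-- Lines exist. Proof: `exists_form` with `E' = E = M` and `Iso M 1` (`n - 2 ≥ 5`); `H = A` or `B`
with `qv H p ≠ 0`; `tn_ne_zero`. -/
theorem exists_T {k : Type u} [Field k] [CharZero k] {n : ℕ} (hn : 7 ≤ n)
    {A B : Matrix (Fin n) (Fin n) k} {M : Type u} [Field M] [Algebra k M] (hI : Iso M 1)
    {p : Fin n → M} (hp : ¬ Zer (Pl A B) M p) : ∃ t, IsT A B p t := by
  have hp0 : p ≠ 0 := by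
    rintro rfl
    apply hp
    rw [zer_iff]
    simp [qv]
  obtain ⟨C, φ, hφ⟩ := exists_form (A := A) (B := B) (by omega : 2 ≤ n) hp0
  obtain ⟨v, hv, hv0⟩ := hI (n - 2) (by omega) (fun _ => φ)
  have h1 := hφ M v hv (by
    have := hv0 0
    rw [Qb.qf]
    simpa using this)
  have h2 : (fun i => algebraMap M M (p i)) = p := rfl
  rw [h2] at h1
  have : CharZero M := charZero_of_injective_algebraMap (algebraMap k M).injective
  have h3 : ∃ H, (H = A ∨ H = B) ∧ qv H p ≠ 0 := by
    by_contra hcon
    push Not at hcon
    apply hp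
    rw [zer_iff]
    exact ⟨hcon A (Or.inl rfl), hcon B (Or.inr rfl)⟩
  obtain ⟨H, hH, hHp⟩ := h3
  exact ⟨_, _, h1, H, hH, hHp, tn_ne_zero h1.ind hHp, rfl⟩

end Tq
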