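import Pool.Agent.Lib.MP_f80667_ag.Tq.One
import Pool.Agent.Lib.MP_f80667_ag.Tq.Norm
import Pool.Agent.Lib.MP_f80667_ag.Tq.LinC
import Pool.Agent.Lib.MP_f80667_ag.Fa.Ker

/-! Invariant cycles of pairs (point, line through it). -/

open scoped LinearAlgebra.Projectivization

namespace Tq

open ZC

universe u

variable {k : Type u} [Field k] [CharZero k] {Ω : Type u} [Field Ω] [Algebra k Ω]
  [IsAlgClosure k Ω] {n : ℕ} {A B : Matrix (Fin n) (Fin n) k}

/-- All finite extensions of `k` are isotropic for one form in five variables. -/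
def Is1 (k : Type u) [Field k] : Prop :=
  ∀ (M : Type u) [Field M] [Algebra k M], FiniteDimensional k M → Iso M 1

/-- The trace of a point over a larger field. -/
theorem trPt_incl {K M : IntermediateField k Ω} [FiniteDimensional k K] [FiniteDimensional k M]
    (hle : K ≤ M) : ∃ e : ℕ, Module.finrank k M = e * Module.finrank k K ∧
      ∀ (N : ℕ) (y : ℙ K (Fin N → K)), trPt k Ω
        (mapPt ((IntermediateField.inclusion hle : K →ₐ[k] M) : K →+* M) y) =
          e • trPt k Ω y := by
  have : IsAlgClosed Ω := IsAlgClosure.isAlgClosed k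
  let _ : Algebra K M := (IntermediateField.inclusion hle).toRingHom.toAlgebra
  have _ : IsScalarTower k K M := IsScalarTower.of_algebraMap_eq (fun x => rfl)
  have h2 := Module.finrank_mul_finrank k K M
  refine ⟨Module.finrank K M, by rw [← h2, mul_comm], fun N y => ?_⟩
  exact trPt_tower (k := k) (Ω := Ω) (M := M) y

omit [IsAlgClosure k Ω] in
/-- Descent from `Ω` to a finite extension. -/
theorem isT_down (M : IntermediateField k Ω) {P : ℙ M (Fin n → M)} {t : ℙ M (Fin (n * n) → M)}
    (h : IsT A B (mapPt (algebraMap M Ω) P).rep (mapPt (algebraMap M Ω) t)) :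
    IsT A B P.rep t := by
  have : CharZero Ω := charZero_of_injective_algebraMap (algebraMap k Ω).injective
  exact IsT.descend M.val h

/-- The statement for one generator. -/
theorem fib_gen (hn : 5 ≤ n) (M : IntermediateField k Ω)
    [FiniteDimensional k M] (w : ℙ M (Fin n → M)) (t : ℙ M (Fin (n * n) → M))
    (ht : IsT A B w.rep t) (M' : IntermediateField k Ω) [FiniteDimensional k M'] (hle : M ≤ M')
    (x : ℙ M' (Fin (n * n) → M'))
    (hx : IsT A B (mapPt (algebraMap M Ω) w).rep (mapPt (algebraMap M' Ω) x)) :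
    ∃ e : ℤ, ZCOrb.degF (ZCTr.tr2 k Ω
        (mapPt ((IntermediateField.inclusion hle : M →ₐ[k] M') : M →+* M') w) x) =
          e * Module.finrank k M ∧
      PhL (Finsupp.mapDomain Prod.snd (ZCTr.tr2 k Ω
        (mapPt ((IntermediateField.inclusion hle : M →ₐ[k] M') : M →+* M') w) x)) -
          e • PhL (trPt k Ω t) ∈ ratEq Ω (Pl A B) := by
  have hcl : IsAlgClosed Ω := IsAlgClosure.isAlgClosed k
  obtain ⟨e, he, htr⟩ := trPt_incl (k := k) (Ω := Ω) hle
  set w' := mapPt ((IntermediateField.inclusion hle : M →ₐ[k] M') : M →+* M') w with hw'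
  refine ⟨e, ?_, ?_⟩
  · have h1 : ZCOrb.degF (ZCTr.tr2 k Ω w' x) = Module.finrank k M' := ZCTr.deg_trG _
    rw [h1, he, Nat.cast_mul]
  · have h1 : Finsupp.mapDomain Prod.snd (ZCTr.tr2 k Ω w' x) = trPt k Ω x :=
      ZCTr.mapDomain_trG _ _
    have h2 : IsT A B w'.rep x := by
      apply isT_down M'
      have h3 : mapPt (algebraMap M' Ω) w' = mapPt (algebraMap M Ω) w := by
        rw [hw', mapPt_comp]
        rfl
      rw [h3]
      exact hx
    have h3 : IsT A B w'.rep
        (mapPt ((IntermediateField.inclusion hle : M →ₐ[k] M') : M →+* M') t) := by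
      obtain ⟨c, hc, hcP⟩ := mapPt_rep
        ((IntermediateField.inclusion hle : M →ₐ[k] M') : M →+* M') w
      rw [hw', hcP]
      exact (ht.hom (IntermediateField.inclusion hle)).smul hc
    have h4 := one (k := k) (Ω := Ω) hn h2 h3
    rw [htr, map_nsmul] at h4
    rw [h1, natCast_zsmul]
    exact h4

/-- The traces over the points of one fibre. Proof: `closure_induction`; for a generator
`tr2 (w', x)` (over `M' ⊇ M`, `(w, x)` in the support) `e = [M' : M]` (`fin_dvd`), `IsT A B w.rep x`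
over `M'` by `IsT.descend` (`h` for the pair), `t` base changed to `M'` (`IsT.hom`, `IsT.smul`),
`one` over `M'` and `trPt_tower` (`trPt (t over M') = [M' : M] trPt t`).
The image of `tr2` under the second projection is `trPt`. -/
theorem fib_aux (hn : 5 ≤ n) (z : Pt2 Ω n (n * n) →₀ ℤ)
    (h : ∀ y ∈ z.support, IsT A B y.1.rep y.2) (M : IntermediateField k Ω)
    [FiniteDimensional k M] (w : ℙ M (Fin n → M)) (t : ℙ M (Fin (n * n) → M))
    (ht : IsT A B w.rep t) (s : Pt2 Ω n (n * n) →₀ ℤ) (hs : s ∈ ZCOrb.fibTr z M w) :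
    ∃ e : ℤ, ZCOrb.degF s = e * Module.finrank k M ∧
      PhL (Finsupp.mapDomain Prod.snd s) - e • PhL (trPt k Ω t) ∈ ratEq Ω (Pl A B) := by
  refine AddSubgroup.closure_induction
    (p := fun s _ => ∃ e : ℤ, ZCOrb.degF s = e * Module.finrank k M ∧
      PhL (Finsupp.mapDomain Prod.snd s) - e • PhL (trPt k Ω t) ∈ ratEq Ω (Pl A B)) ?_ ?_ ?_ ?_ hs
  · rintro s ⟨M', hM', hle, x, hx, rfl⟩
    exact fib_gen hn M w t ht M' hle x (h _ hx)
  · exact ⟨0, by simp, by simp⟩
  · rintro a b _ _ ⟨e, he, ha⟩ ⟨e', he', hb⟩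
    refine ⟨e + e', by rw [map_add, he, he', add_mul], ?_⟩
    have h3 := add_mem ha hb
    rw [Finsupp.mapDomain_add, map_add, add_smul]
    convert h3 using 1
    abel
  · rintro a _ ⟨e, he, ha⟩
    refine ⟨-e, by rw [map_neg, he, neg_mul], ?_⟩
    have h1 := neg_mem ha
    have h2 : Finsupp.mapDomain Prod.snd (-a) = - Finsupp.mapDomain Prod.snd a :=
      map_neg (Finsupp.mapDomain.addMonoidHom Prod.snd) a
    rw [h2, map_neg, neg_smul]
    convert h1 using 1
    abel

/-- An invariant cycle of pairs (point, tensor of a line through it) whose image in the first factor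
is `0` gives a cycle rationally equivalent to `0`. Proof: `ZCOrb.fibre_mem` for the preimage of
`ratEq` under `PhL ∘ mapDomain snd`, and `fib_aux`; `t` exists by `exists_T` (`Is1`), if the fibre is
not empty (if `fibTr` has no generator there is nothing to show: then `s = 0`). -/
theorem fib_mem (hI : Is1 k) (hn : 7 ≤ n) (z : Pt2 Ω n (n * n) →₀ ℤ)
    (hz : ∀ (σ : Ω ≃ₐ[k] Ω) (x : Pt2 Ω n (n * n)), z (mapPt2 (σ : Ω →+* Ω) x) = z x)
    (h : ∀ y ∈ z.support, IsT A B y.1.rep y.2) (hp : pushW Ω z = 0) :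
    PhL (Finsupp.mapDomain Prod.snd z) ∈ ratEq Ω (Pl A B) := by
  have hcl : IsAlgClosed Ω := IsAlgClosure.isAlgClosed k
  have halg : Algebra.IsAlgebraic k Ω := IsAlgClosure.isAlgebraic
  have key := ZCOrb.fibre_mem (k := k) ((ratEq (k := k) Ω (Pl A B)).comap
    ((PhL (Ω := Ω) (n := n)).comp (Finsupp.mapDomain.addMonoidHom
      (Prod.snd : Pt2 Ω n (n * n) → ℙ Ω (Fin (n * n) → Ω))))) z (fun σ y => hz σ y) hp ?_
  · exact key
  intro M hM w s hs hdeg
  rw [AddSubgroup.mem_comap]
  change PhL (Finsupp.mapDomain Prod.snd s) ∈ ratEq Ω (Pl A B)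
  by_cases hw : ∃ y ∈ z.support, y.1 = mapPt (algebraMap M Ω) w
  · obtain ⟨y, hy, hyw⟩ := hw
    have h1 := (h y hy).ne
    rw [hyw] at h1
    have h2 : ¬ Zer (Pl A B) M w.rep := by
      intro h3
      apply h1
      obtain ⟨c, hc, hcP⟩ := mapPt_rep (algebraMap M Ω) w
      rw [hcP]
      rw [zer_iff] at h3 ⊢
      have h4 : ∀ H : Matrix (Fin n) (Fin n) k, qv H w.rep = 0 →
          qv H (c • fun i => (algebraMap M Ω) (w.rep i)) = 0 := by
        intro H hH
        rw [qv_smul]
        have h5 : qv H (fun i => (algebraMap M Ω) (w.rep i)) = algebraMap M Ω (qv H w.rep) :=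
          qv_hom M.val w.rep
        rw [h5, hH, map_zero, mul_zero]
      exact ⟨h4 A h3.1, h4 B h3.2⟩
    obtain ⟨t, ht⟩ := exists_T hn (hI M hM) h2
    obtain ⟨e, he, hmem⟩ := fib_aux (by omega : 5 ≤ n) z h M w t ht s hs
    have hKpos : (Module.finrank k M : ℤ) ≠ 0 := Nat.cast_ne_zero.mpr Module.finrank_pos.ne'
    have he0 : e = 0 := by
      rw [hdeg] at he
      exact (mul_eq_zero.mp he.symm).resolve_right hKpos
    subst he0
    rwa [zero_smul, sub_zero] at hmem
  · have hle : ZCOrb.fibTr z M w ≤ ⊥ := by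
      refine (AddSubgroup.closure_le _).mpr ?_
      rintro t ⟨M', hM', hle, x, hx, rfl⟩
      exact absurd ⟨_, hx, rfl⟩ hw
    have hs0 : s = 0 := AddSubgroup.mem_bot.1 (hle hs)
    rw [hs0, Finsupp.mapDomain_zero, map_zero]
    exact zero_mem _

end Tq
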