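import Pool.Agent.Lib.MP_f80667_ag.Tq.SylB
import Pool.Agent.Lib.MP_f80667_ag.Tq.TwoA

/-! Quadratic forms in five variables over the finite extensions of a good field. -/

namespace Tq

open ZC

universe u

/-- Proof: let `M/k` be finite, `M ⊆ Ω` (an `IntermediateField`). `Good k Ω 1` with
`N = 2 [M : k]`: `L/k` of degree prime to `2 [M : k]` such that the compositum `M L` (finite over
`k`, contains `L`) satisfies `Iso`; `[M L : M] = [L : k]` is odd
(`IntermediateField.LinearDisjoint.of_finrank_coprime`, as in `ZC/Main.lean`), so `springer`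
applies. For an abstract `M`: `M` is isomorphic over `k` to an `IntermediateField` (image of an
embedding `M → Ω`), transport the zero. -/
theorem is1 {k : Type u} [Field k] [CharZero k] {Ω : Type u} [Field Ω] [Algebra k Ω]
    [IsAlgClosure k Ω] (hG : Good k Ω 1) : Is1 k := by
  intro M _ _ hM m hm A
  have : IsAlgClosed Ω := IsAlgClosure.isAlgClosed k
  have : Algebra.IsAlgebraic k M := Algebra.IsAlgebraic.of_finite k M
  let e : M →ₐ[k] Ω := IsAlgClosed.lift
  let K : IntermediateField k Ω := e.fieldRange
  let eK : M ≃ₐ[k] K := AlgEquiv.ofInjectiveField e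
  have hK : FiniteDimensional k K := eK.toLinearEquiv.finiteDimensional
  have hKpos : Module.finrank k K ≠ 0 := Module.finrank_pos.ne'
  obtain ⟨L, hL, hcop, hI⟩ := hG (2 * Module.finrank k K) (mul_ne_zero two_ne_zero hKpos)
  have hcop2 : (Module.finrank k L).Coprime 2 := hcop.coprime_dvd_right ⟨_, rfl⟩
  have hcopK : (Module.finrank k L).Coprime (Module.finrank k K) :=
    hcop.coprime_dvd_right ⟨2, mul_comm _ _⟩
  have hodd : Odd (Module.finrank k L) := by
    rw [← Nat.not_even_iff_odd, even_iff_two_dvd]
    intro h
    have h1 := Nat.Coprime.eq_one_of_dvd hcop2.symm h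
    norm_num at h1
  have hfd : FiniteDimensional k (K ⊔ L : IntermediateField k Ω) :=
    IntermediateField.finiteDimensional_sup K L
  have hfin : Module.finrank k (K ⊔ L : IntermediateField k Ω) =
      Module.finrank k K * Module.finrank k L :=
    (IntermediateField.LinearDisjoint.of_finrank_coprime hcopK.symm).finrank_sup
  have hKM : K ≤ K ⊔ L := le_sup_left
  let _ : Algebra K (K ⊔ L : IntermediateField k Ω) :=
    (IntermediateField.inclusion hKM).toRingHom.toAlgebra
  have htow : IsScalarTower k K (K ⊔ L : IntermediateField k Ω) :=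
    IsScalarTower.of_algebraMap_eq fun x => ((IntermediateField.inclusion hKM).commutes x).symm
  have hfd' : FiniteDimensional K (K ⊔ L : IntermediateField k Ω) :=
    FiniteDimensional.right k K _
  have hKL : Module.finrank K (K ⊔ L : IntermediateField k Ω) = Module.finrank k L := by
    have h1 := Module.finrank_mul_finrank k K (K ⊔ L : IntermediateField k Ω)
    rw [hfin] at h1
    exact Nat.eq_of_mul_eq_mul_left (Nat.pos_of_ne_zero hKpos) h1
  obtain ⟨x, hx, h0⟩ := hI (K ⊔ L) hfd le_sup_right 1 le_rfl m hm
    (fun i => ((A i).map eK).map (algebraMap K (K ⊔ L : IntermediateField k Ω)))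
  obtain ⟨y, hy, h1⟩ := springer (F := K) (by rw [hKL]; exact hodd) ((A 0).map eK) hx (h0 0)
  refine ⟨fun i => eK.symm (y i), ?_, ?_⟩
  · intro h
    apply hy
    funext i
    have h2 := congrFun h i
    rw [Pi.zero_apply, map_eq_zero_iff _ eK.symm.injective] at h2
    exact h2
  · intro i
    have hi : i = 0 := Subsingleton.elim _ _
    subst hi
    apply eK.injective
    rw [map_zero, ← h1]
    simp only [dotProduct, Matrix.mulVec, Matrix.map_apply, map_sum, map_mul,
      AlgEquiv.apply_symm_apply]

end Tq
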