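import Pool.Agent.Lib.MP_f80667_ag.Tq.Pts
import Pool.Agent.Lib.MP_f80667_ag.Tq.Gen
import Pool.Agent.Lib.MP_f80667_ag.Tq.Iso

/-! The class of the lines. -/

open scoped LinearAlgebra.Projectivization

namespace Tq

open ZC

universe u

variable {k : Type u} [Field k] [CharZero k] {Ω : Type u} [Field Ω] [Algebra k Ω]
  [IsAlgClosure k Ω] {n : ℕ} {A B : Matrix (Fin n) (Fin n) k}

/-- There is a point which is not on `X`. -/
theorem exists_np (hs : Sm Ω A B) (hn : 6 ≤ n) : ∃ p : Fin n → k, ¬ Zer (Pl A B) k p := by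
  have hcl : IsAlgClosed Ω := IsAlgClosure.isAlgClosed k
  obtain ⟨y, -, hy⟩ := no_sub (M := k) hs (Algebra.ofId k Ω) hn ⊤ (by simp) (a := 1) (b := 0)
    (Or.inl one_ne_zero)
  refine ⟨y, fun h => hy ?_⟩
  rw [((zer_iff A B).1 h).1, ((zer_iff A B).1 h).2]
  simp

/-- The class of the lines: a cycle `ζ` of degree `2` over `k` with, for every finite extension `M`
of `k` and every line over `M`, `PhL (trPt t) = [M : k] ζ` modulo rational equivalence. Proof:
`ζ = PhL (trPt t₀)`, `t₀` over `k` (`exists_np`, `exists_T`); base change to `M` (`IsT.hom`,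
`trPt_tower`), `all_T`. Degree: `IsT.roots` over `Ω`, `trPt` over `k` has one term. -/
theorem exists_zeta (hG : ∀ s, Good k Ω s) (hs : Sm Ω A B) (hn : 7 ≤ n) :
    ∃ ζ : ℙ Ω (Fin n → Ω) →₀ ℤ, deg Ω ζ = 2 ∧
      ∀ (M : Type u) [Field M] [Algebra k M] [FiniteDimensional k M] (p : Fin n → M)
        (t : ℙ M (Fin (n * n) → M)), IsT A B p t →
        PhL (trPt k Ω t) - (Module.finrank k M : ℤ) • ζ ∈ ratEq Ω (Pl A B) := by
  have hcl : IsAlgClosed Ω := IsAlgClosure.isAlgClosed k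
  have hI : Is1 k := is1 (hG 1)
  obtain ⟨p₀, hp₀⟩ := exists_np hs (by omega)
  obtain ⟨t₀, ht₀⟩ := exists_T hn (hI k inferInstance) hp₀
  refine ⟨PhL (trPt k Ω t₀), ?_, fun M _ _ _ p t ht => ?_⟩
  · have h1 : trPt k Ω t₀ = Finsupp.single (mapPt (algebraMap k Ω) t₀) 1 := by
      rw [trPt, Fintype.sum_unique]
      congr 1
    have h2 := ht₀.hom (Algebra.ofId k Ω)
    obtain ⟨a, b, ha, hb, hsq, -, -, hab⟩ := h2.roots
    have h3 : mapPt (algebraMap k Ω) t₀ = Projectivization.mk Ω (sq a b) hsq := hab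
    have : CharZero Ω := charZero_of_injective_algebraMap (algebraMap k Ω).injective
    have hd : ∀ x : ℙ Ω (Fin n → Ω), deg Ω (Finsupp.single x 1) = 1 := fun x => by simp [deg]
    rw [h1, PhL_single, one_smul, h3, Ph_mk ha hb, map_add, hd, hd]
    norm_num
  · have h1 := trPt_tower (k := k) (K := k) (M := M) (Ω := Ω) t₀
    have h2 := ht₀.hom (Algebra.ofId k M)
    have h3 := all_T hG hI hs hn ht h2
    have h4 : trPt k Ω (mapPt ((Algebra.ofId k M : k →ₐ[k] M) : k →+* M) t₀) =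
        Module.finrank k M • trPt k Ω t₀ := h1
    rw [h4, map_nsmul, ← natCast_zsmul] at h3
    exact h3

end Tq
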