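import Pool.Agent.Lib.MP_f80667_ag.Tq.Pts
import Pool.Agent.Lib.MP_f80667_ag.Tq.TwoA

/-! The classes of the points over one field. -/

open scoped LinearAlgebra.Projectivization

namespace Tq

open ZC

universe u

variable {k : Type u} [Field k] [CharZero k] {Ω : Type u} [Field Ω] [Algebra k Ω]
  [IsAlgClosure k Ω] {n : ℕ} {A B : Matrix (Fin n) (Fin n) k}

variable {ζ : ℙ Ω (Fin n → Ω) →₀ ℤ} (hζ : ∀ (M : Type u) [Field M] [Algebra k M]
  [FiniteDimensional k M] (p : Fin n → M) (t : ℙ M (Fin (n * n) → M)), IsT A B p t →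
    PhL (trPt k Ω t) - (Module.finrank k M : ℤ) • ζ ∈ ratEq Ω (Pl A B))

include hζ

/-- `2 [P] = [M : k] ζ` (`two_pt`). -/
theorem cls_two (hs : Sm Ω A B) (hn : 6 ≤ n) {M : Type u} [Field M] [Algebra k M]
    [FiniteDimensional k M] {P : Fin n → M} (hP : P ≠ 0) (hX : Zer (Pl A B) M P) :
    (2 : ℤ) • trPt k Ω (Projectivization.mk M P hP) - (Module.finrank k M : ℤ) • ζ ∈
      ratEq Ω (Pl A B) := by
  have hcl : IsAlgClosed Ω := IsAlgClosure.isAlgClosed k
  obtain ⟨p, t, ht, h2⟩ := two_pt (k := k) (Ω := Ω) hs hn hP hX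
  rw [← h2]
  exact hζ M p t ht

/-- Two points over the same field are equivalent: `pair_pt` or `line_pt`, with `cls_two`. -/
theorem cls_eq (hs : Sm Ω A B) (hn : 6 ≤ n) {M : Type u} [Field M] [Algebra k M]
    [FiniteDimensional k M] {P R : Fin n → M} (hP : P ≠ 0) (hR : R ≠ 0) (hX : Zer (Pl A B) M P)
    (hX' : Zer (Pl A B) M R) :
    trPt k Ω (Projectivization.mk M P hP) - trPt k Ω (Projectivization.mk M R hR) ∈
      ratEq Ω (Pl A B) := by
  have hcl : IsAlgClosed Ω := IsAlgClosure.isAlgClosed k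
  by_cases h : bv A P R ≠ 0 ∨ bv B P R ≠ 0
  · obtain ⟨p, t, ht, h2⟩ := pair_pt (k := k) (Ω := Ω) hP hR hX hX' h
    have h3 := hζ M p t ht
    rw [h2] at h3
    have h4 := cls_two hζ hs hn hP hX
    have h5 := sub_mem h4 h3
    have e : trPt k Ω (Projectivization.mk M P hP) - trPt k Ω (Projectivization.mk M R hR) =
        (2 : ℤ) • trPt k Ω (Projectivization.mk M P hP) - (Module.finrank k M : ℤ) • ζ -
        (trPt k Ω (Projectivization.mk M P hP) + trPt k Ω (Projectivization.mk M R hR) -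
          (Module.finrank k M : ℤ) • ζ) := by
      rw [two_smul]
      abel
    rw [e]
    exact h5
  · push Not at h
    exact line_pt hP hR hX hX' h.1 h.2

end Tq
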