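import Mathlib

/-! Extensions of odd degree and quadratic extensions. -/

open Polynomial

namespace Tq

universe u

private theorem sylA_grp {G : Type*} [Group G] [Finite G] (H : Subgroup G) (h : 2 ∣ H.index) :
    ∃ S P : Subgroup G, P ≤ S ∧ P ≤ H ∧
      Nat.card S = 2 * Nat.card P ∧ ¬ 2 ∣ P.relIndex H := by
  have : Fact (Nat.Prime 2) := ⟨Nat.prime_two⟩
  let P₀ : Sylow 2 H := default
  let P : Subgroup G := (P₀ : Subgroup H).map H.subtype
  have hPH : P ≤ H := Subgroup.map_subtype_le _
  have hP : IsPGroup 2 P := P₀.2.map _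
  have hrel : ¬ 2 ∣ P.relIndex H := by
    have h1 : P.subgroupOf H = (P₀ : Subgroup H) :=
      Subgroup.comap_map_eq_self_of_injective H.subtype_injective _
    rw [Subgroup.relIndex, h1]
    exact P₀.not_dvd_index
  obtain ⟨a, ha⟩ := IsPGroup.iff_card.mp hP
  have hPi : 2 ∣ P.index := by
    rw [← Subgroup.relIndex_mul_index hPH]
    exact h.mul_left _
  have hd : 2 ^ (a + 1) ∣ Nat.card G := by
    rw [← P.card_mul_index, ha, pow_succ]
    exact mul_dvd_mul_left _ hPi
  obtain ⟨S, hS, hPS⟩ := Sylow.exists_subgroup_card_pow_succ hd ha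
  exact ⟨S, P, hPS, hPH, by rw [hS, ha, pow_succ'], hrel⟩

private theorem sylA_adj (k : Type u) [Field k] (M K₁ : Type u) [Field M] [Field K₁]
    [Algebra k M] [Algebra k K₁] [FiniteDimensional k M] [FiniteDimensional k K₁]
    (pb : PowerBasis k K₁) (q : M[X]) (hq : Irreducible q)
    (hqp : q ∣ (minpoly k pb.gen).map (algebraMap k M)) :
    ∃ (L : Type u) (_ : Field L) (_ : Algebra k L) (_ : Algebra M L) (_ : Algebra K₁ L)
      (_ : IsScalarTower k M L) (_ : IsScalarTower k K₁ L) (_ : FiniteDimensional k L),
      Module.finrank M L = q.natDegree := by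
  have : Fact (Irreducible q) := ⟨hq⟩
  have hroot : aeval (AdjoinRoot.root q) (minpoly k pb.gen) = 0 := by
    have h1 : aeval (AdjoinRoot.root q) ((minpoly k pb.gen).map (algebraMap k M)) = 0 := by
      obtain ⟨r, hr⟩ := hqp
      rw [hr, map_mul, AdjoinRoot.aeval_eq, AdjoinRoot.mk_self, zero_mul]
    rwa [aeval_map_algebraMap] at h1
  let φ : K₁ →ₐ[k] AdjoinRoot q := pb.lift (AdjoinRoot.root q) hroot
  let : Algebra K₁ (AdjoinRoot q) := φ.toRingHom.toAlgebra
  have : IsScalarTower k K₁ (AdjoinRoot q) := IsScalarTower.of_algebraMap_eq fun x =>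
    (φ.commutes x).symm
  have : FiniteDimensional M (AdjoinRoot q) := (AdjoinRoot.powerBasis hq.ne_zero).finite
  refine ⟨AdjoinRoot q, inferInstance, inferInstance, inferInstance, inferInstance, inferInstance,
    inferInstance, Module.Finite.trans M (AdjoinRoot q), ?_⟩
  rw [(AdjoinRoot.powerBasis hq.ne_zero).finrank, AdjoinRoot.powerBasis_dim]

private theorem sylA_fac {M : Type*} [Field M] (p : M[X]) (hp : p ≠ 0)
    (h : ¬ 2 ∣ p.natDegree) : ∃ q : M[X], Irreducible q ∧ q ∣ p ∧ ¬ 2 ∣ q.natDegree := by
  revert hp h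
  refine WfDvdMonoid.induction_on_irreducible p ?_ ?_ ?_
  · intro h0
    exact absurd rfl h0
  · intro u hu _ h
    rw [natDegree_eq_zero_of_isUnit hu] at h
    exact absurd (dvd_zero 2) h
  · intro a i ha hi ih _ h
    rw [natDegree_mul hi.ne_zero ha] at h
    by_cases h1 : 2 ∣ i.natDegree
    · obtain ⟨q, hq, hqa, hq3⟩ := ih ha fun h2 => h (dvd_add h1 h2)
      exact ⟨q, hq, hqa.mul_left i, hq3⟩
    · exact ⟨i, hi, dvd_mul_right _ _, h1⟩

private theorem sylA_tower (k : Type u) [Field k] (M : Type u) [Field M] [Algebra k M]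
    [FiniteDimensional k M] (N : Type u) [Field N] [Algebra k N] [FiniteDimensional k N]
    [IsGalois k N] (ι : M →ₐ[k] N) (h : 2 ∣ Module.finrank k M) :
    ∃ (M₁ L : Type u) (_ : Field M₁) (_ : Field L) (_ : Algebra k M₁) (_ : Algebra k L)
      (_ : Algebra M₁ L) (_ : Algebra M L) (_ : IsScalarTower k M₁ L) (_ : IsScalarTower k M L)
      (_ : FiniteDimensional k M₁) (_ : FiniteDimensional k L),
      Module.finrank M₁ L = 2 ∧ Odd (Module.finrank M L) := by
  have hidx : ∀ T : Subgroup Gal(N/k), Module.finrank k (IntermediateField.fixedField T) =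
      T.index := by
    intro T
    have h1 := Module.finrank_mul_finrank k (IntermediateField.fixedField T) N
    rw [IntermediateField.finrank_fixedField_eq_card, ← IsGalois.card_aut_eq_finrank k N,
      ← T.card_mul_index, mul_comm] at h1
    exact Nat.eq_of_mul_eq_mul_left Nat.card_pos h1
  have hrk : Module.finrank k ι.fieldRange = Module.finrank k M :=
    (AlgEquiv.ofInjectiveField ι).toLinearEquiv.finrank_eq.symm
  have hH : (ι.fieldRange).fixingSubgroup.index = Module.finrank k M := by
    rw [← hidx, IsGalois.fixedField_fixingSubgroup, hrk]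
  obtain ⟨S, P, hPS, hPH, hcard, hrel⟩ :=
    sylA_grp (ι.fieldRange).fixingSubgroup (hH ▸ h)
  have h1 : IntermediateField.fixedField S ≤ IntermediateField.fixedField P :=
    IntermediateField.fixedField_le hPS
  have h3 : ι.fieldRange ≤ IntermediateField.fixedField P :=
    (IntermediateField.le_iff_le _ _).mpr hPH
  let φ : M →ₐ[k] IntermediateField.fixedField P :=
    (IntermediateField.inclusion h3).comp (AlgEquiv.ofInjectiveField ι).toAlgHom
  let a1 : Algebra (IntermediateField.fixedField S) (IntermediateField.fixedField P) :=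
    (IntermediateField.inclusion h1).toRingHom.toAlgebra
  let a3 : Algebra M (IntermediateField.fixedField P) := φ.toRingHom.toAlgebra
  have t1 : IsScalarTower k (IntermediateField.fixedField S) (IntermediateField.fixedField P) :=
    IsScalarTower.of_algebraMap_eq fun x => ((IntermediateField.inclusion h1).commutes x).symm
  have t3 : IsScalarTower k M (IntermediateField.fixedField P) :=
    IsScalarTower.of_algebraMap_eq fun x => (φ.commutes x).symm
  refine ⟨IntermediateField.fixedField S,
    IntermediateField.fixedField P, inferInstance, inferInstance, inferInstance, inferInstance,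
    a1, a3, t1, t3, inferInstance, inferInstance, ?_, ?_⟩
  · have h4 := Module.finrank_mul_finrank k (IntermediateField.fixedField S)
      (IntermediateField.fixedField P)
    rw [hidx, hidx] at h4
    have h5 : Nat.card S * S.index = Nat.card P * P.index := by
      rw [Subgroup.card_mul_index, Subgroup.card_mul_index]
    rw [hcard, ← h4] at h5
    have h6 : 0 < Nat.card P * S.index :=
      Nat.mul_pos Nat.card_pos (Nat.pos_of_ne_zero Subgroup.FiniteIndex.index_ne_zero)
    apply Nat.eq_of_mul_eq_mul_left h6
    linarith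
  · have h4 := Module.finrank_mul_finrank k M (IntermediateField.fixedField P)
    rw [hidx, ← Subgroup.relIndex_mul_index hPH, hH, mul_comm] at h4
    rw [Nat.eq_of_mul_eq_mul_right Module.finrank_pos h4]
    exact Nat.not_even_iff_odd.mp fun he => hrel he.two_dvd

/-- If `[M : k]` is even there are `L ⊇ M` of odd degree and `M₁ ⊆ L` with `[L : M₁] = 2`. Proof
(as `Cu.sylow_tower` in `Cu/Syl.lean`): `N` = normal closure of `M/k`, `P` a Sylow `2`-subgroup of
`Gal(N/M)`; it is not a Sylow `2`-subgroup of `Gal(N/k)`, so `P ≤ S₁` with `[S₁ : P] = 2`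
(`Sylow.exists_subgroup_card_pow_succ`); `L = N^P`, `M₁ = N^(S₁)`. -/
theorem exists_quad (k : Type u) [Field k] [CharZero k] (M : Type u) [Field M] [Algebra k M]
    [FiniteDimensional k M] (h : 2 ∣ Module.finrank k M) :
    ∃ (M₁ L : Type u) (_ : Field M₁) (_ : Field L) (_ : Algebra k M₁) (_ : Algebra k L)
      (_ : Algebra M₁ L) (_ : Algebra M L) (_ : IsScalarTower k M₁ L) (_ : IsScalarTower k M L)
      (_ : FiniteDimensional k M₁) (_ : FiniteDimensional k L),
      Module.finrank M₁ L = 2 ∧ Odd (Module.finrank M L) := by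
  have : IsAlgClosure k (AlgebraicClosure M) :=
    ⟨inferInstance, Algebra.IsAlgebraic.trans k M (AlgebraicClosure M)⟩
  let N : Type u := IntermediateField.normalClosure k M (AlgebraicClosure M)
  let : Field N := inferInstanceAs (Field (IntermediateField.normalClosure k M (AlgebraicClosure M)))
  let : Algebra k N :=
    inferInstanceAs (Algebra k (IntermediateField.normalClosure k M (AlgebraicClosure M)))
  have : FiniteDimensional k N := inferInstanceAs
    (FiniteDimensional k (IntermediateField.normalClosure k M (AlgebraicClosure M)))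
  have : Normal k N :=
    inferInstanceAs (Normal k (IntermediateField.normalClosure k M (AlgebraicClosure M)))
  have : IsGalois k N := ⟨⟩
  let ι : M →ₐ[k] N :=
    IsScalarTower.toAlgHom k M (IntermediateField.normalClosure k M (AlgebraicClosure M))
  exact sylA_tower k M N ι h

/-- Two extensions of odd degree have a common extension of odd degree. Proof: `Cu.common_ext` in
`Cu/Syl.lean` with `2` in place of `3` (an irreducible factor of odd degree over `M` of the minimal
polynomial of a generator of `K`). -/
theorem common_odd (k : Type u) [Field k] [CharZero k] (M K : Type u) [Field M] [Field K]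
    [Algebra k M] [Algebra k K] [FiniteDimensional k M] [FiniteDimensional k K]
    (h : Odd (Module.finrank k K)) :
    ∃ (L : Type u) (_ : Field L) (_ : Algebra k L) (_ : Algebra M L) (_ : Algebra K L)
      (_ : IsScalarTower k M L) (_ : IsScalarTower k K L) (_ : FiniteDimensional k L),
      Odd (Module.finrank M L) := by
  let pb : PowerBasis k K := Field.powerBasisOfFiniteOfSeparable k K
  have hd : (minpoly k pb.gen).natDegree = Module.finrank k K := by
    rw [pb.natDegree_minpoly, pb.finrank]
  have h3 : ¬ 2 ∣ ((minpoly k pb.gen).map (algebraMap k M)).natDegree := by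
    rw [natDegree_map, hd]
    intro h1
    exact Nat.not_even_iff_odd.mpr h (even_iff_two_dvd.mpr h1)
  obtain ⟨q, hq, hqp, hq3⟩ := sylA_fac _
    (Polynomial.map_ne_zero (minpoly.ne_zero (pb.isIntegral_gen))) h3
  obtain ⟨L, i1, i2, i3, i4, i5, i6, i7, hL⟩ := sylA_adj k M K pb q hq hqp
  refine ⟨L, i1, i2, i3, i4, i5, i6, i7, ?_⟩
  rw [hL]
  exact Nat.not_even_iff_odd.mp fun he => hq3 he.two_dvd

end Tq
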