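import Pool.Agent.Lib.MP_f80667_ag.Tq.EndB
import Pool.Agent.Lib.MP_f80667_ag.Tq.SylA

/-! The classes of the points. -/

open scoped LinearAlgebra.Projectivization

namespace Tq

open ZC

universe u

variable {k : Type u} [Field k] [CharZero k] {Ω : Type u} [Field Ω] [Algebra k Ω]
  [IsAlgClosure k Ω] {n : ℕ} {A B : Matrix (Fin n) (Fin n) k}

/-- The trace of a point over a larger field. -/
private theorem trPt_ext {M L : Type u} [Field M] [Field L] [Algebra k M] [Algebra k L]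
    [Algebra M L] [IsScalarTower k M L] [FiniteDimensional k M] [FiniteDimensional k L]
    {P : Fin n → M} (hP : P ≠ 0) (hX : Zer (Pl A B) M P) :
    ∃ h : (fun i => algebraMap M L (P i)) ≠ 0, Zer (Pl A B) L (fun i => algebraMap M L (P i)) ∧
      trPt k Ω (Projectivization.mk L (fun i => algebraMap M L (P i)) h) =
        (Module.finrank M L : ℤ) • trPt k Ω (Projectivization.mk M P hP) := by
  have hcl : IsAlgClosed Ω := IsAlgClosure.isAlgClosed k
  refine ⟨comp_ne (algebraMap M L) hP, ?_, ?_⟩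
  · have h1 := (zer_comp (IsScalarTower.toAlgHom k M L) P).2 hX
    exact h1
  · rw [← mapPt_mk (algebraMap M L) P hP, trPt_tower, natCast_zsmul]

variable {ζ : ℙ Ω (Fin n → Ω) →₀ ℤ} (hζ : ∀ (M : Type u) [Field M] [Algebra k M]
  [FiniteDimensional k M] (p : Fin n → M) (t : ℙ M (Fin (n * n) → M)), IsT A B p t →
    PhL (trPt k Ω t) - (Module.finrank k M : ℤ) • ζ ∈ ratEq Ω (Pl A B))

include hζ

/-- Points of even degree. Proof: `exists_quad`: `L ⊇ M` of odd degree `a`, `M₁ ⊆ L`, `[L : M₁] = 2`.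
`conj_pt` for `L / M₁` and `P` over `L`: `trPt P_L = [M₁ : k] ζ` (first case `hζ`; second case
`cls_two` over `M₁`), `[M₁ : k] = [L : k] / 2`, `trPt P_L = a trPt P` (`trPt_tower`). So `a` kills
`δ = trPt P - ([M : k] / 2) ζ` modulo `ratEq`, and `2` kills it (`cls_two`). -/
theorem cls_even (hs : Sm Ω A B) (hn : 6 ≤ n) {M : Type u} [Field M] [Algebra k M]
    [FiniteDimensional k M] {d : ℕ} (hd : Module.finrank k M = 2 * d) {P : Fin n → M} (hP : P ≠ 0)
    (hX : Zer (Pl A B) M P) :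
    trPt k Ω (Projectivization.mk M P hP) - (d : ℤ) • ζ ∈ ratEq Ω (Pl A B) := by
  have hcl : IsAlgClosed Ω := IsAlgClosure.isAlgClosed k
  obtain ⟨M₁, L, i1, i2, i3, i4, i5, i6, i7, i8, i9, i10, h2, ha⟩ :=
    exists_quad k M ⟨d, hd⟩
  obtain ⟨hPL, hXL, htr⟩ := trPt_ext (Ω := Ω) (L := L) hP hX
  have key : trPt k Ω (Projectivization.mk L (fun i => algebraMap M L (P i)) hPL) -
      (Module.finrank k M₁ : ℤ) • ζ ∈ ratEq Ω (Pl A B) := by
    rcases conj_pt (Ω := Ω) h2 hPL hXL with ⟨p, t, ht, h⟩ | ⟨P₀, h0, hz, h⟩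
    · rw [← h]
      exact hζ M₁ p t ht
    · have h3 := cls_two hζ hs hn h0 hz
      have h4 := add_mem h h3
      rwa [sub_add_sub_cancel] at h4
  rw [htr] at key
  have e1 : Module.finrank k M * Module.finrank M L = Module.finrank k M₁ * 2 := by
    rw [Module.finrank_mul_finrank k M L, ← h2, Module.finrank_mul_finrank k M₁ L]
  obtain ⟨m, hm⟩ := ha
  have e2 : Module.finrank k M₁ = (2 * m + 1) * d := by
    rw [hd, hm] at e1
    linarith
  have h5 := cls_two hζ hs hn hP hX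
  rw [hd] at h5
  rw [e2, hm] at key
  have h6 := sub_mem key (zsmul_mem h5 (m : ℤ))
  have e3 : ((2 * m + 1 : ℕ) : ℤ) • trPt k Ω (Projectivization.mk M P hP) -
      (((2 * m + 1) * d : ℕ) : ℤ) • ζ - (m : ℤ) • ((2 : ℤ) • trPt k Ω (Projectivization.mk M P hP) -
      ((2 * d : ℕ) : ℤ) • ζ) = trPt k Ω (Projectivization.mk M P hP) - (d : ℤ) • ζ := by
    push_cast
    module
  rwa [e3] at h6

/-- Points of odd degree. Proof: `common_odd`: `L ⊇ M, K` with `a = [L : M]` odd, so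
`a' = [L : K]` is odd (`a [M : k] = a' [K : k]`); `cls_eq` over `L` and `trPt_tower`:
`a trPt P = a' trPt R`. With `2 trPt P = [M : k] ζ`, `2 trPt R = [K : k] ζ` (`cls_two`):
`ε = trPt P - trPt R - d ζ` is killed by `2` and by `a`:
`a ε = (a' - a) trPt R - a d ζ = ((a' - a) / 2) [K : k] ζ - a d ζ = 0`. -/
theorem cls_odd (hs : Sm Ω A B) (hn : 6 ≤ n) {M K : Type u} [Field M] [Algebra k M]
    [FiniteDimensional k M] [Field K] [Algebra k K] [FiniteDimensional k K]
    (hM : Odd (Module.finrank k M)) (hK : Odd (Module.finrank k K)) {d : ℤ}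
    (hd : (Module.finrank k M : ℤ) = Module.finrank k K + 2 * d) {P : Fin n → M} (hP : P ≠ 0)
    (hX : Zer (Pl A B) M P) {R : Fin n → K} (hR : R ≠ 0) (hX' : Zer (Pl A B) K R) :
    trPt k Ω (Projectivization.mk M P hP) - trPt k Ω (Projectivization.mk K R hR) - d • ζ ∈
      ratEq Ω (Pl A B) := by
  have hcl : IsAlgClosed Ω := IsAlgClosure.isAlgClosed k
  obtain ⟨L, i1, i2, i3, i4, i5, i6, i7, ha⟩ := common_odd k M K hK
  obtain ⟨hPL, hXL, htP⟩ := trPt_ext (Ω := Ω) (L := L) hP hX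
  obtain ⟨hRL, hXL', htR⟩ := trPt_ext (Ω := Ω) (L := L) hR hX'
  have e1 : Module.finrank k M * Module.finrank M L =
      Module.finrank k K * Module.finrank K L := by
    rw [Module.finrank_mul_finrank k M L, Module.finrank_mul_finrank k K L]
  have ha' : Odd (Module.finrank K L) := by
    have h1 : Odd (Module.finrank k K * Module.finrank K L) := e1 ▸ hM.mul ha
    exact (Nat.odd_mul.1 h1).2
  have h1 := cls_eq hζ hs hn hPL hRL hXL hXL'
  rw [htP, htR] at h1
  have h2 := cls_two hζ hs hn hP hX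
  have h3 := cls_two hζ hs hn hR hX'
  generalize hx : trPt k Ω (Projectivization.mk M P hP) = x at h1 h2 ⊢
  generalize hy : trPt k Ω (Projectivization.mk K R hR) = y at h1 h3 ⊢
  obtain ⟨b, hb⟩ := ha
  obtain ⟨c, hc⟩ := ha'
  have e2 : (Module.finrank M L : ℤ) = 2 * b + 1 := by rw [hb]; push_cast; ring
  have e3 : (Module.finrank K L : ℤ) = 2 * c + 1 := by rw [hc]; push_cast; ring
  have e4 : (Module.finrank k M : ℤ) * (2 * b + 1) = Module.finrank k K * (2 * c + 1) := by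
    rw [← e2, ← e3]
    exact_mod_cast e1
  rw [e2, e3] at h1
  rw [hd] at h2 e4
  generalize (Module.finrank k K : ℤ) = κ at h2 h3 e4
  have e5 : ((c : ℤ) - b) * κ = (2 * b + 1) * d := by linarith
  have h4 := sub_mem (add_mem h1 (zsmul_mem h3 ((c : ℤ) - b)))
    (zsmul_mem (sub_mem h2 h3) (b : ℤ))
  have e6 : (2 * (b : ℤ) + 1) • x - (2 * (c : ℤ) + 1) • y + ((c : ℤ) - b) • ((2 : ℤ) • y - κ • ζ) -
      (b : ℤ) • ((2 : ℤ) • x - (κ + 2 * d) • ζ - ((2 : ℤ) • y - κ • ζ)) =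
      x - y - (((c : ℤ) - b) * κ) • ζ + (2 * b * d) • ζ := by
    module
  rw [e6, e5] at h4
  have e7 : x - y - ((2 * (b : ℤ) + 1) * d) • ζ + (2 * b * d) • ζ = x - y - d • ζ := by
    module
  rwa [e7] at h4

end Tq
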