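import Pool.Agent.Lib.MP_f80667_ag.Tq.End
import Pool.Agent.Lib.MP_f80667_ag.Tq.FinB
import Pool.Agent.Lib.MP_f80667_ag.LF.GoodN

/-! Smooth intersections of two quadrics over the completions of a number field. -/

open ZC IsDedekindDomain NumberField
open scoped LinearAlgebra.Projectivization

namespace Tq

universe u

theorem F1_adic (F : Type) [Field F] [NumberField F] (v : HeightOneSpectrum (𝓞 F)) {n : ℕ}
    (f : Fin 2 → MvPolynomial (Fin n) F) (hf : ∀ i, (f i).IsHomogeneous 2) (hn : 7 ≤ n)
    (hs : ∀ x : Fin n → AlgebraicClosure F, x ≠ 0 → Zer f (AlgebraicClosure F) x →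
      LinearIndependent (AlgebraicClosure F)
        fun (i : Fin 2) (j : Fin n) => MvPolynomial.aeval x (MvPolynomial.pderiv j (f i))) :
    Subsingleton (F1 (AlgebraicClosure (v.adicCompletion F))
      (fun i => (f i).map (algebraMap F (v.adicCompletion F)))) := by
  have hchar : CharZero (v.adicCompletion F) :=
    charZero_of_injective_algebraMap (algebraMap F (v.adicCompletion F)).injective
  obtain ⟨A, hA⟩ := exists_mat (f 0) (hf 0)
  obtain ⟨B, hB⟩ := exists_mat (f 1) (hf 1)
  have hfP : f = Pl A B := by
    funext i
    fin_cases i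
    · exact hA
    · exact hB
  subst hfP
  have hml : ∀ H : Matrix (Fin n) (Fin n) F, (ml H).map (algebraMap F (v.adicCompletion F)) =
      ml (H.map (algebraMap F (v.adicCompletion F))) := by
    intro H
    simp only [ml, map_sum, map_mul, MvPolynomial.map_C, MvPolynomial.map_X, Matrix.map_apply]
  have hP : (fun i => (Pl A B i).map (algebraMap F (v.adicCompletion F))) =
      Pl (A.map (algebraMap F (v.adicCompletion F)))
        (B.map (algebraMap F (v.adicCompletion F))) := by
    funext i
    fin_cases i
    · exact hml A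
    · exact hml B
  rw [hP]
  refine F1_two (fun s => Pool.Agent.Lib.MP_f80667_ag.LF.good_adic F v s) ?_ hn
  exact fun x hx h1 h2 a b h => sm_transfer (k := v.adicCompletion F) A B hs x hx h1 h2 a b h

end Tq
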