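import Pool.Agent.Lib.MP_f80667_ag.Tq.TwoA

/-! Lines through different points, up to a multiple. -/

open scoped LinearAlgebra.Projectivization

namespace Tq

open ZC

universe u

variable {k : Type u} [Field k] [CharZero k] {Ω : Type u} [Field Ω] [Algebra k Ω]
  [IsAlgClosure k Ω] {n : ℕ} {A B : Matrix (Fin n) (Fin n) k}

/-- The line through `p` and `p'` does not meet `X`. -/
def Av (Ω : Type u) [Field Ω] [Algebra k Ω] (A B : Matrix (Fin n) (Fin n) k) {M : Type u}
    [Field M] [Algebra k M] (p p' : Fin n → M) : Prop :=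
  ∀ (σ : M →ₐ[k] Ω) (a b : Ω), (a ≠ 0 ∨ b ≠ 0) →
    ¬ Zer (Pl A B) Ω (fun i => a * σ (p i) + b * σ (p' i))

variable {M : Type u} [Field M] [Algebra k M] [FiniteDimensional k M]

/-- The values of a point of the line are points of the line, so they are not on `X`. -/
theorem Av.val {E Ω : Type u} [Field E] [Algebra k E] [Field Ω] [Algebra k Ω] [Algebra M E]
    [IsScalarTower k M E] {p p' : Fin n → M} (hav : Av Ω A B p p') (v : Place k E Ω) (s : E)
    {P : ℙ Ω (Fin n → Ω)}
    (hP : v.IsVal (fun j => algebraMap M E (p j) + s * algebraMap M E (p' j)) P) :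
    ¬ Zer (Pl A B) Ω P.rep := by
  have halg : Algebra.IsAlgebraic k M := inferInstance
  obtain ⟨c, hc, hcs, hne⟩ : ∃ (c : E) (hc : c ∈ v.V) (hcs : c * s ∈ v.V),
      v.res ⟨c, hc⟩ ≠ 0 ∨ v.res ⟨c * s, hcs⟩ ≠ 0 := by
    by_cases hs : s ∈ v.V
    · refine ⟨1, v.V.one_mem, by rwa [one_mul], Or.inl ?_⟩
      have h1 : (⟨1, v.V.one_mem⟩ : v.V) = 1 := rfl
      rw [h1, map_one]
      exact one_ne_zero
    · have h1 : s⁻¹ ∈ v.V := (v.V.mem_or_inv_mem s).resolve_left hs
      have h0 : s ≠ 0 := by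
        rintro rfl
        exact hs v.V.zero_mem
      have h2 : s⁻¹ * s = 1 := inv_mul_cancel₀ h0
      refine ⟨s⁻¹, h1, by rw [h2]; exact v.V.one_mem, Or.inr ?_⟩
      have h3 : (⟨s⁻¹ * s, by rw [h2]; exact v.V.one_mem⟩ : v.V) = 1 := Subtype.ext h2
      rw [h3, map_one]
      exact one_ne_zero
  have hmem : ∀ j, c * (algebraMap M E (p j) + s * algebraMap M E (p' j)) ∈ v.V := by
    intro j
    have h1 : c * (algebraMap M E (p j) + s * algebraMap M E (p' j)) =
        c * algebraMap M E (p j) + c * s * algebraMap M E (p' j) := by ring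
    rw [h1]
    exact v.V.add_mem _ _ (v.V.mul_mem _ _ hc (v.mem_M _)) (v.V.mul_mem _ _ hcs (v.mem_M _))
  have hres : ∀ j, v.res ⟨_, hmem j⟩ =
      v.res ⟨c, hc⟩ * v.emb (M := M) (p j) + v.res ⟨c * s, hcs⟩ * v.emb (M := M) (p' j) := by
    intro j
    rw [Place.emb_apply, Place.emb_apply, ← map_mul, ← map_mul, ← map_add]
    congr 1
    ext
    change c * (algebraMap M E (p j) + s * algebraMap M E (p' j)) =
      c * algebraMap M E (p j) + c * s * algebraMap M E (p' j)
    ring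
  have hZ := hav v.emb _ _ hne
  have hfun : (fun j => v.res ⟨_, hmem j⟩) = fun j =>
      v.res ⟨c, hc⟩ * v.emb (M := M) (p j) + v.res ⟨c * s, hcs⟩ * v.emb (M := M) (p' j) :=
    funext hres
  rw [← hfun] at hZ
  have h0 : (fun j => v.res ⟨_, hmem j⟩) ≠ 0 := by
    intro h1
    apply hZ
    rw [h1, zer_iff]
    have h2 : ∀ H : Matrix (Fin n) (Fin n) k, qv H (0 : Fin n → Ω) = 0 := by
      intro H
      have := qv_smul H (0 : Ω) (0 : Fin n → Ω)
      rw [smul_zero] at this
      rw [this]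
      ring
    exact ⟨h2 A, h2 B⟩
  have hV : v.IsVal (fun j => algebraMap M E (p j) + s * algebraMap M E (p' j))
      (Projectivization.mk Ω _ h0) := ⟨c, hmem, h0, rfl⟩
  rw [hP.unique hV]
  obtain ⟨a, ha, hr⟩ := exists_rep _ h0
  rw [hr, zer_iff, qv_smul, qv_smul]
  rintro ⟨h1, h2⟩
  apply hZ
  rw [zer_iff]
  exact ⟨(mul_eq_zero.1 h1).resolve_left (pow_ne_zero 2 ha),
    (mul_eq_zero.1 h2).resolve_left (pow_ne_zero 2 ha)⟩

omit [CharZero k] [FiniteDimensional k M] in
/-- The generic point of the line is not on `X`. -/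
theorem gen_ne {p : Fin n → M} (p' : Fin n → M) (hp : ¬ Zer (Pl A B) M p) :
    ¬ Zer (Pl A B) (RatFunc M) (fun j => algebraMap M (RatFunc M) (p j) +
      RatFunc.X * algebraMap M (RatFunc M) (p' j)) := by
  intro h
  apply hp
  have h1 : Zer (Pl A B) (Polynomial M)
      (fun j => Polynomial.C (p j) + Polynomial.X * Polynomial.C (p' j)) := by
    refine Zer.of_map (IsScalarTower.toAlgHom k (Polynomial M) (RatFunc M))
      (RatFunc.algebraMap_injective M) ?_
    convert h using 2 with j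
    simp only [IsScalarTower.coe_toAlgHom', map_add, map_mul, RatFunc.algebraMap_C,
      RatFunc.algebraMap_X]
    rfl
  have h2 := h1.map ((Polynomial.aeval (0 : M)).restrictScalars k)
  convert h2 using 2 with j
  simp

omit [CharZero k] in
/-- The second components of a push-forward. -/
theorem push_snd {E Ω : Type u} [Field E] [Algebra k E] [Field Ω] [Algebra k Ω] {N m : ℕ} {g : E}
    {w : Fin N → E} {t : Fin m → E} {z : Pt2 Ω N m →₀ ℤ} (hz : IsPush2 k Ω g w t z) :
    IsPush k Ω g t (Finsupp.mapDomain Prod.snd z) := by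
  obtain ⟨S, m, x, h1, h2, rfl⟩ := hz
  refine ⟨S, m, fun v => (x v).2, h1, fun v hv => ⟨(h2 v hv).1, (h2 v hv).2.2⟩, ?_⟩
  rw [Finsupp.mapDomain_finsetSum]
  simp only [Finsupp.mapDomain_single]

omit [IsAlgClosure k Ω] [FiniteDimensional k M] in
/-- The conjugates of a point and a line through it. -/
theorem isT_conj {p : Fin n → M} (hp : p ≠ 0) {t : ℙ M (Fin (n * n) → M)} (h : IsT A B p t)
    (σ : M →ₐ[k] Ω) :
    IsT A B (mapPt (σ : M →+* Ω) (Projectivization.mk M p hp)).rep (mapPt (σ : M →+* Ω) t) := by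
  have h1 := h.hom σ
  rw [mapPt_mk]
  obtain ⟨a, ha, hr⟩ := exists_rep (fun i => (σ : M →+* Ω) (p i)) (comp_ne (σ : M →+* Ω) hp)
  rw [hr]
  exact h1.smul ha

/-- Up to a multiple prime to `D`. Proof. `E = RatFunc M`, `w(s) = p + s p'`, `g = X`,
`z = trPt p - trPt p'` (`push_curve`, `N = 1`). `exists_form` for `w(s)`, `norm_lift`: `E'`, `θ`,
`v`, `x = C v`, `Ln A B w(s) x` over `E'`; `H` with `qv H w(s) ≠ 0` (one of them: `Av` and
transcendence, or `Zer` at `s = 0`), `T = tn H w(s) x ≠ 0`; `y` with `pushW y = d z` and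
`IsPush2 θ w(s) T y`. `PhL (mapDomain snd y) ∈ ratEq` by `cor` (`IsPush2` gives `IsPush` of the
second components). All points `(P, τ)` in the support of `y` satisfy `IsT A B P.rep τ` by `IsT.val`
(`P` is a point of the line, not on `X` by `Av`: the value of `w(s)` at a place of `E'` is
`[a σ(p) + b σ(p')]`, `Place.emb` in `ZC/Place.lean`). Let
`z₁ = y - d (tr2 p t - tr2 p' t')`: invariant (`IsPush2.inv`, `tr2_inv`), `pushW z₁ = 0`; `fib_mem`. -/
theorem two_aux (hG : ∀ s, Good k Ω s) (hI : Is1 k) (hn : 7 ≤ n) {p p' : Fin n → M}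
    (hav : Av Ω A B p p') {t t' : ℙ M (Fin (n * n) → M)} (h : IsT A B p t) (h' : IsT A B p' t')
    (D : ℕ) (hD : D ≠ 0) : ∃ d : ℕ, d.Coprime D ∧
      d • (PhL (trPt k Ω t) - PhL (trPt k Ω t')) ∈ ratEq Ω (Pl A B) := by
  classical
  have hcl : IsAlgClosed Ω := IsAlgClosure.isAlgClosed k
  have hchM : CharZero M := charZero_of_injective_algebraMap (algebraMap k M).injective
  have hchΩ : CharZero Ω := charZero_of_injective_algebraMap (algebraMap k Ω).injective
  have hp0 : p ≠ 0 := by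
    obtain ⟨x, hx, -⟩ := h
    exact hx.ne_zero
  have hp0' : p' ≠ 0 := by
    obtain ⟨x, hx, -⟩ := h'
    exact hx.ne_zero
  -- the generic point of the line
  obtain ⟨w, hw⟩ : ∃ w : Fin n → RatFunc M, w = fun j => algebraMap M (RatFunc M) (p j) +
      RatFunc.X * algebraMap M (RatFunc M) (p' j) := ⟨_, rfl⟩
  have hwX : ¬ Zer (Pl A B) (RatFunc M) w := by
    rw [hw]
    exact gen_ne p' h.ne
  have hw0 : w ≠ 0 := by
    rintro h0
    apply hwX
    rw [h0, zer_iff]
    have h2 : ∀ H : Matrix (Fin n) (Fin n) k, qv H (0 : Fin n → RatFunc M) = 0 := by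
      intro H
      have := qv_smul H (0 : RatFunc M) (0 : Fin n → RatFunc M)
      rw [smul_zero] at this
      rw [this]
      ring
    exact ⟨h2 A, h2 B⟩
  have hz : IsPush k Ω (RatFunc.X : RatFunc M) w
      (trPt k Ω (Projectivization.mk M p hp0) - trPt k Ω (Projectivization.mk M p' hp0')) := by
    have h1 := push_curve (k := k) (Ω := Ω) 1
      (fun a => Nat.rec (motive := fun _ => Fin n → M) p (fun _ _ => p') a) hp0 hp0'
    have h2 : (fun j => ∑ a ∈ Finset.range (1 + 1), (RatFunc.X : RatFunc M) ^ a *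
        algebraMap M (RatFunc M)
          ((Nat.rec (motive := fun _ => Fin n → M) p (fun _ _ => p') a : Fin n → M) j)) = w := by
      rw [hw]
      funext j
      rw [Finset.sum_range_succ, Finset.sum_range_one, pow_zero, one_mul, pow_one]
      rfl
    rw [h2] at h1
    exact h1
  -- a line over an extension
  obtain ⟨C, φ, hφ⟩ := exists_form (k := k) (by omega : 2 ≤ n) (A := A) (B := B) hw0
  obtain ⟨d, hd, E', i1, i2, i3, i4, hE', θ, v, hθ, hv, hq, hlift⟩ :=
    norm_lift hG (isFunField_ratFunc k M) (g := RatFunc.X) (gen_X M).ne_zero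
      (by omega : 5 ≤ n - 2) φ hw0 hz D hD
  have hch : CharZero E' := charZero_of_injective_algebraMap (algebraMap k E').injective
  have hL := hφ E' v hv hq
  obtain ⟨x, hx⟩ : ∃ x : Fin n → E', x = fun i => ∑ j, algebraMap (RatFunc M) E' (C i j) * v j :=
    ⟨_, rfl⟩
  obtain ⟨w', hw'⟩ : ∃ w' : Fin n → E', w' = fun i => algebraMap (RatFunc M) E' (w i) := ⟨_, rfl⟩
  rw [← hx, ← hw'] at hL
  rw [← hw'] at hlift
  have hqv : ∀ H : Matrix (Fin n) (Fin n) k, qv H w' = algebraMap (RatFunc M) E' (qv H w) := by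
    intro H
    rw [hw']
    exact qv_hom (IsScalarTower.toAlgHom k (RatFunc M) E') w
  obtain ⟨H, hH, hHw⟩ : ∃ H : Matrix (Fin n) (Fin n) k, (H = A ∨ H = B) ∧ qv H w' ≠ 0 := by
    by_contra hcon
    push Not at hcon
    apply hwX
    rw [zer_iff]
    have h1 := hcon A (Or.inl rfl)
    have h2 := hcon B (Or.inr rfl)
    rw [hqv] at h1 h2
    exact ⟨(map_eq_zero _).1 h1, (map_eq_zero _).1 h2⟩
  have hT : tn H w' x ≠ 0 := tn_ne_zero hL.ind hHw
  have hIsT : IsT A B w' (Projectivization.mk E' (tn H w' x) hT) :=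
    ⟨x, hL, H, hH, hHw, hT, rfl⟩
  obtain ⟨y, hy1, hy2⟩ := hlift (n * n) (tn H w' x) hT
  have hy3 : PhL (Finsupp.mapDomain Prod.snd y) ∈ ratEq Ω (Pl A B) :=
    cor hE' hθ hT hIsT (push_snd hy2)
  -- the points of the cycle
  have hy4 : ∀ z ∈ y.support, IsT A B z.1.rep z.2 := by
    let : Algebra M E' :=
      ((algebraMap (RatFunc M) E').comp (algebraMap M (RatFunc M))).toAlgebra
    have hME : ∀ a : M, algebraMap M E' a =
        algebraMap (RatFunc M) E' (algebraMap M (RatFunc M) a) := fun a => rfl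
    have : IsScalarTower k M E' := IsScalarTower.of_algebraMap_eq fun a => by
      rw [hME, ← IsScalarTower.algebraMap_apply k M (RatFunc M),
        ← IsScalarTower.algebraMap_apply k (RatFunc M) E']
    have hw2 : w' = fun j => algebraMap M E' (p j) +
        algebraMap (RatFunc M) E' RatFunc.X * algebraMap M E' (p' j) := by
      rw [hw', hw]
      funext j
      rw [map_add, map_mul, hME, hME]
    obtain ⟨S, m, xx, h1, h2, rfl⟩ := hy2
    refine supp_sum S xx m (fun z => IsT A B z.1.rep z.2) fun u hu => ?_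
    obtain ⟨-, h3, h4⟩ := h2 u hu
    refine hIsT.val hT h3 ?_ h4
    rw [hw2] at h3
    exact hav.val u _ h3
  -- the difference with the traces
  have hinv : ∀ (σ : Ω ≃ₐ[k] Ω) (z : Pt2 Ω n (n * n)), y (mapPt2 (σ : Ω →+* Ω) z) = y z := by
    intro σ z
    have h1 := hy2.inv σ
    have h2 : Finsupp.mapDomain (perm2 σ) y (perm2 σ z) = y z :=
      Finsupp.mapDomain_apply (perm2 σ).injective _ _
    rw [h1] at h2
    exact h2
  set P := Projectivization.mk M p hp0 with hP
  set P' := Projectivization.mk M p' hp0' with hP'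
  have hfib := fib_mem (A := A) (B := B) hI hn
    (y - (d • ZCTr.tr2 k Ω P t - d • ZCTr.tr2 k Ω P' t')) (fun σ z => by
      have e1 := ZCTr.tr2_inv Ω P t σ z
      have e2 := ZCTr.tr2_inv Ω P' t' σ z
      rw [Finsupp.sub_apply, Finsupp.sub_apply, Finsupp.smul_apply, Finsupp.smul_apply,
        Finsupp.sub_apply, Finsupp.sub_apply, Finsupp.smul_apply, Finsupp.smul_apply, hinv σ z]
      rw [mapPt2, e1, e2]) (fun z hz' => by
      by_contra hcon
      apply Finsupp.mem_support_iff.1 hz'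
      have e0 : y z = 0 := by
        by_contra h1
        exact hcon (hy4 z (Finsupp.mem_support_iff.2 h1))
      have e1 : ZCTr.tr2 k Ω P t z = 0 := by
        by_contra h1
        obtain ⟨σ, rfl⟩ := ZCTr.mem_supp_tr2 Ω (Finsupp.mem_support_iff.2 h1)
        exact hcon (isT_conj hp0 h σ)
      have e2 : ZCTr.tr2 k Ω P' t' z = 0 := by
        by_contra h1
        obtain ⟨σ, rfl⟩ := ZCTr.mem_supp_tr2 Ω (Finsupp.mem_support_iff.2 h1)
        exact hcon (isT_conj hp0' h' σ)
      rw [Finsupp.sub_apply, Finsupp.sub_apply, Finsupp.smul_apply, Finsupp.smul_apply, e0, e1,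
        e2, smul_zero, sub_zero, sub_zero]) (by
      have e1 : pushW Ω (ZCTr.tr2 k Ω P t) = trPt k Ω P := ZCTr.fst_tr2 Ω P t
      have e2 : pushW Ω (ZCTr.tr2 k Ω P' t') = trPt k Ω P' := ZCTr.fst_tr2 Ω P' t'
      rw [map_sub, map_sub, map_nsmul, map_nsmul, e1, e2, hy1, smul_sub, sub_self])
  have s1 : Finsupp.mapDomain Prod.snd (ZCTr.tr2 k Ω P t) = trPt k Ω t :=
    ZCTr.mapDomain_trG _ _
  have s2 : Finsupp.mapDomain Prod.snd (ZCTr.tr2 k Ω P' t') = trPt k Ω t' :=
    ZCTr.mapDomain_trG _ _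
  have e : Finsupp.mapDomain Prod.snd
      (y - (d • ZCTr.tr2 k Ω P t - d • ZCTr.tr2 k Ω P' t')) =
      Finsupp.mapDomain Prod.snd y - (d • trPt k Ω t - d • trPt k Ω t') := by
    have e3 : ∀ z : Pt2 Ω n (n * n) →₀ ℤ, Finsupp.mapDomain Prod.snd z =
        Finsupp.mapDomain.addMonoidHom Prod.snd z := fun z => rfl
    rw [← s1, ← s2]
    simp only [e3, map_sub, map_nsmul]
  rw [e, map_sub, map_sub, map_nsmul, map_nsmul] at hfib
  refine ⟨d, hd, ?_⟩
  have h5 := sub_mem hy3 hfib
  rw [sub_sub_cancel, ← smul_sub] at h5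
  exact h5

end Tq
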