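import Pool.Agent.Lib.MP_f80667_ag.Tq.GenA
import Pool.Agent.Lib.MP_f80667_ag.Tq.TwoB

/-! Lines which do not meet `X`. -/

open scoped LinearAlgebra.Projectivization

namespace Tq

open ZC

universe u

variable {k : Type u} [Field k] [CharZero k] {Ω : Type u} [Field Ω] [Algebra k Ω]
  {n : ℕ} {A B : Matrix (Fin n) (Fin n) k}

variable {M : Type u} [Field M] [Algebra k M]

/-- The line through `p` and `y` does not meet `X`. Proof: if `a p + b y` is on `X` (over `Ω`) then
`Qp A B p (a p + b y) = b ^ 2 Qp A B p y` is `0` (`Qp` vanishes at the points of `X`), so `b = 0`,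
`a ≠ 0` and `p` is on `X`. -/
theorem av_of {p y : Fin n → M} (hp : ¬ Zer (Pl A B) M p) (h1 : Bp A B p p y = 0)
    (h2 : Qp A B p y ≠ 0) : Av Ω A B p y := by
  intro σ a b hab hz
  have e : (fun i => a * σ (p i) + b * σ (y i)) =
      a • (fun i => σ (p i)) + b • (fun i => σ (y i)) := by
    funext i
    simp
  have hz' := (zer_iff A B).1 hz
  have h3 : Qp A B (fun i => σ (p i)) (fun i => a * σ (p i) + b * σ (y i)) = 0 := by
    rw [Qp, hz'.1, hz'.2]
    ring
  rw [e, Qp_lin, Qp_self, Bp_hom, h1, Qp_hom, map_zero] at h3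
  have h4 : b ^ 2 * σ (Qp A B p y) = 0 := by linear_combination h3
  have h5 : b = 0 := by
    rcases mul_eq_zero.1 h4 with h5 | h5
    · exact pow_eq_zero_iff (two_ne_zero) |>.1 h5
    · exact absurd ((map_eq_zero σ).1 h5) h2
  have ha : a ≠ 0 := by
    rcases hab with ha | hb
    · exact ha
    · exact absurd h5 hb
  apply hp
  rw [zer_iff]
  have key : ∀ H : Matrix (Fin n) (Fin n) k,
      qv H (fun i => a * σ (p i) + b * σ (y i)) = 0 → qv H p = 0 := by
    intro H hH
    rw [e, h5, zero_smul, add_zero, qv_smul, qv_hom] at hH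
    exact (map_eq_zero σ).1 ((mul_eq_zero.1 hH).resolve_left (pow_ne_zero 2 ha))
  exact ⟨key A hz'.1, key B hz'.2⟩

theorem Av.symm {p y : Fin n → M} (h : Av Ω A B p y) : Av Ω A B y p := by
  intro σ a b hab hz
  refine h σ b a hab.symm ?_
  have : (fun i => b * σ (p i) + a * σ (y i)) = fun i => a * σ (y i) + b * σ (p i) := by
    funext i
    ring
  rw [this]
  exact hz

/-- A point which is joined to two given points by lines which do not meet `X`. Proof: `U` = the
space of the `y` with `Bp p p y = Bp p' p' y = 0` has dimension `≥ n - 2`; by `no_sub` neither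
`Qp A B p` nor `Qp A B p'` vanishes on `U`; a line `y + s y'`, `Qp p y ≠ 0`, `Qp p' y' ≠ 0`, has
points where both are `≠ 0` (two nonzero polynomials of degree `≤ 2` in `s`, `M` infinite). -/
theorem exists_avoid [IsAlgClosed Ω] (hs : Sm Ω A B) (σ : M →ₐ[k] Ω) (hn : 6 ≤ n)
    {p p' : Fin n → M} (hp : ¬ Zer (Pl A B) M p) (hp' : ¬ Zer (Pl A B) M p') :
    ∃ y : Fin n → M, Av Ω A B p y ∧ Av Ω A B p' y ∧ ¬ Zer (Pl A B) M y := by
  classical
  -- the linear functional `Bp p p`
  let L : (Fin n → M) → (Fin n → M) →ₗ[M] M := fun q =>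
    { toFun := fun y => Bp A B q q y
      map_add' := fun x y => Bp_add q q x y
      map_smul' := fun c y => by rw [Bp_smul]; rfl }
  let U : Submodule M (Fin n → M) := LinearMap.ker ((L p).prod (L p'))
  have hU : ∀ y ∈ U, Bp A B p p y = 0 ∧ Bp A B p' p' y = 0 := by
    intro y hy
    have h1 := LinearMap.mem_ker.1 hy
    exact ⟨congrArg Prod.fst h1, congrArg Prod.snd h1⟩
  have hdim : n ≤ Module.finrank M U + 2 := by
    have h1 := LinearMap.finrank_range_add_finrank_ker ((L p).prod (L p'))
    have h2 : Module.finrank M (LinearMap.range ((L p).prod (L p'))) ≤ 2 := by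
      have h3 := Submodule.finrank_le (LinearMap.range ((L p).prod (L p')))
      have h4 : Module.finrank M (M × M) = 2 := by
        rw [Module.finrank_prod, Module.finrank_self]
      omega
    have h5 : Module.finrank M (Fin n → M) = n := by simp
    change n ≤ Module.finrank M (LinearMap.ker ((L p).prod (L p'))) + 2
    omega
  have hne : ∀ q : Fin n → M, ¬ Zer (Pl A B) M q → ∃ y ∈ U, Qp A B q y ≠ 0 := by
    intro q hq
    have hq' : qv B q ≠ 0 ∨ - qv A q ≠ 0 := by
      by_contra hcon
      push Not at hcon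
      exact hq ((zer_iff A B).2 ⟨neg_eq_zero.1 hcon.2, hcon.1⟩)
    obtain ⟨y, hy, h1⟩ := no_sub hs σ hn U hdim hq'
    refine ⟨y, hy, fun h0 => h1 ?_⟩
    rw [Qp] at h0
    linear_combination h0
  obtain ⟨u, hu, hu'⟩ := hne p hp
  obtain ⟨v, hv, hv'⟩ := hne p' hp'
  -- a point of the line through `u` and `v`
  obtain ⟨y, hy, h1, h2⟩ : ∃ y ∈ U, Qp A B p y ≠ 0 ∧ Qp A B p' y ≠ 0 := by
    have hchar : CharZero M := charZero_of_injective_algebraMap (algebraMap k M).injective
    let f : Polynomial M := Polynomial.C (Qp A B p u) + Polynomial.C (Bp A B p u v) *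
      Polynomial.X + Polynomial.C (Qp A B p v) * Polynomial.X ^ 2
    let g : Polynomial M := Polynomial.C (Qp A B p' u) + Polynomial.C (Bp A B p' u v) *
      Polynomial.X + Polynomial.C (Qp A B p' v) * Polynomial.X ^ 2
    have hf : f ≠ 0 := by
      intro h0
      have h1 := congrArg (Polynomial.eval 0) h0
      simp [f] at h1
      exact hu' h1
    have hg : g ≠ 0 := by
      intro h0
      have h1 := congrArg (fun r => Polynomial.coeff r 2) h0
      simp [g, Polynomial.coeff_X, Polynomial.coeff_C] at h1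
      exact hv' h1
    obtain ⟨s, hs⟩ : ∃ s : M, (f * g).eval s ≠ 0 := by
      by_contra hcon
      push Not at hcon
      exact mul_ne_zero hf hg (Polynomial.funext fun s => by rw [hcon s, Polynomial.eval_zero])
    rw [Polynomial.eval_mul] at hs
    refine ⟨(1 : M) • u + s • v, U.add_mem (U.smul_mem _ hu) (U.smul_mem _ hv), ?_, ?_⟩
    · intro h0
      apply (mul_ne_zero_iff.1 hs).1
      rw [Qp_lin] at h0
      simp only [f, Polynomial.eval_add, Polynomial.eval_mul, Polynomial.eval_C,
        Polynomial.eval_X, Polynomial.eval_pow]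
      linear_combination h0
    · intro h0
      apply (mul_ne_zero_iff.1 hs).2
      rw [Qp_lin] at h0
      simp only [g, Polynomial.eval_add, Polynomial.eval_mul, Polynomial.eval_C,
        Polynomial.eval_X, Polynomial.eval_pow]
      linear_combination h0
  refine ⟨y, av_of hp (hU y hy).1 h1, av_of hp' (hU y hy).2 h2, fun h0 => h1 ?_⟩
  rw [Qp, ((zer_iff A B).1 h0).1, ((zer_iff A B).1 h0).2]
  ring

end Tq
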