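import Pool.Agent.Lib.MP_f80667_ag.Tq.LinA
import Pool.Agent.Lib.MP_f80667_ag.Fa.Lift
import Pool.Agent.Lib.MP_f80667_ag.Fa.Inv

/-! Lines in the members of a pencil of quadrics specialise. -/

open scoped LinearAlgebra.Projectivization

namespace Tq

open ZC

universe u

section place

variable {k : Type u} [Field k] [CharZero k] {n : ℕ} {A B : Matrix (Fin n) (Fin n) k}
  {E Ω : Type u} [Field E] [Algebra k E] [Field Ω] [Algebra k Ω]

omit [CharZero k] in
private theorem linB_val {w : Place k E Ω} {m : ℕ} {q : Fin m → E} (y : Fin m → w.V)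
    (hy : ∀ i, (y i : E) = q i) (h0 : (fun i => w.res (y i)) ≠ 0) :
    w.IsVal q (Projectivization.mk Ω (fun i => w.res (y i)) h0) := by
  have hc : ∀ i, 1 * q i ∈ w.V := fun i => by
    rw [one_mul, ← hy i]
    exact (y i).2
  have e : (fun i => w.res ⟨1 * q i, hc i⟩) = fun i => w.res (y i) := by
    funext i
    congr 1
    apply Subtype.ext
    show 1 * q i = (y i : E)
    rw [one_mul, hy i]
  have h1 : (fun i => w.res ⟨1 * q i, hc i⟩) ≠ 0 := by
    rw [e]
    exact h0
  refine ⟨1, hc, h1, ?_⟩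
  congr 1
  exact e.symm

/-- The tensor of the values of two points is the value of the tensor. Proof: `c a`, `d b` with
coordinates in `w.V`; multiply `sq a b` by `c d` (`sq_smul`, `sq_comm`); the residues give
`sq ᾱ β̄ ≠ 0` (`sq_ne_zero`, `w.res` is a ring homomorphism on `w.V`: `sq_map` for `w.res`). -/
theorem isVal_sq [CharZero Ω] {w : Place k E Ω} {a b : Fin n → E} {α β : ℙ Ω (Fin n → Ω)}
    (hα : w.IsVal a α) (hβ : w.IsVal b β) :
    ∃ hs : sq α.rep β.rep ≠ 0, w.IsVal (sq a b) (Projectivization.mk Ω (sq α.rep β.rep) hs) := by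
  refine ⟨sq_ne_zero α.rep_nonzero β.rep_nonzero, ?_⟩
  obtain ⟨c, hc, h0, rfl⟩ := hα
  obtain ⟨d, hd, h0', rfl⟩ := hβ
  set aV : Fin n → w.V := fun i => ⟨c * a i, hc i⟩ with haV
  set bV : Fin n → w.V := fun i => ⟨d * b i, hd i⟩ with hbV
  obtain ⟨s, hs⟩ := Projectivization.exists_smul_eq_mk_rep Ω (fun i => w.res (aV i)) h0
  obtain ⟨s', hs'⟩ := Projectivization.exists_smul_eq_mk_rep Ω (fun i => w.res (bV i)) h0'
  have hsq := sq_ne_zero h0 h0'
  have hmap : (fun j => w.res (sq aV bV j)) = sq (fun i => w.res (aV i)) (fun i => w.res (bV i)) :=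
    sq_map w.res aV bV
  have hne : (fun j => w.res (sq aV bV j)) ≠ 0 := by
    rw [hmap]
    exact hsq
  have hcd : c * d ≠ 0 := by
    intro h
    rcases mul_eq_zero.1 h with h | h
    · apply h0
      funext i
      show w.res (aV i) = 0
      have : aV i = 0 := by
        apply Subtype.ext
        show c * a i = 0
        rw [h, zero_mul]
      rw [this, map_zero]
    · apply h0'
      funext i
      show w.res (bV i) = 0
      have : bV i = 0 := by
        apply Subtype.ext
        show d * b i = 0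
        rw [h, zero_mul]
      rw [this, map_zero]
  have hval : w.IsVal ((c * d) • sq a b)
      (Projectivization.mk Ω (fun j => w.res (sq aV bV j)) hne) := by
    refine linB_val (sq aV bV) (fun j => ?_) hne
    obtain ⟨⟨i, l⟩, rfl⟩ := finProdFinEquiv.surjective j
    rw [sq_apply, Pi.smul_apply, sq_apply, smul_eq_mul]
    show c * a i * (d * b l) + d * b i * (c * a l) = c * d * (a i * b l + b i * a l)
    ring
  obtain ⟨e, he, he0, hee⟩ := hval
  have hval' : w.IsVal (sq a b) (Projectivization.mk Ω (fun j => w.res (sq aV bV j)) hne) := by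
    have e1 : ∀ j, e * (c * d) * sq a b j = e * ((c * d) • sq a b) j := fun j => by
      rw [Pi.smul_apply, smul_eq_mul, mul_assoc]
    have he' : ∀ j, e * (c * d) * sq a b j ∈ w.V := fun j => by
      rw [e1 j]
      exact he j
    have e2 : (fun j => w.res ⟨e * (c * d) * sq a b j, he' j⟩) =
        fun j => w.res ⟨e * ((c * d) • sq a b) j, he j⟩ := by
      funext j
      congr 1
      exact Subtype.ext (e1 j)
    refine ⟨e * (c * d), he', by rw [e2]; exact he0, ?_⟩
    rw [hee]
    congr 1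
    exact e2.symm
  have hfin : Projectivization.mk Ω (fun j => w.res (sq aV bV j)) hne =
      Projectivization.mk Ω (sq (Projectivization.mk Ω (fun i => w.res (aV i)) h0).rep
        (Projectivization.mk Ω (fun i => w.res (bV i)) h0').rep)
        (sq_ne_zero (Projectivization.rep_nonzero _) (Projectivization.rep_nonzero _)) := by
    symm
    rw [Projectivization.mk_eq_mk_iff']
    refine ⟨(s : Ω) * (s' : Ω), ?_⟩
    rw [hmap, ← hs, ← hs', Units.smul_def, Units.smul_def, sq_smul, sq_comm _ ((s' : Ω) • _),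
      sq_smul, smul_smul, sq_comm (fun i => w.res (bV i))]
  rw [hfin] at hval'
  exact hval'

/-- The value of a nonzero multiple. -/
theorem isVal_smul {m : ℕ} {w : Place k E Ω} {p : Fin m → E} {c : E} (hc : c ≠ 0)
    {x : ℙ Ω (Fin m → Ω)} : w.IsVal (c • p) x ↔ w.IsVal p x := by
  have key : ∀ (p q : Fin m → E) (c d : E) (hpq : ∀ i, c * p i = d * q i)
      (hc : ∀ i, c * p i ∈ w.V) (h0 : (fun i => w.res ⟨c * p i, hc i⟩) ≠ 0),
      w.IsVal q (Projectivization.mk Ω (fun i => w.res ⟨c * p i, hc i⟩) h0) := by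
    intro p q c d hpq hc h0
    have hd : ∀ i, d * q i ∈ w.V := fun i => by
      rw [← hpq i]
      exact hc i
    have e : (fun i => w.res ⟨d * q i, hd i⟩) = fun i => w.res ⟨c * p i, hc i⟩ := by
      funext i
      congr 1
      exact Subtype.ext (hpq i).symm
    refine ⟨d, hd, by rw [e]; exact h0, ?_⟩
    congr 1
    exact e.symm
  constructor
  · rintro ⟨d, hd, h0, rfl⟩
    refine key (c • p) p d (d * c) (fun i => ?_) hd h0
    rw [Pi.smul_apply, smul_eq_mul, mul_assoc]
  · rintro ⟨d, hd, h0, rfl⟩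
    refine key p (c • p) d (d * c⁻¹) (fun i => ?_) hd h0
    rw [Pi.smul_apply, smul_eq_mul]
    field_simp

/-- **Lines specialise.** Proof. Multiply `p` by a constant: `p_i = 1` for some `i` and all
coordinates in `w.V` (`w.IsVal p P`: some coordinate of `c p` is a unit). Replace `x` by
`x - x_i p` (`Ln.lin`, `tn_lin`), so `x_i = 0`, and by a multiple with all coordinates in `w.V`, not
all in the maximal ideal (as in `Place.exists_isVal`). The residues `p̄`, `x̄` are independent
(`p̄_i = 1`, `x̄_i = 0`, `x̄ ≠ 0`), `Ln A B p̄ x̄` because `w.res` is a `k`-algebra homomorphism on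
`w.V` (`Qp_hom`, `Bp_hom` for the subalgebra, or by hand). As `[p̄] = P` is not on `X`,
`qv H' p̄ ≠ 0` for `H' = A` or `B`; `tn H' p̄ x̄ ≠ 0` (`tn_ne_zero`) is the residue of `tn H' p x`,
which is a nonzero multiple of `tn H p x` (`Ln.tn`). Uniqueness of the value: `IsVal.unique`. -/
theorem IsT.val [CharZero Ω] {w : Place k E Ω} {p : Fin n → E} {t : Fin (n * n) → E} (ht : t ≠ 0)
    (h : IsT A B p (Projectivization.mk E t ht)) {P : ℙ Ω (Fin n → Ω)} (hP : w.IsVal p P)
    (hX : ¬ Zer (Pl A B) Ω P.rep) {τ : ℙ Ω (Fin (n * n) → Ω)} (hτ : w.IsVal t τ) :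
    IsT A B P.rep τ := by
  obtain ⟨x, hL, H, hH, hpH, h0, hmk⟩ := h
  rw [Projectivization.mk_eq_mk_iff'] at hmk
  obtain ⟨s, hst⟩ := hmk
  have hs0 : s ≠ 0 := by
    rintro rfl
    rw [zero_smul] at hst
    exact ht hst.symm
  obtain ⟨c, hc, hp0, rfl⟩ := hP
  obtain ⟨i0, hi0⟩ := Function.ne_iff.1 hp0
  have hi0' : w.res ⟨c * p i0, hc i0⟩ ≠ 0 := hi0
  have hcp : c * p i0 ≠ 0 := by
    intro h
    apply hi0'
    have : (⟨c * p i0, hc i0⟩ : w.V) = 0 := Subtype.ext h
    rw [this, map_zero]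
  have hc0 : c ≠ 0 := left_ne_zero_of_mul hcp
  have hpi : p i0 ≠ 0 := right_ne_zero_of_mul hcp
  -- the second point
  have hx1 : (-(x i0 / p i0)) • p + (1 : E) • x ≠ 0 := by
    intro h
    exact one_ne_zero (LinearIndependent.pair_iff.1 hL.ind _ _ h).2
  obtain ⟨X, d, hd, hx0, -⟩ := w.exists_isVal hx1
  have hd0 : d ≠ 0 := by
    rintro rfl
    apply hx0
    funext i
    show w.res _ = 0
    have : (⟨0 * ((-(x i0 / p i0)) • p + (1 : E) • x) i, hd i⟩ : w.V) = 0 :=
      Subtype.ext (zero_mul _)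
    rw [this, map_zero]
  obtain ⟨j0, hj0⟩ := Function.ne_iff.1 hx0
  let : Algebra k w.V := ((algebraMap k E).codRestrict w.V.toSubring w.mem).toAlgebra
  let φ : w.V →ₐ[k] E := { w.V.subtype with commutes' := fun a => rfl }
  let ψ : w.V →ₐ[k] Ω := { w.res with commutes' := fun a => w.res_k a }
  have hφ : Function.Injective φ := Subtype.val_injective
  set pV : Fin n → w.V := fun i => ⟨c * p i, hc i⟩ with hpV
  set xV : Fin n → w.V := fun i => ⟨d * ((-(x i0 / p i0)) • p + (1 : E) • x) i, hd i⟩ with hxV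
  have hφp : (fun i => φ (pV i)) = c • p := rfl
  have hφx : (fun i => φ (xV i)) = (d * -(x i0 / p i0)) • p + d • x := by
    funext i
    show d * ((-(x i0 / p i0)) * p i + 1 * x i) = d * -(x i0 / p i0) * p i + d * x i
    ring
  have hL1 : Ln A B (fun i => φ (pV i)) (fun i => φ (xV i)) := by
    rw [hφp, hφx]
    exact hL.lin hc0 hd0
  have hxi : xV i0 = 0 := by
    apply Subtype.ext
    show d * ((-(x i0 / p i0)) * p i0 + 1 * x i0) = 0
    field_simp
    ring
  have hL2 : Ln A B (fun i => ψ (pV i)) (fun i => ψ (xV i)) := by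
    refine ⟨ind_of_minor (i := i0) (j := j0) ?_, ?_, ?_⟩
    · rw [hxi, map_zero, mul_zero]
      exact mul_ne_zero hi0' hj0
    · rw [Qp_hom]
      have h1 : Qp A B pV xV = 0 := by
        apply hφ
        rw [← Qp_hom, hL1.q, map_zero]
      rw [h1, map_zero]
    · rw [Bp_hom]
      have h1 : Bp A B pV pV xV = 0 := by
        apply hφ
        rw [← Bp_hom, hL1.b, map_zero]
      rw [h1, map_zero]
  -- the form
  obtain ⟨r, hr⟩ := Projectivization.exists_smul_eq_mk_rep Ω (fun i => w.res (pV i)) hp0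
  have hH' : ∃ H' : Matrix (Fin n) (Fin n) k, (H' = A ∨ H' = B) ∧
      qv H' (fun i => ψ (pV i)) ≠ 0 := by
    by_contra hcon
    push Not at hcon
    apply hX
    rw [← hr, zer_iff, Units.smul_def, qv_smul, qv_smul]
    have e1 : qv A (fun i => w.res (pV i)) = 0 := hcon A (Or.inl rfl)
    have e2 : qv B (fun i => w.res (pV i)) = 0 := hcon B (Or.inr rfl)
    rw [e1, e2, mul_zero]
    exact ⟨rfl, rfl⟩
  obtain ⟨H', hH', hq'⟩ := hH'
  have hqp : qv H' p ≠ 0 := by
    intro h
    apply hq'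
    rw [qv_hom]
    have h1 : qv H' pV = 0 := by
      apply hφ
      rw [← qv_hom, hφp, qv_smul, h, mul_zero, map_zero]
    rw [h1, map_zero]
  have hpr : ∃ e : E, e ≠ 0 ∧ tn H' p x = e • tn H p x := by
    have h1 := hL.tn
    rcases hH with rfl | rfl <;> rcases hH' with rfl | rfl
    · exact ⟨1, one_ne_zero, (one_smul _ _).symm⟩
    · refine ⟨qv H' p / qv H p, div_ne_zero hqp hpH, ?_⟩
      rw [div_eq_inv_mul, mul_smul, h1, smul_smul, inv_mul_cancel₀ hpH, one_smul]
    · refine ⟨qv H' p / qv H p, div_ne_zero hqp hpH, ?_⟩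
      rw [div_eq_inv_mul, mul_smul, ← h1, smul_smul, inv_mul_cancel₀ hpH, one_smul]
    · exact ⟨1, one_ne_zero, (one_smul _ _).symm⟩
  obtain ⟨e, he, hee⟩ := hpr
  have htn := tn_ne_zero (H := H') hL2.ind hq'
  have hψ : (fun j => w.res (tn H' pV xV j)) = tn H' (fun i => ψ (pV i)) (fun i => ψ (xV i)) :=
    (tn_hom ψ pV xV).symm
  have hne : (fun j => w.res (tn H' pV xV j)) ≠ 0 := by
    rw [hψ]
    exact htn
  have hval : w.IsVal ((c ^ 2 * d ^ 2 * (e * s⁻¹)) • t)
      (Projectivization.mk Ω (fun j => w.res (tn H' pV xV j)) hne) := by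
    refine linB_val (tn H' pV xV) (fun j => ?_) hne
    have h1 : (fun j => φ (tn H' pV xV j)) = tn H' (c • p) ((d * -(x i0 / p i0)) • p + d • x) := by
      rw [← tn_hom, hφp, hφx]
    have h2 := congrFun h1 j
    rw [tn_lin, hee, ← smul_smul] at h2
    have h3 : (φ (tn H' pV xV j) : E) = ((tn H' pV xV j : w.V) : E) := rfl
    rw [← h3, h2, ← hst]
    simp only [Pi.smul_apply, smul_eq_mul]
    field_simp
  rw [isVal_smul (mul_ne_zero (mul_ne_zero (pow_ne_zero 2 hc0) (pow_ne_zero 2 hd0))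
    (mul_ne_zero he (inv_ne_zero hs0)))] at hval
  have hτ' := hτ.unique hval
  have hfin : IsT A B (fun i => w.res (pV i)) τ := by
    refine ⟨fun i => ψ (xV i), hL2, H', hH', hq', htn, ?_⟩
    rw [hτ']
    congr 1
  rw [← hr, Units.smul_def]
  exact hfin.smul r.ne_zero

end place

end Tq
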