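import Pool.Agent.Lib.MP_f80667_ag.Tq.Defs

/-! Lines in the members of a pencil of quadrics: algebra. -/

open Polynomial
open scoped LinearAlgebra.Projectivization

namespace Tq

open ZC

universe u

section lin

variable {k : Type u} [Field k] [CharZero k] {n : ℕ} {A B : Matrix (Fin n) (Fin n) k}
  {E E' : Type u} [Field E] [Algebra k E] [Field E'] [Algebra k E']

omit [CharZero k] in
/-- `IsT` depends on the point `[p]` only. Proof: `Ln.lin` and `tn_lin` with `c = 0`, `d = 1`. -/
theorem IsT.smul {p : Fin n → E} {t : ℙ E (Fin (n * n) → E)} (h : IsT A B p t) {c : E}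
    (hc : c ≠ 0) : IsT A B (c • p) t := by
  obtain ⟨x, hL, H, hH, hp, h0, ht⟩ := h
  have h1 : tn H (c • p) ((0 : E) • p + (1 : E) • x) = (c ^ 2 * 1 ^ 2) • tn H p x :=
    tn_lin c 0 1 p x
  have hc2 : c ^ 2 * (1 : E) ^ 2 ≠ 0 := by
    rw [one_pow, mul_one]
    exact pow_ne_zero 2 hc
  refine ⟨(0 : E) • p + (1 : E) • x, hL.lin hc one_ne_zero, H, hH, ?_, ?_, ?_⟩
  · rw [qv_smul]
    exact mul_ne_zero (pow_ne_zero 2 hc) hp
  · rw [h1]
    exact smul_ne_zero hc2 h0
  · rw [ht, Projectivization.mk_eq_mk_iff']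
    refine ⟨(c ^ 2 * (1 : E) ^ 2)⁻¹, ?_⟩
    rw [h1, smul_smul, inv_mul_cancel₀ hc2, one_smul]

omit [CharZero k] in
/-- A nonzero minor. -/
theorem ind_of_minor {F : Type*} [Field F] {p x : Fin n → F} {i j : Fin n}
    (h : p i * x j ≠ p j * x i) : LinearIndependent F ![p, x] := by
  rw [LinearIndependent.pair_iff]
  intro s t hst
  have hi : s * p i + t * x i = 0 := congrFun hst i
  have hj : s * p j + t * x j = 0 := congrFun hst j
  have hd : p i * x j - p j * x i ≠ 0 := sub_ne_zero.2 h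
  constructor
  · have : (p i * x j - p j * x i) * s = 0 := by linear_combination (x j) * hi - (x i) * hj
    exact (mul_eq_zero.1 this).resolve_left hd
  · have : (p i * x j - p j * x i) * t = 0 := by linear_combination (p i) * hj - (p j) * hi
    exact (mul_eq_zero.1 this).resolve_left hd

omit [CharZero k] in
/-- Extension of the field. -/
theorem Ln.hom (f : E →ₐ[k] E') {p x : Fin n → E} (h : Ln A B p x) :
    Ln A B (fun i => f (p i)) (fun i => f (x i)) := by
  obtain ⟨i, j, hij⟩ := exists_minor h.ind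
  refine ⟨ind_of_minor (i := i) (j := j) ?_, ?_, ?_⟩
  · intro h0
    apply hij
    apply (f : E →+* E').injective
    simpa only [RingHom.coe_coe, map_mul] using h0
  · rw [Qp_hom, h.q, map_zero]
  · rw [Bp_hom, h.b, map_zero]

omit [CharZero k] in
/-- Extension of the field. Proof: `LinearIndependent` of a pair = some `2 × 2` minor is not `0`
(`exists_minor`), `Qp_hom`, `Bp_hom`, `tn_hom`, `qv_hom`; `mapPt` of `mk` is `mk` of the image
(`ZC.mapPt_mk` in `ZC.Rel` or `ZCTr.mapPt_mk`). -/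
theorem IsT.hom (f : E →ₐ[k] E') {p : Fin n → E} {t : ℙ E (Fin (n * n) → E)} (h : IsT A B p t) :
    IsT A B (fun i => f (p i)) (mapPt (f : E →+* E') t) := by
  obtain ⟨x, hL, H, hH, hp, h0, ht⟩ := h
  have h1 := tn_hom (H := H) f p x
  refine ⟨fun i => f (x i), hL.hom f, H, hH, ?_, ?_, ?_⟩
  · rw [qv_hom]
    exact (map_ne_zero_iff _ (f : E →+* E').injective).2 hp
  · rw [h1]
    intro h2
    apply h0
    funext c
    have h3 := congrFun h2 c
    exact (map_eq_zero_iff _ (f : E →+* E').injective).1 h3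
  · rw [ht, mapPt_mk]
    congr 1
    exact h1.symm

omit [CharZero k] in
/-- The two points of `X` on the line. -/
theorem Ln.pair {p x : Fin n → E} (hL : Ln A B p x) {H : Matrix (Fin n) (Fin n) k}
    (hH : H = A ∨ H = B) (hp : qv H p ≠ 0) {y₁ y₂ : E} (h1 : y₁ + y₂ = -(bv H p x / qv H p))
    (h2 : y₁ * y₂ = qv H x / qv H p) :
    y₁ • p + (1 : E) • x ≠ 0 ∧ Zer (Pl A B) E (y₁ • p + (1 : E) • x) ∧
      qv H p • sq (y₁ • p + (1 : E) • x) (y₂ • p + (1 : E) • x) = Tq.tn H p x := by
  have h1' : (y₁ + y₂) * qv H p = -bv H p x := by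
    rw [h1, neg_mul, div_mul_cancel₀ _ hp]
  have h2' : y₁ * y₂ * qv H p = qv H x := by
    rw [h2, div_mul_cancel₀ _ hp]
  have hqa : qv H (y₁ • p + (1 : E) • x) = 0 := by
    rw [qv_lin]
    linear_combination y₁ * h1' - h2'
  have hQ : Qp A B p (y₁ • p + (1 : E) • x) = 0 := by
    rw [Qp_lin, Qp_self, hL.b, hL.q]
    ring
  refine ⟨?_, ?_, ?_⟩
  · intro h0
    have h3 := LinearIndependent.pair_iff.1 hL.ind y₁ 1 h0
    exact one_ne_zero h3.2
  · rw [zer_iff]
    rw [Qp] at hQ
    rcases hH with rfl | rfl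
    · refine ⟨hqa, ?_⟩
      rw [hqa, mul_zero, zero_sub, neg_eq_zero] at hQ
      exact (mul_eq_zero.1 hQ).resolve_left hp
    · refine ⟨?_, hqa⟩
      rw [hqa, mul_zero, sub_zero] at hQ
      exact (mul_eq_zero.1 hQ).resolve_left hp
  · rw [sq_lin, Tq.tn]
    refine sq_ext fun i j => ?_
    simp only [Pi.add_apply, Pi.sub_apply, Pi.smul_apply, smul_eq_mul]
    linear_combination (sq p p (finProdFinEquiv (i, j))) * h2' +
      (sq p x (finProdFinEquiv (i, j))) * h1'

/-- The tensor is the tensor of two points of `X` over an algebraically closed field. Proof: let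
`y₁, y₂` be the zeros of `Y ^ 2 + (bv H p x / qv H p) Y + qv H x / qv H p`, `a = y₁ p + x`,
`b = y₂ p + x`; by `sq_lin` (`a = y₁ • p + 1 • x` ...) `qv H p • sq a b = tn H p x`. As `qv H a = 0`
and `Qp A B p a = 0` (`Qp_lin`), `qv A a = qv B a = 0`: if `H = B` then
`0 = Qp A B p a = qv B p * qv A a`. -/
theorem IsT.roots [IsAlgClosed E] {p : Fin n → E} {t : ℙ E (Fin (n * n) → E)}
    (h : IsT A B p t) : ∃ (a b : Fin n → E) (ha : a ≠ 0) (hb : b ≠ 0) (hs : sq a b ≠ 0),
      Zer (Pl A B) E a ∧ Zer (Pl A B) E b ∧ t = Projectivization.mk E (sq a b) hs := by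
  have : CharZero E := charZero_of_injective_algebraMap (algebraMap k E).injective
  obtain ⟨x, hL, H, hH, hp, h0, ht⟩ := h
  set β := bv H p x / qv H p with hβ
  set γ := qv H x / qv H p with hγ
  have hq : ((X : E[X]) ^ 2 + C β * X + C γ).degree ≠ 0 := by
    have : ((X : E[X]) ^ 2 + C β * X + C γ).degree = 2 := by compute_degree!
    rw [this]
    exact two_ne_zero
  obtain ⟨y, hy⟩ := IsAlgClosed.exists_root _ hq
  have hy' : y ^ 2 + β * y + γ = 0 := by
    have h1 := hy.eq_zero
    simpa only [eval_add, eval_pow, eval_X, eval_mul, eval_C] using h1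
  have e1 : y + (-β - y) = -β := by ring
  have e2 : y * (-β - y) = γ := by linear_combination -hy'
  obtain ⟨ha, hza, hs⟩ := hL.pair hH hp e1 e2
  obtain ⟨hb, hzb, -⟩ := hL.pair hH hp (y₁ := -β - y) (y₂ := y) (by rw [add_comm]; exact e1)
    (by rw [mul_comm]; exact e2)
  refine ⟨_, _, ha, hb, sq_ne_zero ha hb, hza, hzb, ?_⟩
  rw [ht, Projectivization.mk_eq_mk_iff']
  exact ⟨qv H p, hs⟩

/-- Over a field `E`: either the two points of `X` are defined over `E`, or over a quadratic
extension `E'` with an automorphism `σ` which exchanges them. Proof: the polynomial of `IsT.roots`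
has a zero `y₁` in `E` (then `y₂ = -bv H p x / qv H p - y₁`), or is irreducible; then
`E' = AdjoinRoot`, `y₁ = root`, `σ y₁ = y₂` (as in `Qb.exists_ext`, `Qb/Dbl.lean`). -/
theorem IsT.split {p : Fin n → E} {t : Fin (n * n) → E} (ht : t ≠ 0)
    (h : IsT A B p (Projectivization.mk E t ht)) :
    (∃ (a b : Fin n → E), a ≠ 0 ∧ b ≠ 0 ∧ Zer (Pl A B) E a ∧ Zer (Pl A B) E b ∧
      ∃ c : E, c ≠ 0 ∧ c • t = sq a b) ∨
    (∃ (E' : Type u) (_ : Field E') (_ : Algebra k E') (_ : Algebra E E')
      (_ : IsScalarTower k E E') (_ : FiniteDimensional E E') (σ : E' ≃ₐ[E] E')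
      (a : Fin n → E') (c : E'), Module.finrank E E' = 2 ∧ a ≠ 0 ∧ Zer (Pl A B) E' a ∧ c ≠ 0 ∧
      (c • fun i => algebraMap E E' (t i)) = sq a fun i => σ (a i)) := by
  obtain ⟨x, hL, H, hH, hp, h0, hmk⟩ := h
  rw [Projectivization.mk_eq_mk_iff'] at hmk
  obtain ⟨s, hst⟩ := hmk
  have hs0 : s ≠ 0 := by
    rintro rfl
    rw [zero_smul] at hst
    exact ht hst.symm
  set β := bv H p x / qv H p with hβ
  set γ := qv H x / qv H p with hγ
  set q : E[X] := X ^ 2 + C β * X + C γ with hq
  by_cases hroot : ∃ y : E, q.IsRoot y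
  · left
    obtain ⟨y, hy⟩ := hroot
    have hy' : y ^ 2 + β * y + γ = 0 := by
      have h1 := hy.eq_zero
      rw [hq] at h1
      simpa only [eval_add, eval_pow, eval_X, eval_mul, eval_C] using h1
    have e1 : y + (-β - y) = -β := by ring
    have e2 : y * (-β - y) = γ := by linear_combination -hy'
    obtain ⟨ha, hza, hs⟩ := hL.pair hH hp e1 e2
    obtain ⟨hb, hzb, -⟩ := hL.pair hH hp (y₁ := -β - y) (y₂ := y) (by rw [add_comm]; exact e1)
      (by rw [mul_comm]; exact e2)
    refine ⟨_, _, ha, hb, hza, hzb, (s * qv H p)⁻¹, inv_ne_zero (mul_ne_zero hs0 hp), ?_⟩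
    rw [← hst, ← hs, smul_smul, smul_smul]
    have e3 : (s * qv H p)⁻¹ * s * qv H p = 1 := by
      rw [mul_assoc, inv_mul_cancel₀ (mul_ne_zero hs0 hp)]
    rw [e3, one_smul]
  · right
    push Not at hroot
    have hdeg : q.natDegree = 2 := by
      rw [hq]
      compute_degree!
    have hmon : q.Monic := by
      rw [hq]
      monicity!
    have hirr : Irreducible q := by
      refine (Polynomial.Monic.irreducible_iff_roots_eq_zero_of_degree_le_three hmon
        (by rw [hdeg]) (by rw [hdeg]; omega)).2 ?_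
      rw [Multiset.eq_zero_iff_forall_notMem]
      intro t ht
      exact hroot t (isRoot_of_mem_roots ht)
    have hqe : ∀ (S : Type u) [CommRing S] [Algebra E S] (x : S),
        eval₂ (algebraMap E S) x q = x ^ 2 + algebraMap E S β * x + algebraMap E S γ := by
      intro S _ _ x
      rw [hq]
      simp only [eval₂_add, eval₂_mul, eval₂_pow, eval₂_X, eval₂_C]
    have : Fact (Irreducible q) := ⟨hirr⟩
    have hfd : FiniteDimensional E (AdjoinRoot q) := (AdjoinRoot.powerBasis hirr.ne_zero).finite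
    have hfr : Module.finrank E (AdjoinRoot q) = 2 := by
      rw [(AdjoinRoot.powerBasis hirr.ne_zero).finrank, AdjoinRoot.powerBasis_dim, hdeg]
    let θ : AdjoinRoot q := AdjoinRoot.root q
    have hθ : θ ^ 2 + algebraMap E _ β * θ + algebraMap E _ γ = 0 := by
      rw [← hqe]
      have h1 : aeval θ q = 0 := by
        rw [AdjoinRoot.aeval_eq, AdjoinRoot.mk_self]
      exact h1
    have hq2 : q.eval₂ (algebraMap E (AdjoinRoot q)) (-algebraMap E _ β - θ) = 0 := by
      rw [hqe]
      linear_combination hθ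
    let σ0 : AdjoinRoot q →ₐ[E] AdjoinRoot q :=
      AdjoinRoot.liftAlgHom q (Algebra.ofId E _) (-algebraMap E _ β - θ) hq2
    have hσ0 : σ0 θ = -algebraMap E _ β - θ := by
      exact AdjoinRoot.liftAlgHom_root ..
    let σ : AdjoinRoot q ≃ₐ[E] AdjoinRoot q :=
      AlgEquiv.ofBijective σ0 (Algebra.IsAlgebraic.algHom_bijective σ0)
    let f : E →ₐ[k] AdjoinRoot q := IsScalarTower.toAlgHom k E (AdjoinRoot q)
    have hf : ∀ e : E, f e = algebraMap E (AdjoinRoot q) e := fun _ => rfl
    have hL' := hL.hom f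
    have hp' : qv H (fun i => f (p i)) ≠ 0 := by
      rw [qv_hom]
      exact (map_ne_zero_iff _ (f : E →+* AdjoinRoot q).injective).2 hp
    have hfb : bv H (fun i => f (p i)) (fun i => f (x i)) / qv H (fun i => f (p i)) =
        algebraMap E (AdjoinRoot q) β := by
      rw [bv_hom, qv_hom, hf, hf, ← map_div₀]
    have hfc : qv H (fun i => f (x i)) / qv H (fun i => f (p i)) =
        algebraMap E (AdjoinRoot q) γ := by
      rw [qv_hom, qv_hom, hf, hf, ← map_div₀]
    obtain ⟨ha, hza, hs⟩ := hL'.pair hH hp' (y₁ := θ) (y₂ := -algebraMap E _ β - θ)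
      (by rw [hfb]; ring) (by rw [hfc]; linear_combination -hθ)
    have hss : f s * qv H (fun i => f (p i)) ≠ 0 :=
      mul_ne_zero ((map_ne_zero_iff _ (f : E →+* AdjoinRoot q).injective).2 hs0) hp'
    refine ⟨AdjoinRoot q, inferInstance, inferInstance, inferInstance, inferInstance, hfd, σ,
      θ • (fun i => f (p i)) + (1 : AdjoinRoot q) • (fun i => f (x i)),
      (f s * qv H (fun i => f (p i)))⁻¹, hfr, ha, hza, inv_ne_zero hss, ?_⟩
    have hσa : (fun i => σ ((θ • (fun i => f (p i)) +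
        (1 : AdjoinRoot q) • (fun i => f (x i))) i)) =
        (-algebraMap E _ β - θ) • (fun i => f (p i)) +
          (1 : AdjoinRoot q) • (fun i => f (x i)) := by
      funext i
      have hσσ : ∀ z : AdjoinRoot q, σ z = σ0 z := fun z => rfl
      rw [hσσ]
      simp only [Pi.add_apply, Pi.smul_apply, smul_eq_mul, one_mul, map_add, map_mul, hσ0, hf,
        σ0.commutes]
    have htt : (fun i => algebraMap E (AdjoinRoot q) (t i)) =
        f s • tn H (fun i => f (p i)) (fun i => f (x i)) := by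
      rw [tn_hom, ← hst]
      funext i
      simp only [Pi.smul_apply, smul_eq_mul, map_mul, hf]
    rw [hσa, htt, ← hs, smul_smul, smul_smul]
    have e3 : (f s * qv H (fun i => f (p i)))⁻¹ * f s * qv H (fun i => f (p i)) = 1 := by
      rw [mul_assoc, inv_mul_cancel₀ hss]
    rw [e3, one_smul]

end lin

end Tq
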