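import Pool.Agent.Lib.MP_f80667_ag.ZC.Rel

/-! The push-forward of the divisor of the coordinate along a rational curve. -/

open scoped LinearAlgebra.Projectivization

namespace Tq

open ZC

universe u

section gen

open Polynomial

variable {k : Type u} [Field k] {Ω : Type u} [Field Ω] [Algebra k Ω]
  {n : ℕ} {M : Type u} [Field M] [Algebra k M] [FiniteDimensional k M]

/-- The general form: the curve is given by polynomials in `X` and, up to a power of `X`, in
`X⁻¹`. -/
theorem push_gen (A C : Fin n → M) (hA : A ≠ 0) (hC : C ≠ 0)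
    (P P' : Fin n → M[X]) (d : ℕ) (hP0 : (fun j => (P j).eval 0) = A)
    (hP0' : (fun j => (P' j).eval 0) = C)
    (hPP : ∀ j, aeval (RatFunc.X : RatFunc M) (P j) =
      RatFunc.X ^ d * aeval (RatFunc.X : RatFunc M)⁻¹ (P' j)) :
    IsPush k Ω (RatFunc.X : RatFunc M) (fun j => aeval (RatFunc.X : RatFunc M) (P j))
      (trPt k Ω (Projectivization.mk M A hA) - trPt k Ω (Projectivization.mk M C hC)) := by
  classical
  have H := gen_X M
  have H' := H.inv
  have hX : (RatFunc.X : RatFunc M) ≠ 0 := H.ne_zero
  set p : Fin n → RatFunc M := fun j => aeval (RatFunc.X : RatFunc M) (P j) with hp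
  have hpp' : p = fun j => (RatFunc.X : RatFunc M) ^ d * aeval (RatFunc.X : RatFunc M)⁻¹ (P' j) :=
    funext hPP
  have hval0 : ∀ ι : M →ₐ[k] Ω, (H.place ι).IsVal p
      (mapPt (ι : M →+* Ω) (Projectivization.mk M A hA)) := by
    intro ι
    have h := H.place_val ι P (by rw [hP0]; exact hA) 1 one_ne_zero
    simp only [one_mul] at h
    convert h using 3
    exact hP0.symm
  have hval1 : ∀ ι : M →ₐ[k] Ω, (H'.place ι).IsVal p
      (mapPt (ι : M →+* Ω) (Projectivization.mk M C hC)) := by
    intro ι
    have h := H'.place_val ι P' (by rw [hP0']; exact hC) (RatFunc.X ^ d) (pow_ne_zero _ hX)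
    rw [hpp']
    convert h using 3
    exact hP0'.symm
  have hinj0 : Function.Injective (fun ι : M →ₐ[k] Ω => H.place ι) := by
    intro a b hab
    have := congrArg (fun w => Place.emb (M := M) w) hab
    simpa [H.place_emb] using this
  have hinj1 : Function.Injective (fun ι : M →ₐ[k] Ω => H'.place ι) := by
    intro a b hab
    have := congrArg (fun w => Place.emb (M := M) w) hab
    simpa [H'.place_emb] using this
  have hn0 : ∀ ι : M →ₐ[k] Ω, (RatFunc.X : RatFunc M) ∈ (H.place ι).V.nonunits :=
    fun ι => H.place_mem_nonunits ι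
  have hn1 : ∀ ι : M →ₐ[k] Ω, (RatFunc.X : RatFunc M) ∉ (H'.place ι).V.nonunits := by
    intro ι h
    have h1 := H'.place_mem_nonunits ι
    rw [ValuationSubring.inv_mem_nonunits_iff] at h1
    rcases h1 with h1 | h1
    · exact hX h1
    · exact h1 ((H'.place ι).V.nonunits_le h)
  refine ⟨Finset.univ.image (fun ι : M →ₐ[k] Ω => H.place ι) ∪
    Finset.univ.image (fun ι : M →ₐ[k] Ω => H'.place ι),
    fun w => if (RatFunc.X : RatFunc M) ∈ w.V.nonunits then 1 else -1,
    fun w => if (RatFunc.X : RatFunc M) ∈ w.V.nonunits then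
      mapPt (w.emb (M := M) : M →+* Ω) (Projectivization.mk M A hA) else
      mapPt (w.emb (M := M) : M →+* Ω) (Projectivization.mk M C hC), ?_, ?_, ?_⟩
  · intro w hw
    simp only [Finset.mem_union, Finset.mem_image, Finset.mem_univ, true_and, not_or,
      not_exists] at hw
    constructor
    · by_contra hcon
      have h1 : (RatFunc.X : RatFunc M)⁻¹ ∈ w.V.nonunits := by
        rw [ValuationSubring.inv_mem_nonunits_iff]
        exact Or.inr hcon
      exact hw.2 _ (H'.eq_place w h1).symm
    · by_contra hcon
      have h1 : (RatFunc.X : RatFunc M) ∈ w.V.nonunits := by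
        rw [ValuationSubring.mem_nonunits_iff_or]
        exact Or.inr hcon
      exact hw.1 _ (H.eq_place w h1).symm
  · intro w hw
    simp only [Finset.mem_union, Finset.mem_image, Finset.mem_univ, true_and] at hw
    rcases hw with ⟨ι, rfl⟩ | ⟨ι, rfl⟩
    · beta_reduce
      rw [if_pos (hn0 ι), if_pos (hn0 ι), H.place_emb]
      exact ⟨H.place_ord ι, hval0 ι⟩
    · beta_reduce
      rw [if_neg (hn1 ι), if_neg (hn1 ι), H'.place_emb]
      refine ⟨?_, hval1 ι⟩
      have := H'.place_ord_inv ι
      rwa [inv_inv] at this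
  · rw [Finset.sum_union, Finset.sum_image (fun a _ b _ h => hinj0 h),
      Finset.sum_image (fun a _ b _ h => hinj1 h), trPt, trPt, sub_eq_add_neg,
      ← Finset.sum_neg_distrib]
    · congr 1
      · apply Finset.sum_congr rfl
        intro ι _
        beta_reduce
        rw [if_pos (hn0 ι), if_pos (hn0 ι), H.place_emb]
      · apply Finset.sum_congr rfl
        intro ι _
        beta_reduce
        rw [if_neg (hn1 ι), if_neg (hn1 ι), H'.place_emb, Finsupp.single_neg]
    · rw [Finset.disjoint_left]
      intro w h1 h2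
      simp only [Finset.mem_image, Finset.mem_univ, true_and] at h1 h2
      obtain ⟨ι, rfl⟩ := h1
      obtain ⟨ι', h'⟩ := h2
      apply hn1 ι'
      rw [h']
      exact hn0 ι

end gen

variable {k : Type u} [Field k] [CharZero k] {Ω : Type u} [Field Ω] [Algebra k Ω] [IsAlgClosed Ω]
  {n : ℕ} {A B : Matrix (Fin n) (Fin n) k} {M : Type u} [Field M] [Algebra k M]
  [FiniteDimensional k M]

omit [CharZero k] [IsAlgClosed Ω] in
/-- The push-forward of the divisor of the coordinate along a curve `∑ c_a X^a`. -/
theorem push_curve {m : ℕ} (N : ℕ) (c : ℕ → Fin m → M) (h0 : c 0 ≠ 0) (hN : c N ≠ 0) :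
    IsPush k Ω (RatFunc.X : RatFunc M)
      (fun j => ∑ a ∈ Finset.range (N + 1), RatFunc.X ^ a * algebraMap M (RatFunc M) (c a j))
      (trPt k Ω (Projectivization.mk M (c 0) h0) - trPt k Ω (Projectivization.mk M (c N) hN)) := by
  have hX : (RatFunc.X : RatFunc M) ≠ 0 := (gen_X M).ne_zero
  have key := push_gen (k := k) (Ω := Ω) (c 0) (c N) h0 hN
    (fun j => ∑ a ∈ Finset.range (N + 1), Polynomial.X ^ a * Polynomial.C (c a j))
    (fun j => ∑ a ∈ Finset.range (N + 1), Polynomial.X ^ a * Polynomial.C (c (N - a) j)) N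
    (by
      funext j
      rw [Polynomial.eval_finsetSum, Finset.sum_eq_single 0]
      · simp
      · intro b _ hb
        simp [hb]
      · intro h; simp at h)
    (by
      funext j
      rw [Polynomial.eval_finsetSum, Finset.sum_eq_single 0]
      · simp
      · intro b _ hb
        simp [hb]
      · intro h; simp at h)
    (by
      intro j
      rw [map_sum, map_sum, Finset.mul_sum, ← Finset.sum_range_reflect]
      apply Finset.sum_congr rfl
      intro a ha
      have ha' : a ≤ N := by
        have := Finset.mem_range.1 ha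
        omega
      rw [map_mul, map_mul, map_pow, map_pow, Polynomial.aeval_X, Polynomial.aeval_X,
        Polynomial.aeval_C, Polynomial.aeval_C, ← mul_assoc]
      congr 1
      have : N + 1 - 1 - a = N - a := by omega
      rw [this]
      rw [inv_pow, ← div_eq_mul_inv, eq_div_iff (pow_ne_zero _ hX), ← pow_add,
        Nat.sub_add_cancel ha'])
  have hfun : (fun j => Polynomial.aeval (RatFunc.X : RatFunc M)
      (∑ a ∈ Finset.range (N + 1), Polynomial.X ^ a * Polynomial.C (c a j))) =
      fun j => ∑ a ∈ Finset.range (N + 1), RatFunc.X ^ a * algebraMap M (RatFunc M) (c a j) := by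
    funext j
    rw [map_sum]
    apply Finset.sum_congr rfl
    intro a _
    rw [map_mul, map_pow, Polynomial.aeval_X, Polynomial.aeval_C]
  rw [← hfun]
  exact key

end Tq
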