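import Pool.Agent.Lib.MP_f80667_ag.Tq.OneA
import Pool.Agent.Lib.MP_f80667_ag.Tq.Cor

/-! Lines through a point which form a conic. -/

open scoped LinearAlgebra.Projectivization

namespace Tq

open ZC

universe u

section polar

variable {k : Type*} [Field k] {n : ℕ} {R : Type*} [CommRing R] [Algebra k R]

/-- The polar form of `tn`. -/
private def tb (H : Matrix (Fin n) (Fin n) k) (p x y : Fin n → R) : Fin (n * n) → R :=
  bv H x y • sq p p - (bv H p x • sq p y + bv H p y • sq p x) + (2 * qv H p) • sq x y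

private theorem tn_add (H : Matrix (Fin n) (Fin n) k) (p x y : Fin n → R) (s : R) :
    tn H p (x + s • y) = tn H p x + s • tb H p x y + s ^ 2 • tn H p y := by
  have h1 : qv H (x + s • y) = qv H x + s * bv H x y + s ^ 2 * qv H y := by
    rw [qv_add, qv_smul, bv_smul_right]
  refine sq_ext fun i j => ?_
  simp only [tn, tb, h1, bv_add_right, bv_smul_right, sq_apply, Pi.add_apply, Pi.sub_apply,
    Pi.smul_apply, smul_eq_mul]
  ring

private theorem tb_add (H : Matrix (Fin n) (Fin n) k) (p x y z : Fin n → R) (s : R) :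
    tb H p x (y + s • z) = tb H p x y + s • tb H p x z := by
  refine sq_ext fun i j => ?_
  simp only [tb, bv_add_right, bv_smul_right, sq_apply, Pi.add_apply, Pi.sub_apply,
    Pi.smul_apply, smul_eq_mul]
  ring

private theorem tb_hom {S : Type*} [CommRing S] [Algebra k S] (f : R →ₐ[k] S)
    (H : Matrix (Fin n) (Fin n) k) (p x y : Fin n → R) :
    tb H (fun i => f (p i)) (fun i => f (x i)) (fun i => f (y i)) = fun c => f (tb H p x y c) := by
  refine sq_ext fun i j => ?_
  simp only [tb, qv_hom, bv_hom, sq_apply, Pi.add_apply, Pi.sub_apply, Pi.smul_apply, smul_eq_mul,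
    map_add, map_sub, map_mul, map_ofNat]

end polar

variable {k : Type u} [Field k] [CharZero k] {Ω : Type u} [Field Ω] [Algebra k Ω] [IsAlgClosed Ω]
  {n : ℕ} {A B : Matrix (Fin n) (Fin n) k} {M : Type u} [Field M] [Algebra k M]
  [FiniteDimensional k M]

/-- The coefficients of the curve of the tensors. -/
private def co (H : Matrix (Fin n) (Fin n) k) (p x₀ x₁ x₂ : Fin n → M) : ℕ → Fin (n * n) → M
  | 0 => tn H p x₀
  | 1 => tb H p x₀ x₁
  | 2 => tb H p x₀ x₂ + tn H p x₁
  | 3 => tb H p x₁ x₂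
  | _ => tn H p x₂

/-- Lines `⟨p, x₀ + s x₁ + s² x₂⟩`. Proof: over `E = RatFunc M` (`isFunField_ratFunc`),
`x(s) = x₀ + s x₁ + s² x₂` satisfies `Ln` (independent of `p`: otherwise all minors
`p_i x_j(s) - p_j x_i(s)` vanish, so they do for `s = 0`); `tn H p x(s)` is a curve of degree `4` in
`s` with ends `tn H p x₀`, `tn H p x₂`; `push_curve` with `N = 4` and `cor` with `e = X`. -/
theorem rel_conic {p x₀ x₁ x₂ : Fin n → M} (h0 : LinearIndependent M ![p, x₀])
    (h2 : LinearIndependent M ![p, x₂]) (b0 : Bp A B p p x₀ = 0) (b1 : Bp A B p p x₁ = 0)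
    (b2 : Bp A B p p x₂ = 0) (q0 : Qp A B p x₀ = 0) (q01 : Bp A B p x₀ x₁ = 0)
    (q1 : Qp A B p x₁ + Bp A B p x₀ x₂ = 0) (q12 : Bp A B p x₁ x₂ = 0) (q2 : Qp A B p x₂ = 0)
    {H : Matrix (Fin n) (Fin n) k} (hH : H = A ∨ H = B) (hp : qv H p ≠ 0)
    (ht : tn H p x₀ ≠ 0) (ht' : tn H p x₂ ≠ 0) :
    PhL (trPt k Ω (Projectivization.mk M (tn H p x₀) ht)) -
      PhL (trPt k Ω (Projectivization.mk M (tn H p x₂) ht')) ∈ ratEq Ω (Pl A B) := by
  have hG := gen_X M
  set s : RatFunc M := RatFunc.X with hs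
  have hs0 : s ≠ 0 := hG.ne_zero
  set f : M →ₐ[k] RatFunc M := IsScalarTower.toAlgHom k M (RatFunc M) with hf
  have hfa : ∀ a : M, f a = algebraMap M (RatFunc M) a := fun a => rfl
  have hfinj : Function.Injective f := f.toRingHom.injective
  set P : Fin n → RatFunc M := fun i => f (p i) with hP
  set Y₀ : Fin n → RatFunc M := fun i => f (x₀ i) with hY0
  set Y₁ : Fin n → RatFunc M := fun i => f (x₁ i) with hY1
  set Y₂ : Fin n → RatFunc M := fun i => f (x₂ i) with hY2
  set xs : Fin n → RatFunc M := Y₀ + s • (Y₁ + s • Y₂) with hxs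
  have hPp : qv H P ≠ 0 := by
    rw [hP, qv_hom]
    exact fun h => hp (hfinj (h.trans (map_zero f).symm))
  have hP0 : P ≠ 0 := by
    intro h
    apply h0.ne_zero 0
    funext i
    exact hfinj ((congrFun h i).trans (map_zero f).symm)
  -- the equations
  have c00 : Qp A B P Y₀ = 0 := by rw [hP, hY0, Qp_hom, q0, map_zero]
  have c01 : Bp A B P Y₀ Y₁ = 0 := by rw [hP, hY0, hY1, Bp_hom, q01, map_zero]
  have c11 : Qp A B P Y₁ + Bp A B P Y₀ Y₂ = 0 := by
    rw [hP, hY0, hY1, hY2, Qp_hom, Bp_hom, ← map_add, q1, map_zero]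
  have c12 : Bp A B P Y₁ Y₂ = 0 := by rw [hP, hY1, hY2, Bp_hom, q12, map_zero]
  have c22 : Qp A B P Y₂ = 0 := by rw [hP, hY2, Qp_hom, q2, map_zero]
  have d0 : Bp A B P P Y₀ = 0 := by rw [hP, hY0, Bp_hom, b0, map_zero]
  have d1 : Bp A B P P Y₁ = 0 := by rw [hP, hY1, Bp_hom, b1, map_zero]
  have d2 : Bp A B P P Y₂ = 0 := by rw [hP, hY2, Bp_hom, b2, map_zero]
  have hq : Qp A B P xs = 0 := by
    have e1 : xs = (1 : RatFunc M) • Y₀ + s • ((1 : RatFunc M) • Y₁ + s • Y₂) := by
      rw [one_smul, one_smul]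
    rw [e1, Qp_lin, Qp_lin, Bp_add, Bp_smul, Bp_smul, c00, c01, c12, c22]
    linear_combination s ^ 2 * c11
  have hb : Bp A B P P xs = 0 := by
    rw [hxs, Bp_add, Bp_smul, Bp_add, Bp_smul, d0, d1, d2]
    ring
  have hind : LinearIndependent (RatFunc M) ![P, xs] := by
    rw [LinearIndependent.pair_iff]
    intro u v huv
    have hv : v = 0 := by
      by_contra hv
      obtain ⟨i, j, hij⟩ := exists_minor h0
      have e : ∀ l, u * P l + v * xs l = 0 := fun l => congrFun huv l
      have e1 : v * (P i * xs j - P j * xs i) = 0 := by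
        linear_combination P i * e j - P j * e i
      have e2 := (mul_eq_zero.1 e1).resolve_left hv
      have e3 : Polynomial.aeval s (Polynomial.C (p i * x₀ j - p j * x₀ i) + Polynomial.X *
          Polynomial.C (p i * x₁ j - p j * x₁ i) + Polynomial.X ^ 2 *
          Polynomial.C (p i * x₂ j - p j * x₂ i) : Polynomial M) = 0 := by
        rw [← e2]
        simp only [map_add, map_sub, map_mul, map_pow, Polynomial.aeval_X, Polynomial.aeval_C,
          hxs, hP, hY0, hY1, hY2, hfa, Pi.add_apply, Pi.smul_apply, smul_eq_mul]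
        ring
      have e4 : (Polynomial.C (p i * x₀ j - p j * x₀ i) + Polynomial.X *
          Polynomial.C (p i * x₁ j - p j * x₁ i) + Polynomial.X ^ 2 *
          Polynomial.C (p i * x₂ j - p j * x₂ i) : Polynomial M) = 0 := by
        by_contra hne
        exact hG.ne hne e3
      have e5 := congrArg (Polynomial.eval 0) e4
      simp only [Polynomial.eval_add, Polynomial.eval_mul, Polynomial.eval_C, Polynomial.eval_X,
        Polynomial.eval_pow, Polynomial.eval_zero] at e5
      apply hij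
      linear_combination e5
    refine ⟨?_, hv⟩
    rw [hv, zero_smul, add_zero] at huv
    exact (smul_eq_zero.1 huv).resolve_right hP0
  have hLn : Ln A B P xs := ⟨hind, hq, hb⟩
  have hcz : CharZero (RatFunc M) :=
    charZero_of_injective_algebraMap (algebraMap k (RatFunc M)).injective
  have htn : tn H P xs ≠ 0 := tn_ne_zero hind hPp
  have hT : IsT A B P (Projectivization.mk (RatFunc M) (tn H P xs) htn) :=
    ⟨xs, hLn, H, hH, hPp, htn, rfl⟩
  have key := push_curve (k := k) (Ω := Ω) 4 (co H p x₀ x₁ x₂) ht ht'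
  have hfun : (fun j => ∑ a ∈ Finset.range (4 + 1),
      RatFunc.X ^ a * algebraMap M (RatFunc M) (co H p x₀ x₁ x₂ a j)) = tn H P xs := by
    rw [hxs, tn_add, tn_add, tb_add, hP, hY0, hY1, hY2, tn_hom, tn_hom, tn_hom, tb_hom, tb_hom,
      tb_hom]
    funext j
    simp only [Finset.sum_range_succ, Finset.sum_range_zero, co, Pi.add_apply, Pi.smul_apply,
      smul_eq_mul, map_add, hfa, ← hs]
    ring
  rw [hfun] at key
  have := cor (A := A) (B := B) (isFunField_ratFunc k M) hs0 htn hT key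
  rw [map_sub] at this
  exact this

end Tq
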