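import Pool.Agent.Lib.MP_f80667_ag.Tq.GenA
import Pool.Agent.Lib.MP_f80667_ag.Tq.LinA

/-! Points of `X` and cycles of lines. -/

open scoped LinearAlgebra.Projectivization

namespace Tq

open ZC

universe u

variable {k : Type u} [Field k] [CharZero k] {Ω : Type u} [Field Ω] [Algebra k Ω] [IsAlgClosed Ω]
  {n : ℕ} {A B : Matrix (Fin n) (Fin n) k} {M : Type u} [Field M] [Algebra k M]
  [FiniteDimensional k M]

omit [IsAlgClosed Ω] in
/-- The cycle of the trace of the tensor of two points. -/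
theorem PhL_tr {a b : Fin n → M} (ha : a ≠ 0) (hb : b ≠ 0) {u : Fin (n * n) → M} (hu : u ≠ 0)
    {c : M} (h : u = c • sq a b) :
    PhL (trPt k Ω (Projectivization.mk M u hu)) = trPt k Ω (Projectivization.mk M a ha) +
      trPt k Ω (Projectivization.mk M b hb) := by
  have : CharZero Ω := charZero_of_injective_algebraMap (algebraMap k Ω).injective
  rw [trPt, trPt, trPt, map_sum, ← Finset.sum_add_distrib]
  apply Finset.sum_congr rfl
  intro ι _
  rw [PhL_single, one_smul, mapPt_mk, mapPt_mk, mapPt_mk]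
  have ha' := comp_ne (ι : M →+* Ω) ha
  have hb' := comp_ne (ι : M →+* Ω) hb
  have hs := sq_ne_zero ha' hb'
  rw [← Ph_mk ha' hb' hs]
  congr 1
  rw [Projectivization.mk_eq_mk_iff']
  refine ⟨ι c, ?_⟩
  rw [h]
  refine sq_ext fun i j => ?_
  simp only [Pi.smul_apply, smul_eq_mul, sq_apply, map_mul, map_add]
  rfl

/-- Twice a point is the cycle of a tangent line. Proof: `U = {x | bv A P x = bv B P x = 0}` has
dimension `≥ n - 2`; by `no_sub` there is `p ∈ U` with `qv A p ≠ 0`. `p`, `P` are independent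
(`qv A P = 0`), `Ln A B p P` (`Qp p P = 0`, `Bp p p P = 0`), `tn A p P = qv A p • sq P P`;
`PhL (trPt t) = 2 • trPt P` by `Ph_mk`. -/
theorem two_pt (hs : Sm Ω A B) (hn : 6 ≤ n) {P : Fin n → M} (hP : P ≠ 0)
    (hX : Zer (Pl A B) M P) : ∃ (p : Fin n → M) (t : ℙ M (Fin (n * n) → M)), IsT A B p t ∧
      PhL (trPt k Ω t) = (2 : ℤ) • trPt k Ω (Projectivization.mk M P hP) := by
  have : CharZero M := charZero_of_injective_algebraMap (algebraMap k M).injective
  obtain ⟨qA, qB⟩ := (zer_iff A B).1 hX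
  let σ : M →ₐ[k] Ω := IsAlgClosed.lift
  let U : Submodule M (Fin n → M) := LinearMap.ker ((bvl A P).prod (bvl B P))
  have hU : n ≤ Module.finrank M U + 2 := by
    have h1 := LinearMap.finrank_range_add_finrank_ker ((bvl A P).prod (bvl B P))
    have h2 := Submodule.finrank_le (LinearMap.range ((bvl A P).prod (bvl B P)))
    rw [Module.finrank_prod, Module.finrank_self] at h2
    rw [Module.finrank_fin_fun] at h1
    change n ≤ Module.finrank M (LinearMap.ker ((bvl A P).prod (bvl B P))) + 2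
    omega
  obtain ⟨p, hpU, hp⟩ := no_sub hs σ hn U hU (a := 1) (b := 0) (Or.inl one_ne_zero)
  rw [one_mul, zero_mul, add_zero] at hp
  have hpU' : bvl A P p = 0 ∧ bvl B P p = 0 := by
    have h1 := LinearMap.mem_ker.1 hpU
    exact ⟨congrArg Prod.fst h1, congrArg Prod.snd h1⟩
  have bA : bv A p P = 0 := (bv_comm A p P).trans hpU'.1
  have bB : bv B p P = 0 := (bv_comm B p P).trans hpU'.2
  have hind : LinearIndependent M ![p, P] := by
    rw [LinearIndependent.pair_iff]
    intro s t hst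
    have h1 : qv A (s • p + t • P) = 0 := by rw [hst]; simp [qv]
    rw [qv_lin, bA, qA, mul_zero, mul_zero, add_zero, add_zero] at h1
    have hs0 : s = 0 := by
      rcases mul_eq_zero.1 h1 with h | h
      · exact pow_eq_zero_iff two_ne_zero |>.1 h
      · exact absurd h hp
    refine ⟨hs0, ?_⟩
    rw [hs0, zero_smul, zero_add] at hst
    exact (smul_eq_zero.1 hst).resolve_right hP
  have ht := tn_ne_zero (H := A) hind hp
  refine ⟨p, Projectivization.mk M _ ht, ⟨P, ⟨hind, ?_, ?_⟩, A, Or.inl rfl, hp, ht, rfl⟩, ?_⟩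
  · rw [Qp, qA, qB]; ring
  · rw [Bp, bA, bB]; ring
  · rw [PhL_tr (Ω := Ω) hP hP ht (c := qv A p), two_smul]
    rw [tn, qA, bA, zero_smul, zero_smul, sub_zero, zero_add]

/-- Two points of `X` such that the line is not on `X`: `p = P + R`, `qv H p = bv H P R ≠ 0`,
`Ln A B p P`, `tn H p P = -bv H P R • sq P R` (`sq_lin`, `tn` with `p = P + R`). -/
theorem pair_pt {P R : Fin n → M} (hP : P ≠ 0) (hR : R ≠ 0) (hX : Zer (Pl A B) M P)
    (hX' : Zer (Pl A B) M R) (h : bv A P R ≠ 0 ∨ bv B P R ≠ 0) :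
    ∃ (p : Fin n → M) (t : ℙ M (Fin (n * n) → M)), IsT A B p t ∧
      PhL (trPt k Ω t) = trPt k Ω (Projectivization.mk M P hP) +
        trPt k Ω (Projectivization.mk M R hR) := by
  have : CharZero M := charZero_of_injective_algebraMap (algebraMap k M).injective
  obtain ⟨qA, qB⟩ := (zer_iff A B).1 hX
  obtain ⟨qA', qB'⟩ := (zer_iff A B).1 hX'
  obtain ⟨H, hH, hβ⟩ : ∃ H, (H = A ∨ H = B) ∧ bv H P R ≠ 0 := by
    rcases h with h | h
    · exact ⟨A, Or.inl rfl, h⟩
    · exact ⟨B, Or.inr rfl, h⟩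
  have q : qv H P = 0 ∧ qv H R = 0 := by
    rcases hH with rfl | rfl
    · exact ⟨qA, qA'⟩
    · exact ⟨qB, qB'⟩
  have hq : qv H (P + R) = bv H P R := by rw [qv_add, q.1, q.2, zero_add, add_zero]
  have hq0 : qv H (P + R) ≠ 0 := by rw [hq]; exact hβ
  have hself : bv H P P = 0 := by rw [bv_self, q.1, mul_zero]
  have hind : LinearIndependent M ![P + R, P] := by
    rw [LinearIndependent.pair_iff]
    intro s t hst
    have h1 : bv H P (s • (P + R) + t • P) = 0 := by rw [hst]; simp [bv]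
    rw [bv_add_right, bv_smul_right, bv_smul_right, bv_add_right, hself, zero_add, mul_zero,
      add_zero] at h1
    have hs0 : s = 0 := (mul_eq_zero.1 h1).resolve_right hβ
    refine ⟨hs0, ?_⟩
    rw [hs0, zero_smul, zero_add] at hst
    exact (smul_eq_zero.1 hst).resolve_right hP
  have ht := tn_ne_zero (H := H) hind hq0
  refine ⟨P + R, Projectivization.mk M _ ht, ⟨P, ⟨hind, ?_, ?_⟩, H, hH, hq0, ht, rfl⟩, ?_⟩
  · rw [Qp, qA, qB]; ring
  · rw [Bp, qv_add, qv_add, bv_add, bv_add, bv_self, bv_self, qA, qB, qA', qB', bv_comm A R P,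
      bv_comm B R P]
    ring
  · rw [PhL_tr (Ω := Ω) hP hR ht (c := -bv H P R)]
    refine sq_ext fun i j => ?_
    have e : bv H (P + R) P = bv H P R := by
      rw [bv_add, hself, zero_add, bv_comm]
    simp only [tn, hq, e, q.1, sq_apply, Pi.add_apply, Pi.sub_apply, Pi.smul_apply, smul_eq_mul]
    ring

omit [CharZero k] [IsAlgClosed Ω] in
/-- Two points of `X` on a line on `X`: `ZC.rel_curve` with `N = 1`. -/
theorem line_pt {P R : Fin n → M} (hP : P ≠ 0) (hR : R ≠ 0) (hX : Zer (Pl A B) M P)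
    (hX' : Zer (Pl A B) M R) (hA : bv A P R = 0) (hB : bv B P R = 0) :
    trPt k Ω (Projectivization.mk M P hP) - trPt k Ω (Projectivization.mk M R hR) ∈
      ratEq Ω (Pl A B) := by
  obtain ⟨qA, qB⟩ := (zer_iff A B).1 hX
  obtain ⟨qA', qB'⟩ := (zer_iff A B).1 hX'
  have qz : ∀ H : Matrix (Fin n) (Fin n) k, qv H (0 : Fin n → M) = 0 := by intro i; simp [qv]
  have bz : ∀ (H : Matrix (Fin n) (Fin n) k) (y : Fin n → M), bv H (0 : Fin n → M) y = 0 := by
    intro i y; simp [bv]
  have bz' : ∀ (H : Matrix (Fin n) (Fin n) k) (y : Fin n → M), bv H y (0 : Fin n → M) = 0 := by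
    intro i y; simp [bv]
  apply rel (Pl A B) P 0 R hP hR
  apply zer_curve (A := ![A, B])
  · intro i
    fin_cases i
    · rfl
    · rfl
  · intro i
    fin_cases i
    · exact ⟨qA, bz' A P, by rw [qz]; exact (zero_add _).trans hA, bz A R, qA'⟩
    · exact ⟨qB, bz' B P, by rw [qz]; exact (zero_add _).trans hB, bz B R, qB'⟩

end Tq
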